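import Pool.Agent.Lib.MP_fabde4_an.SpecA
import Pool.Agent.Lib.MP_fabde4_an.SpecP
import Pool.Agent.Lib.MP_fabde4_an.SpecB
import Pool.Agent.Lib.MP_fabde4_an.SpecM

section
/-!
MP_fabde4_an, module PDC: calculus of partial derivatives.
-/
set_option autoImplicit false
open MeasureTheory Set

namespace MPfab

namespace PDC

section Gen

variable {X F : Type*} [NormedAddCommGroup X] [NormedSpace ℝ X] [NormedAddCommGroup F]
  [NormedSpace ℝ F]

/-- the derivative in a fixed direction -/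
noncomputable def dd (v : X) (f : X → F) (x : X) : F := fderiv ℝ f x v

theorem dd_smooth {f : X → F} (h : Sm f) (v : X) : Sm (dd v f) := by
  unfold dd
  exact (h.fderiv_right (m := ((⊤ : ENat) : WithTop ENat)) (by simp)).clm_apply contDiff_const

theorem dd_comm {f : X → F} (h : Sm f) (v w : X) (x : X) :
    dd v (dd w f) x = dd w (dd v f) x := by
  have hs : IsSymmSndFDerivAt ℝ f x :=
    (h.contDiffAt (x := x)).isSymmSndFDerivAt (by
      simp only [minSmoothness_of_isRCLikeNormedField]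
      show ((2 : ENat) : WithTop ENat) ≤ ((⊤ : ENat) : WithTop ENat)
      exact WithTop.coe_le_coe.2 le_top)
  have hd : DifferentiableAt ℝ (fderiv ℝ f) x :=
    (h.fderiv_right (m := ((⊤ : ENat) : WithTop ENat)) (by simp)).differentiable (by simp) x
  have key : ∀ v w : X, dd v (dd w f) x = fderiv ℝ (fderiv ℝ f) x v w := by
    intro v w
    unfold dd
    have h1 := (hd.hasFDerivAt.clm_apply (hasFDerivAt_const w x)).fderiv
    rw [h1]
    simp
  rw [key, key]
  exact hs v w

end Gen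

variable {F : Type*} [NormedAddCommGroup F] [NormedSpace ℝ F]

theorem pd_comm {f : E → F} (h : Sm f) (i j : Fin 3) (x : E) :
    pd i (pd j f) x = pd j (pd i f) x := dd_comm h (eb i) (eb j) x

theorem pds_smooth {f : E → F} (h : Sm f) (L : List (Fin 3)) : Sm (pds L f) := by
  induction L with
  | nil => exact h
  | cons i L ih => exact ih.pd i

theorem pds_comm {f : E → F} (h : Sm f) (i : Fin 3) (L : List (Fin 3)) (x : E) :
    pds L (pd i f) x = pd i (pds L f) x := by
  induction L generalizing x with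
  | nil => rfl
  | cons j L ih =>
    show pd j (pds L (pd i f)) x = pd i (pd j (pds L f)) x
    rw [funext ih]
    exact pd_comm (pds_smooth h L) j i x

theorem sl_smooth {f : ℝ × E → F} (h : Sm f) (t : ℝ) : Sm (sl f t) :=
  h.comp (contDiff_const.prodMk contDiff_id)

/-- the time derivative as a directional derivative -/
theorem dt_eq {f : ℝ × E → F} (h : Sm f) (p : ℝ × E) : dt f p = dd ((1 : ℝ), (0 : E)) f p := by
  have h1 : HasFDerivAt f (fderiv ℝ f p) (p.1, p.2) := (h.differentiable p).hasFDerivAt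
  have h2 : HasDerivAt (fun s : ℝ => (s, p.2)) ((1 : ℝ), (0 : E)) p.1 :=
    (hasDerivAt_id p.1).prodMk (hasDerivAt_const p.1 p.2)
  exact (h1.comp_hasDerivAt p.1 h2).deriv

theorem hasDerivAt_dt {f : ℝ × E → F} (h : Sm f) (t : ℝ) (x : E) :
    HasDerivAt (fun s => f (s, x)) (dt f (t, x)) t := by
  have h1 : HasFDerivAt f (fderiv ℝ f (t, x)) (t, x) := (h.differentiable (t, x)).hasFDerivAt
  have h2 : HasDerivAt (fun s : ℝ => (s, x)) ((1 : ℝ), (0 : E)) t :=
    (hasDerivAt_id t).prodMk (hasDerivAt_const t x)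
  rw [dt_eq h]
  exact h1.comp_hasDerivAt t h2

theorem dt_smooth {f : ℝ × E → F} (h : Sm f) : Sm (dt f) := by
  rw [funext (dt_eq h)]
  exact dd_smooth h _

/-- the partial derivative of a slice as a directional derivative -/
theorem pd_sl {f : ℝ × E → F} (h : Sm f) (i : Fin 3) (t : ℝ) (x : E) :
    pd i (sl f t) x = dd ((0 : ℝ), eb i) f (t, x) := by
  have h1 : HasFDerivAt f (fderiv ℝ f (t, x)) (t, x) := (h.differentiable (t, x)).hasFDerivAt
  have h2 : HasFDerivAt (fun y : E => (t, y))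
      ((0 : E →L[ℝ] ℝ).prod (ContinuousLinearMap.id ℝ E)) x :=
    (hasFDerivAt_const t x).prodMk (hasFDerivAt_id x)
  have h3 : HasFDerivAt (sl f t) _ x := h1.comp x h2
  unfold pd dd
  rw [h3.fderiv]
  simp

theorem pds_sl {f : ℝ × E → F} (h : Sm f) (L : List (Fin 3)) :
    Sm (fun p : ℝ × E => pds L (sl f p.1) p.2) := by
  induction L with
  | nil => exact h
  | cons i L ih =>
    have h1 : (fun p : ℝ × E => pds (i :: L) (sl f p.1) p.2) =
        dd ((0 : ℝ), eb i) (fun p : ℝ × E => pds L (sl f p.1) p.2) := by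
      funext p
      exact pd_sl ih i p.1 p.2
    rw [h1]
    exact dd_smooth ih _

theorem dt_pds {f : ℝ × E → F} (h : Sm f) (L : List (Fin 3)) (t : ℝ) (x : E) :
    HasDerivAt (fun s => pds L (sl f s) x) (pds L (sl (dt f) t) x) t := by
  have key : ∀ (L : List (Fin 3)) (t : ℝ) (x : E),
      dt (fun p : ℝ × E => pds L (sl f p.1) p.2) (t, x) = pds L (sl (dt f) t) x := by
    intro L
    induction L with
    | nil => intro t x; rfl
    | cons i L ih =>
      intro t x
      have h0 := pds_sl h L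
      have h1 : (fun p : ℝ × E => pds (i :: L) (sl f p.1) p.2) =
          dd ((0 : ℝ), eb i) (fun p : ℝ × E => pds L (sl f p.1) p.2) := by
        funext p
        exact pd_sl h0 i p.1 p.2
      rw [h1, dt_eq (dd_smooth h0 _), dd_comm h0, ← funext (dt_eq h0), ← pd_sl (dt_smooth h0)]
      show pd i (fun y => dt (fun p : ℝ × E => pds L (sl f p.1) p.2) (t, y)) x = _
      rw [funext (ih t)]
      rfl
  rw [← key]
  exact hasDerivAt_dt (pds_sl h L) t x

/-! ### rules for partial derivatives -/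

theorem pd_add {f g : E → F} {x : E} (hf : DifferentiableAt ℝ f x) (hg : DifferentiableAt ℝ g x)
    (i : Fin 3) : pd i (fun y => f y + g y) x = pd i f x + pd i g x := by
  unfold pd
  rw [fderiv_fun_add hf hg]
  rfl

theorem pd_sub {f g : E → F} {x : E} (hf : DifferentiableAt ℝ f x) (hg : DifferentiableAt ℝ g x)
    (i : Fin 3) : pd i (fun y => f y - g y) x = pd i f x - pd i g x := by
  unfold pd
  rw [fderiv_fun_sub hf hg]
  rfl

theorem pd_smul {a : E → ℝ} {f : E → F} {x : E} (ha : DifferentiableAt ℝ a x)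
    (hf : DifferentiableAt ℝ f x) (i : Fin 3) :
    pd i (fun y => a y • f y) x = a x • pd i f x + pd i a x • f x := by
  unfold pd
  rw [fderiv_fun_smul ha hf]
  simp

theorem pd_mul {f g : E → ℝ} {x : E} (hf : DifferentiableAt ℝ f x) (hg : DifferentiableAt ℝ g x)
    (i : Fin 3) : pd i (fun y => f y * g y) x = f x * pd i g x + pd i f x * g x := by
  have := pd_smul hf hg i
  simpa only [smul_eq_mul] using this

theorem pd_const_smul {f : E → F} {x : E} (c : ℝ) (hf : DifferentiableAt ℝ f x) (i : Fin 3) :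
    pd i (fun y => c • f y) x = c • pd i f x := by
  unfold pd
  rw [fderiv_fun_const_smul hf]
  rfl

theorem pd_sum {ι : Type*} {s : Finset ι} {f : ι → E → F} {x : E}
    (hf : ∀ k ∈ s, DifferentiableAt ℝ (f k) x) (i : Fin 3) :
    pd i (fun y => ∑ k ∈ s, f k y) x = ∑ k ∈ s, pd i (f k) x := by
  unfold pd
  rw [fderiv_fun_sum hf]
  simp

/-- components of partial derivatives as functions -/
theorem pd_comp {w : E → E} (h : Sm w) (i j : Fin 3) :
    (fun y => pd i w y j) = pd i (fun y => w y j) := by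
  funext y
  exact pd_apply (h.differentiable y) i j

theorem pd_comp_apply {w : E → E} (h : Sm w) (i j : Fin 3) (y : E) :
    pd i w y j = pd i (fun y => w y j) y := pd_apply (h.differentiable y) i j

/-- the partial derivative of the component of a partial derivative -/
theorem pd_pd_comp {w : E → E} (h : Sm w) (i k j : Fin 3) (y : E) :
    pd i (fun y => pd k w y j) y = pd i (pd k (fun y => w y j)) y := by
  rw [pd_comp h]

theorem curl_gr {f : E → ℝ} (h : Sm f) (x : E) : curl (gr f) x = 0 := by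
  have key : ∀ i j : Fin 3, pd i (gr f) x j = pd i (pd j f) x := by
    intro i j
    rw [pd_comp_apply h.gr]
    rfl
  ext i
  fin_cases i
  · show pd 1 (gr f) x 2 - pd 2 (gr f) x 1 = 0
    rw [key, key, pd_comm h, sub_self]
  · show pd 2 (gr f) x 0 - pd 0 (gr f) x 2 = 0
    rw [key, key, pd_comm h, sub_self]
  · show pd 0 (gr f) x 1 - pd 1 (gr f) x 0 = 0
    rw [key, key, pd_comm h, sub_self]

theorem dv_curl {w : E → E} (h : Sm w) (x : E) : dv (curl w) x = 0 := by
  have h0 : ∀ j, Sm (fun y => w y j) := fun j => h.comp_apply j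
  have hd : ∀ i j, DifferentiableAt ℝ (pd i (fun y => w y j)) x := fun i j =>
    ((h0 j).pd i).differentiable x
  have e0 : pd 0 (curl w) x 0 = pd 0 (pd 1 (fun y => w y 2)) x - pd 0 (pd 2 (fun y => w y 1)) x := by
    rw [pd_comp_apply h.curl]
    simp only [curl_apply0]
    simp only [pd_comp_apply h]
    exact pd_sub (hd 1 2) (hd 2 1) 0
  have e1 : pd 1 (curl w) x 1 = pd 1 (pd 2 (fun y => w y 0)) x - pd 1 (pd 0 (fun y => w y 2)) x := by
    rw [pd_comp_apply h.curl]
    simp only [curl_apply1]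
    simp only [pd_comp_apply h]
    exact pd_sub (hd 2 0) (hd 0 2) 1
  have e2 : pd 2 (curl w) x 2 = pd 2 (pd 0 (fun y => w y 1)) x - pd 2 (pd 1 (fun y => w y 0)) x := by
    rw [pd_comp_apply h.curl]
    simp only [curl_apply2]
    simp only [pd_comp_apply h]
    exact pd_sub (hd 0 1) (hd 1 0) 2
  unfold dv
  rw [Fin.sum_univ_three, e0, e1, e2, pd_comm (h0 2) 1 0, pd_comm (h0 1) 2 0, pd_comm (h0 0) 2 1]
  ring

/-- partial derivatives of the components of the Lie derivative -/
theorem pd_lie {T w : E → E} (hT : Sm T) (hw : Sm w) (k i : Fin 3) (x : E) :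
    pd k (lie T w) x i = ∑ j, ((T x j * pd k (pd j (fun y => w y i)) x +
      pd k (fun y => T y j) x * pd j (fun y => w y i) x) +
      (w x j * pd k (pd i (fun y => T y j)) x +
      pd k (fun y => w y j) x * pd i (fun y => T y j) x)) := by
  have hT0 : ∀ j, Sm (fun y => T y j) := fun j => hT.comp_apply j
  have hw0 : ∀ j, Sm (fun y => w y j) := fun j => hw.comp_apply j
  rw [pd_comp_apply (hT.lie hw)]
  simp only [lie_apply]
  simp only [pd_comp_apply hT, pd_comp_apply hw]
  rw [pd_sum (fun j _ => ((((hT0 j).mul ((hw0 i).pd j)).add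
    ((hw0 j).mul ((hT0 j).pd i))).differentiable (by simp)) x)]
  refine Finset.sum_congr rfl fun j _ => ?_
  rw [pd_add ((((hT0 j).mul ((hw0 i).pd j)).differentiable (by simp)) x)
    ((((hw0 j).mul ((hT0 j).pd i)).differentiable (by simp)) x),
    pd_mul ((hT0 j).differentiable x) (((hw0 i).pd j).differentiable x),
    pd_mul ((hw0 j).differentiable x) (((hT0 j).pd i).differentiable x)]

/-- partial derivatives of the components of the curl -/
theorem pd_curl {w : E → E} (h : Sm w) (k : Fin 3) (x : E) :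
    pd k (curl w) x 0 = pd k (pd 1 (fun y => w y 2)) x - pd k (pd 2 (fun y => w y 1)) x ∧
    pd k (curl w) x 1 = pd k (pd 2 (fun y => w y 0)) x - pd k (pd 0 (fun y => w y 2)) x ∧
    pd k (curl w) x 2 = pd k (pd 0 (fun y => w y 1)) x - pd k (pd 1 (fun y => w y 0)) x := by
  have h0 : ∀ j, Sm (fun y => w y j) := fun j => h.comp_apply j
  have hd : ∀ i j, DifferentiableAt ℝ (pd i (fun y => w y j)) x := fun i j =>
    ((h0 j).pd i).differentiable x
  refine ⟨?_, ?_, ?_⟩
  · rw [pd_comp_apply h.curl]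
    simp only [curl_apply0]
    simp only [pd_comp_apply h]
    exact pd_sub (hd 1 2) (hd 2 1) k
  · rw [pd_comp_apply h.curl]
    simp only [curl_apply1]
    simp only [pd_comp_apply h]
    exact pd_sub (hd 2 0) (hd 0 2) k
  · rw [pd_comp_apply h.curl]
    simp only [curl_apply2]
    simp only [pd_comp_apply h]
    exact pd_sub (hd 0 1) (hd 1 0) k

theorem curl_lie {X m : E → E} (hX : Sm X) (hm : Sm m) (x : E) :
    curl (lie X m) x = lie2 X (curl m) x := by
  have hX0 : ∀ j, Sm (fun y => X y j) := fun j => hX.comp_apply j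
  have hm0 : ∀ j, Sm (fun y => m y j) := fun j => hm.comp_apply j
  have c0 := fun k => (pd_curl hm k x).1
  have c1 := fun k => (pd_curl hm k x).2.1
  have c2 := fun k => (pd_curl hm k x).2.2
  ext i
  fin_cases i
  · show curl (lie X m) x 0 = lie2 X (curl m) x 0
    rw [curl_apply0, pd_lie hX hm, pd_lie hX hm, lie2_apply]
    unfold dv
    simp only [Fin.sum_univ_three, c0, curl_apply0, curl_apply1, curl_apply2,
      pd_comp_apply hX, pd_comp_apply hm]
    rw [pd_comm (hm0 2) 1 0, pd_comm (hm0 1) 2 0, pd_comm (hm0 1) 2 1, pd_comm (hm0 2) 2 1,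
      pd_comm (hX0 0) 2 1, pd_comm (hX0 1) 2 1, pd_comm (hX0 2) 2 1]
    ring
  · show curl (lie X m) x 1 = lie2 X (curl m) x 1
    rw [curl_apply1, pd_lie hX hm, pd_lie hX hm, lie2_apply]
    unfold dv
    simp only [Fin.sum_univ_three, c1, curl_apply0, curl_apply1, curl_apply2,
      pd_comp_apply hX, pd_comp_apply hm]
    rw [pd_comm (hm0 0) 2 0, pd_comm (hm0 0) 2 1, pd_comm (hm0 2) 1 0, pd_comm (hm0 2) 2 0,
      pd_comm (hX0 0) 2 0, pd_comm (hX0 1) 2 0, pd_comm (hX0 2) 2 0]
    ring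
  · show curl (lie X m) x 2 = lie2 X (curl m) x 2
    rw [curl_apply2, pd_lie hX hm, pd_lie hX hm, lie2_apply]
    unfold dv
    simp only [Fin.sum_univ_three, c2, curl_apply0, curl_apply1, curl_apply2,
      pd_comp_apply hX, pd_comp_apply hm]
    rw [pd_comm (hm0 0) 1 0, pd_comm (hm0 0) 2 1, pd_comm (hm0 1) 1 0, pd_comm (hm0 1) 2 0,
      pd_comm (hX0 0) 1 0, pd_comm (hX0 1) 1 0, pd_comm (hX0 2) 1 0]
    ring

theorem lie_gr {X : E → E} {q : E → ℝ} (hX : Sm X) (hq : Sm q) (x : E) :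
    lie X (gr q) x = gr (fun y => fderiv ℝ q y (X y)) x := by
  have hX0 : ∀ j, Sm (fun y => X y j) := fun j => hX.comp_apply j
  ext i
  rw [gr_apply, lie_apply]
  have h1 : (fun y => fderiv ℝ q y (X y)) = fun y => ∑ j, X y j * pd j q y := by
    funext y
    rw [fderiv_eq_sum]
    simp only [smul_eq_mul]
  rw [h1, pd_sum (fun j _ => (((hX0 j).mul (hq.pd j)).differentiable (by simp)) x)]
  refine Finset.sum_congr rfl fun j _ => ?_
  rw [pd_mul ((hX0 j).differentiable x) ((hq.pd j).differentiable x), pd_comp_apply hq.gr,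
    pd_comp_apply hX, gr_apply]
  show X x j * pd j (pd i q) x + pd j q x * pd i (fun y => X y j) x = _
  rw [pd_comm hq j i]
  ring

theorem lie_trc : ∃ c, ∀ X m : E → E, lie X m = trc c X m := by
  refine ⟨fun i j p q => if p = i ∧ q = j then 1 else 0, ?_⟩
  intro X m
  funext x
  ext i
  show ∑ j, (X x j * pd j m x i + m x j * pd i X x j) = (∑ j, X x j * pd j m x i) +
    ∑ j, ∑ p, ∑ q, (if p = i ∧ q = j then (1 : ℝ) else 0) * pd p X x q * m x j
  rw [Finset.sum_add_distrib]
  congr 1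
  refine Finset.sum_congr rfl fun j _ => ?_
  rw [Finset.sum_eq_single i, Finset.sum_eq_single j]
  · simp [mul_comm]
  · intro b _ hb
    simp [hb]
  · intro h; exact absurd (Finset.mem_univ _) h
  · intro b _ hb
    simp [hb]
  · intro h; exact absurd (Finset.mem_univ _) h

theorem lie2_trc : ∃ c, ∀ X m : E → E, lie2 X m = trc c X m := by
  refine ⟨fun i j p q => (if j = i ∧ p = q then 1 else 0) - (if p = j ∧ q = i then 1 else 0), ?_⟩
  intro X m
  funext x
  ext i
  show (∑ j, (X x j * pd j m x i - m x j * pd j X x i)) + (∑ p, pd p X x p) * m x i =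
    (∑ j, X x j * pd j m x i) + ∑ j, ∑ p, ∑ q, ((if j = i ∧ p = q then (1 : ℝ) else 0) -
      (if p = j ∧ q = i then 1 else 0)) * pd p X x q * m x j
  fin_cases i <;> simp [Fin.sum_univ_three] <;> ring

end PDC

/-- module PDC -/
theorem specPDC : SpecPDC where
  comm _ _ _ _ hf i j x := PDC.pd_comm hf i j x
  pds_comm _ _ _ _ hf i L x := PDC.pds_comm hf i L x
  pds_smooth _ _ _ _ hf L := PDC.pds_smooth hf L
  sl_smooth _ _ _ _ hf t := PDC.sl_smooth hf t
  dt_smooth _ _ _ _ hf := PDC.dt_smooth hf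
  pdt_smooth _ _ _ _ hf L := PDC.pds_sl hf L
  dt_pds _ _ _ _ hf L t x := PDC.dt_pds hf L t x
  curl_gr _ hf x := PDC.curl_gr hf x
  dv_curl _ hw x := PDC.dv_curl hw x
  curl_lie _ _ hX hm x := PDC.curl_lie hX hm x
  lie_gr _ _ hX hq x := PDC.lie_gr hX hq x
  lie_trc := PDC.lie_trc
  lie2_trc := PDC.lie2_trc

end MPfab
end

section
/-!
MP_fabde4_an, part P: module INCALG (algebra of the classes `InC`).
-/
set_option autoImplicit false
open MeasureTheory Set

namespace MPfab

namespace INC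

variable {F G H : Type*} [NormedAddCommGroup F] [NormedSpace ℝ F] [NormedAddCommGroup G]
  [NormedSpace ℝ G] [NormedAddCommGroup H] [NormedSpace ℝ H]

/-- slices smooth, all `x`-derivatives jointly continuous -/
def J0 (m : ℝ × E → F) : Prop :=
  (∀ t, Sm (sl m t)) ∧ ∀ L : List (Fin 3), Continuous fun p : ℝ × E => pds L (sl m p.1) p.2

/-- the classes `InC` without supports -/
def J : ℕ → (ℝ × E → F) → Prop
  | 0, m => J0 m
  | j + 1, m => J0 m ∧ ∃ m' : ℝ × E → F, J j m' ∧
      ∀ t x, HasDerivAt (fun s => m (s, x)) (m' (t, x)) t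

theorem inC_zero_iff {R : ℝ} {m : ℝ × E → F} :
    InC R 0 m ↔ J0 m ∧ ∀ t x, R ≤ ‖x‖ → m (t, x) = 0 := by
  constructor
  · rintro ⟨h1, h2⟩
    exact ⟨⟨fun t => (h1 t).smooth, h2⟩, fun t x hx => (h1 t).supp x hx⟩
  · rintro ⟨⟨h1, h2⟩, h3⟩
    exact ⟨fun t => ⟨h1 t, fun x hx => h3 t x hx⟩, h2⟩

theorem J.zero {j : ℕ} {m : ℝ × E → F} (h : J j m) : J0 m := by
  cases j with
  | zero => exact h
  | succ j => exact h.1

theorem J.mono {j : ℕ} : ∀ {m : ℝ × E → F}, J (j + 1) m → J j m := by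
  induction j with
  | zero => exact fun h => h.1
  | succ j ih =>
    rintro m ⟨h0, m', h1, h2⟩
    exact ⟨h0, m', ih h1, h2⟩

theorem inC_iff {R : ℝ} {j : ℕ} : ∀ {m : ℝ × E → F},
    InC R j m ↔ J j m ∧ ∀ t x, R ≤ ‖x‖ → m (t, x) = 0 := by
  induction j with
  | zero => exact inC_zero_iff
  | succ j ih =>
    intro m
    constructor
    · rintro ⟨h0, m', h1, h2⟩
      have h0' := (inC_zero_iff (m := m)).1 h0
      exact ⟨⟨h0'.1, m', (ih.1 h1).1, h2⟩, h0'.2⟩
    · rintro ⟨⟨h0, m', h1, h2⟩, h3⟩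
      refine ⟨inC_zero_iff.2 ⟨h0, h3⟩, m', ih.2 ⟨h1, ?_⟩, h2⟩
      intro t x hx
      have h4 : (fun s => m (s, x)) = fun _ => (0 : F) := funext fun s => h3 s x hx
      have h5 := h2 t x
      rw [h4] at h5
      exact h5.unique (hasDerivAt_const t 0)

/-! ### derivatives along lists -/

theorem pds_append_single (L : List (Fin 3)) (i : Fin 3) (f : E → F) :
    pds (L ++ [i]) f = pds L (pd i f) := by
  induction L with
  | nil => rfl
  | cons j L ih =>
    show pd j (pds (L ++ [i]) f) = pd j (pds L (pd i f))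
    rw [ih]

theorem pds_add {f g : E → F} (hf : Sm f) (hg : Sm g) (L : List (Fin 3)) :
    pds L (fun x => f x + g x) = fun x => pds L f x + pds L g x := by
  induction L with
  | nil => rfl
  | cons i L ih =>
    funext x
    show pd i (pds L (fun x => f x + g x)) x = pd i (pds L f) x + pd i (pds L g) x
    rw [ih]
    exact PDC.pd_add ((PDC.pds_smooth hf L).differentiable x)
      ((PDC.pds_smooth hg L).differentiable x) i

theorem pd_clm (Φ : F →L[ℝ] G) {f : E → F} (hf : Sm f) (i : Fin 3) (x : E) :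
    pd i (fun y => Φ (f y)) x = Φ (pd i f x) := by
  unfold pd
  have h := (Φ.hasFDerivAt (x := f x)).comp x (hf.differentiable x).hasFDerivAt
  have h' : HasFDerivAt (fun y => Φ (f y)) (Φ ∘L fderiv ℝ f x) x := h
  rw [h'.fderiv]
  rfl

theorem pds_clm (Φ : F →L[ℝ] G) {f : E → F} (hf : Sm f) (L : List (Fin 3)) :
    pds L (fun y => Φ (f y)) = fun x => Φ (pds L f x) := by
  induction L with
  | nil => rfl
  | cons i L ih =>
    funext x
    show pd i (pds L (fun y => Φ (f y))) x = Φ (pd i (pds L f) x)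
    rw [ih]
    exact pd_clm Φ (PDC.pds_smooth hf L) i x

theorem pd_bil (B : F →L[ℝ] G →L[ℝ] H) {f : E → F} {g : E → G} (hf : Sm f) (hg : Sm g)
    (i : Fin 3) (x : E) :
    pd i (fun y => B (f y) (g y)) x = B (pd i f x) (g x) + B (f x) (pd i g x) := by
  unfold pd
  have h1 : HasFDerivAt (fun y => B (f y)) (B ∘L fderiv ℝ f x) x :=
    (B.hasFDerivAt (x := f x)).comp x (hf.differentiable x).hasFDerivAt
  have h2 := h1.clm_apply (hg.differentiable x).hasFDerivAt
  rw [h2.fderiv]
  simp [add_comm]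

theorem sm_bil (B : F →L[ℝ] G →L[ℝ] H) {X : Type*} [NormedAddCommGroup X] [NormedSpace ℝ X]
    {f : X → F} {g : X → G} (hf : Sm f) (hg : Sm g) :
    Sm (fun y => B (f y) (g y)) :=
  (B.contDiff.comp hf).clm_apply hg

theorem sm_clm (Φ : F →L[ℝ] G) {X : Type*} [NormedAddCommGroup X] [NormedSpace ℝ X]
    {f : X → F} (hf : Sm f) : Sm (fun y => Φ (f y)) := Φ.contDiff.comp hf

/-! ### the class `J0` -/

theorem J0.cont {m : ℝ × E → F} (h : J0 m) : Continuous m := h.2 []

theorem J0.add {a b : ℝ × E → F} (ha : J0 a) (hb : J0 b) : J0 (fun p => a p + b p) := by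
  refine ⟨fun t => (ha.1 t).add (hb.1 t), fun L => ?_⟩
  have : (fun p : ℝ × E => pds L (sl (fun p => a p + b p) p.1) p.2) =
      fun p => pds L (sl a p.1) p.2 + pds L (sl b p.1) p.2 := by
    funext p
    exact congrFun (pds_add (ha.1 p.1) (hb.1 p.1) L) p.2
  rw [this]
  exact (ha.2 L).add (hb.2 L)

theorem J0.clm (Φ : F →L[ℝ] G) {a : ℝ × E → F} (ha : J0 a) : J0 (fun p => Φ (a p)) := by
  refine ⟨fun t => sm_clm Φ (ha.1 t), fun L => ?_⟩
  have : (fun p : ℝ × E => pds L (sl (fun p => Φ (a p)) p.1) p.2) =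
      fun p => Φ (pds L (sl a p.1) p.2) := by
    funext p
    exact congrFun (pds_clm Φ (ha.1 p.1) L) p.2
  rw [this]
  exact Φ.continuous.comp (ha.2 L)

theorem J0.pd {a : ℝ × E → F} (ha : J0 a) (i : Fin 3) :
    J0 (fun p : ℝ × E => MPfab.pd i (sl a p.1) p.2) := by
  refine ⟨fun t => (ha.1 t).pd i, fun L => ?_⟩
  have h := ha.2 (L ++ [i])
  have : (fun p : ℝ × E => pds L (sl (fun p : ℝ × E => MPfab.pd i (sl a p.1) p.2) p.1) p.2) =
      fun p => pds (L ++ [i]) (sl a p.1) p.2 := by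
    funext p
    rw [pds_append_single]
    rfl
  rw [this]
  exact h

theorem J0.bil (B : F →L[ℝ] G →L[ℝ] H) {a : ℝ × E → F} {b : ℝ × E → G} (ha : J0 a)
    (hb : J0 b) : J0 (fun p => B (a p) (b p)) := by
  refine ⟨fun t => sm_bil B (ha.1 t) (hb.1 t), fun L => ?_⟩
  induction L using List.reverseRecOn generalizing a b with
  | nil =>
    show Continuous fun p : ℝ × E => B (a p) (b p)
    exact (B.continuous.comp ha.cont).clm_apply hb.cont
  | append_singleton L i ih =>
    have h1 := ih (ha.pd i) hb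
    have h2 := ih ha (hb.pd i)
    have : (fun p : ℝ × E => pds (L ++ [i]) (sl (fun p => B (a p) (b p)) p.1) p.2) =
        fun p => pds L (sl (fun p : ℝ × E => B (MPfab.pd i (sl a p.1) p.2) (b p)) p.1) p.2 +
          pds L (sl (fun p : ℝ × E => B (a p) (MPfab.pd i (sl b p.1) p.2)) p.1) p.2 := by
      funext p
      rw [pds_append_single]
      have e : MPfab.pd i (sl (fun p => B (a p) (b p)) p.1) = fun x =>
          (sl (fun p : ℝ × E => B (MPfab.pd i (sl a p.1) p.2) (b p)) p.1) x +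
          (sl (fun p : ℝ × E => B (a p) (MPfab.pd i (sl b p.1) p.2)) p.1) x := by
        funext x
        exact pd_bil B (ha.1 p.1) (hb.1 p.1) i x
      rw [e]
      exact congrFun (pds_add (sm_bil B ((ha.1 p.1).pd i) (hb.1 p.1))
        (sm_bil B (ha.1 p.1) ((hb.1 p.1).pd i)) L) p.2
    rw [this]
    exact h1.add h2

/-! ### exchange of the derivatives in time and space -/

theorem hasDerivAt_pd {m m' : ℝ × E → F} (hm : ∀ t, Sm (sl m t)) (hm' : ∀ t, Sm (sl m' t))
    (hd : ∀ t x, HasDerivAt (fun s => m (s, x)) (m' (t, x)) t) (i : Fin 3)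
    (hc : Continuous fun p : ℝ × E => pd i (sl m' p.1) p.2) (t : ℝ) (x : E) :
    HasDerivAt (fun s => pd i (sl m s) x) (pd i (sl m' t) x) t := by
  set c : F := pd i (sl m' t) x with hcdef
  rw [hasDerivAt_iff_isLittleO, Asymptotics.isLittleO_iff]
  intro ε hε
  -- a neighbourhood in which the derivative is close to `c`
  have h1 : ∀ᶠ p : ℝ × E in nhds (t, x), ‖pd i (sl m' p.1) p.2 - c‖ < ε := by
    have h2 := (hc.tendsto (t, x)).sub_const c
    have h3 := h2.norm
    simp only [← hcdef, sub_self, norm_zero] at h3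
    exact h3.eventually (gt_mem_nhds hε)
  rw [Metric.eventually_nhds_iff] at h1
  obtain ⟨δ, hδ, h2⟩ := h1
  have hclose : ∀ (s : ℝ) (k : ℝ), |s - t| < δ → |k| < δ →
      ‖pd i (sl m' s) (x + k • eb i) - c‖ ≤ ε := by
    intro s k hs hk
    refine (h2 (y := (s, x + k • eb i)) ?_).le
    rw [Prod.dist_eq]
    refine max_lt (by rwa [Real.dist_eq]) ?_
    have hn : ‖eb i‖ = 1 := by simp [eb]
    show dist (x + k • eb i) x < δ
    rw [dist_eq_norm, add_sub_cancel_left, norm_smul, hn, mul_one, Real.norm_eq_abs]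
    exact hk
  -- derivatives along the line
  have hline : ∀ (f : E → F), Sm f → ∀ k : ℝ,
      HasDerivAt (fun k : ℝ => f (x + k • eb i)) (pd i f (x + k • eb i)) k := by
    intro f hf k
    have h3 : HasDerivAt (fun k : ℝ => x + k • eb i) (eb i) k := by
      have h4 := ((hasDerivAt_id k).smul_const (eb i)).const_add x
      rwa [one_smul] at h4
    exact (hf.differentiable (x + k • eb i)).hasFDerivAt.comp_hasDerivAt k h3
  -- first mean value inequality
  have hstep1 : ∀ (s k : ℝ), |s - t| < δ → |k| < δ →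
      ‖m' (s, x + k • eb i) - m' (s, x) - k • c‖ ≤ ε * |k| := by
    intro s k hs hk
    have h3 := Convex.norm_image_sub_le_of_norm_hasDerivWithin_le
      (f := fun k : ℝ => m' (s, x + k • eb i) - k • c)
      (f' := fun k : ℝ => pd i (sl m' s) (x + k • eb i) - c) (s := Metric.ball 0 δ) (C := ε)
      (x := 0) (y := k)
      (fun k _ => by
        have h4 := (hline (sl m' s) (hm' s) k).sub ((hasDerivAt_id k).smul_const c)
        rw [one_smul] at h4
        exact h4.hasDerivWithinAt)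
      (fun k hk => hclose s k hs (by simpa using hk))
      (convex_ball 0 δ) (Metric.mem_ball_self hδ) (by simpa using hk)
    simp only [zero_smul, add_zero, sub_zero, Real.norm_eq_abs] at h3
    have e : m' (s, x + k • eb i) - m' (s, x) - k • c =
        m' (s, x + k • eb i) - k • c - m' (s, x) := by abel
    rw [e]
    exact h3
  -- second mean value inequality
  have hstep2 : ∀ (s k : ℝ), |s - t| < δ → |k| < δ →
      ‖(m (s, x + k • eb i) - m (t, x + k • eb i)) - (m (s, x) - m (t, x)) -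
        (s - t) • k • c‖ ≤ (ε * |k|) * |s - t| := by
    intro s k hs hk
    have h3 := Convex.norm_image_sub_le_of_norm_hasDerivWithin_le
      (f := fun s : ℝ => m (s, x + k • eb i) - m (s, x) - s • k • c)
      (f' := fun s : ℝ => m' (s, x + k • eb i) - m' (s, x) - k • c) (s := Metric.ball t δ)
      (C := ε * |k|) (x := t) (y := s)
      (fun s _ => by
        have h4 := ((hd s (x + k • eb i)).sub (hd s x)).sub
          ((hasDerivAt_id s).smul_const (k • c))
        rw [one_smul] at h4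
        exact h4.hasDerivWithinAt)
      (fun s hs' => hstep1 s k (by rwa [Metric.mem_ball, Real.dist_eq] at hs') hk)
      (convex_ball t δ) (Metric.mem_ball_self hδ) (by rwa [Metric.mem_ball, Real.dist_eq])
    rw [Real.norm_eq_abs] at h3
    have e : (m (s, x + k • eb i) - m (t, x + k • eb i)) - (m (s, x) - m (t, x)) -
        (s - t) • k • c = m (s, x + k • eb i) - m (s, x) - s • k • c -
          (m (t, x + k • eb i) - m (t, x) - t • k • c) := by
      rw [sub_smul]; abel
    rw [e]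
    exact h3
  rw [Metric.eventually_nhds_iff]
  refine ⟨δ, hδ, fun s hs => ?_⟩
  rw [Real.dist_eq] at hs
  -- differentiate in `k` at `0`
  have hder : HasDerivAt (fun k : ℝ => m (s, x + k • eb i) - m (t, x + k • eb i) -
      (s - t) • k • c) (pd i (sl m s) x - pd i (sl m t) x - (s - t) • c) 0 := by
    have h3 := hline (sl m s) (hm s) 0
    have h4 := hline (sl m t) (hm t) 0
    have h5 : HasDerivAt (fun k : ℝ => (s - t) • k • c) ((s - t) • c) 0 := by
      have h6 := ((hasDerivAt_id (0 : ℝ)).smul_const c).const_smul (s - t)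
      rwa [one_smul] at h6
    have h7 := (h3.sub h4).sub h5
    simp only [zero_smul, add_zero] at h7
    exact h7
  have hfin := hder.le_of_lip' (C := ε * |s - t|) (by positivity) (by
    rw [Metric.eventually_nhds_iff]
    refine ⟨δ, hδ, fun k hk => ?_⟩
    rw [Real.dist_eq, sub_zero] at hk
    have h3 := hstep2 s k hs hk
    have e : m (s, x + k • eb i) - m (t, x + k • eb i) - (s - t) • k • c -
        (m (s, x + (0 : ℝ) • eb i) - m (t, x + (0 : ℝ) • eb i) - (s - t) • (0 : ℝ) • c) =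
        (m (s, x + k • eb i) - m (t, x + k • eb i)) - (m (s, x) - m (t, x)) -
        (s - t) • k • c := by
      simp only [zero_smul, add_zero, smul_zero, sub_zero]
      abel
    rw [e, sub_zero, Real.norm_eq_abs]
    calc _ ≤ (ε * |k|) * |s - t| := h3
      _ = ε * |s - t| * |k| := by ring)
  rw [Real.norm_eq_abs]
  exact hfin

/-! ### the classes `J` -/

theorem J.add {j : ℕ} : ∀ {a b : ℝ × E → F}, J j a → J j b → J j (fun p => a p + b p) := by
  induction j with
  | zero => exact fun ha hb => J0.add ha hb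
  | succ j ih =>
    rintro a b ⟨ha0, a', ha', hda⟩ ⟨hb0, b', hb', hdb⟩
    exact ⟨ha0.add hb0, fun p => a' p + b' p, ih ha' hb', fun t x => (hda t x).add (hdb t x)⟩

theorem J.clm (Φ : F →L[ℝ] G) {j : ℕ} : ∀ {a : ℝ × E → F}, J j a → J j (fun p => Φ (a p)) := by
  induction j with
  | zero => exact fun ha => J0.clm Φ ha
  | succ j ih =>
    rintro a ⟨ha0, a', ha', hda⟩
    exact ⟨ha0.clm Φ, fun p => Φ (a' p), ih ha',
      fun t x => (Φ.hasFDerivAt (x := a (t, x))).comp_hasDerivAt t (hda t x)⟩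

theorem J.pd {j : ℕ} : ∀ {a : ℝ × E → F}, J j a → ∀ i,
    J j (fun p : ℝ × E => MPfab.pd i (sl a p.1) p.2) := by
  induction j with
  | zero => exact fun ha i => J0.pd ha i
  | succ j ih =>
    rintro a ⟨ha0, a', ha', hda⟩ i
    exact ⟨ha0.pd i, fun p : ℝ × E => MPfab.pd i (sl a' p.1) p.2, ih ha' i,
      fun t x => hasDerivAt_pd ha0.1 ha'.zero.1 hda i (ha'.zero.2 [i]) t x⟩

theorem J.bil (B : F →L[ℝ] G →L[ℝ] H) {j : ℕ} : ∀ {a : ℝ × E → F} {b : ℝ × E → G},
    J j a → J j b → J j (fun p => B (a p) (b p)) := by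
  induction j with
  | zero => exact fun ha hb => J0.bil B ha hb
  | succ j ih =>
    intro a b ha hb
    obtain ⟨ha0, a', ha', hda⟩ := ha
    obtain ⟨hb0, b', hb', hdb⟩ := hb
    have haj : J j a := J.mono ⟨ha0, a', ha', hda⟩
    have hbj : J j b := J.mono ⟨hb0, b', hb', hdb⟩
    refine ⟨ha0.bil B hb0, fun p => B (a' p) (b p) + B (a p) (b' p), (ih ha' hbj).add
      (ih haj hb'), fun t x => ?_⟩
    have h1 : HasDerivAt (fun s => B (a (s, x))) (B (a' (t, x))) t :=
      (B.hasFDerivAt (x := a (t, x))).comp_hasDerivAt t (hda t x)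
    exact h1.clm_apply (hdb t x)

theorem J0.of_smooth {m : ℝ × E → F} (h : Sm m) : J0 m :=
  ⟨fun t => PDC.sl_smooth h t, fun L => (PDC.pds_sl h L).continuous⟩

theorem J.of_smooth {j : ℕ} : ∀ {m : ℝ × E → F}, Sm m → J j m := by
  induction j with
  | zero => exact fun h => J0.of_smooth h
  | succ j ih =>
    exact fun {m} h => ⟨J0.of_smooth h, dt m, ih (PDC.dt_smooth h), PDC.hasDerivAt_dt h⟩

theorem J.sum {j : ℕ} {ι : Type*} (s : Finset ι) {a : ι → ℝ × E → F} (h : ∀ i ∈ s, J j (a i)) :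
    J j (fun p => ∑ i ∈ s, a i p) := by
  classical
  induction s using Finset.induction_on with
  | empty =>
    simp only [Finset.sum_empty]
    exact J.of_smooth contDiff_const
  | insert i s hi ih =>
    simp only [Finset.sum_insert hi]
    exact (h i (Finset.mem_insert_self i s)).add
      (ih fun k hk => h k (Finset.mem_insert_of_mem hk))

theorem J.comp_iff {j : ℕ} {m : ℝ × E → E} : J j m ↔ ∀ i, J j (fun p => m p i) := by
  constructor
  · intro h i
    exact h.clm (EuclideanSpace.proj i : E →L[ℝ] ℝ)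
  · intro h
    have h1 : J j (fun p => ∑ i, (ContinuousLinearMap.toSpanSingleton ℝ (eb i)) (m p i)) :=
      J.sum _ fun i _ => (h i).clm _
    have e : (fun p => ∑ i, (ContinuousLinearMap.toSpanSingleton ℝ (eb i)) (m p i)) = m := by
      funext p
      ext k
      fin_cases k <;> simp [Fin.sum_univ_three, eb, ContinuousLinearMap.toSpanSingleton_apply]
    rwa [e] at h1

/-! ### supports -/

/-- a partial derivative of a function supported in a ball is supported in the ball -/
theorem pd_supp {R : ℝ} (hR : 0 < R) {f : E → F} (hf : Sm f) (h0 : ∀ x, R ≤ ‖x‖ → f x = 0)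
    (i : Fin 3) (x : E) (hx : R ≤ ‖x‖) : MPfab.pd i f x = 0 := by
  -- outside of the closed ball
  have h1 : ∀ y : E, R < ‖y‖ → MPfab.pd i f y = 0 := by
    intro y hy
    have h2 : f =ᶠ[nhds y] fun _ => (0 : F) := by
      have h3 : {z : E | R < ‖z‖} ∈ nhds y := (isOpen_lt continuous_const continuous_norm).mem_nhds hy
      filter_upwards [h3] with z hz
      exact h0 z (le_of_lt hz)
    unfold MPfab.pd
    rw [h2.fderiv_eq]
    simp
  -- limit
  have h2 : Continuous (MPfab.pd i f) := (hf.pd i).continuous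
  have h3 : Filter.Tendsto (fun r : ℝ => MPfab.pd i f (r • x)) (nhdsWithin 1 (Ioi 1))
      (nhds (MPfab.pd i f x)) := by
    have h4 : Continuous fun r : ℝ => MPfab.pd i f (r • x) := by fun_prop
    have h5 := h4.tendsto 1
    rw [one_smul] at h5
    exact h5.mono_left nhdsWithin_le_nhds
  have h4 : Filter.Tendsto (fun r : ℝ => MPfab.pd i f (r • x)) (nhdsWithin 1 (Ioi 1))
      (nhds 0) := by
    refine Filter.Tendsto.congr' ?_ tendsto_const_nhds
    filter_upwards [self_mem_nhdsWithin] with r hr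
    have hr' : 1 < r := hr
    rw [h1]
    rw [norm_smul, Real.norm_eq_abs, abs_of_pos (by linarith)]
    have : 1 * ‖x‖ < r * ‖x‖ := mul_lt_mul_of_pos_right hr' (by linarith)
    linarith
  exact tendsto_nhds_unique h3 h4

theorem In.pd {R : ℝ} (hR : 0 < R) {f : E → F} (hf : MPfab.In R f) (i : Fin 3) :
    MPfab.In R (MPfab.pd i f) := ⟨hf.smooth.pd i, pd_supp hR hf.smooth hf.supp i⟩

theorem In.pds {R : ℝ} (hR : 0 < R) {f : E → F} (hf : MPfab.In R f) (L : List (Fin 3)) :
    MPfab.In R (MPfab.pds L f) := by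
  induction L with
  | nil => exact hf
  | cons i L ih => exact In.pd hR ih i

end INC

open INC in
/-- module INCALG -/
theorem specIncAlg : SpecIncAlg where
  zero_of F _ _ R j m h := by
    rw [inC_iff] at h ⊢
    exact ⟨h.1.zero, h.2⟩
  add F _ _ R j m m' h h' := by
    rw [inC_iff] at h h' ⊢
    exact ⟨h.1.add h'.1, fun t x hx => by rw [h.2 t x hx, h'.2 t x hx, add_zero]⟩
  smul F _ _ R j c m hc h := by
    rw [inC_iff] at h ⊢
    refine ⟨?_, fun t x hx => by rw [h.2 t x hx, smul_zero]⟩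
    exact (J.of_smooth hc).bil (ContinuousLinearMap.lsmul ℝ ℝ) h.1
  pd F _ _ R j m hR h i := by
    rw [inC_iff] at h ⊢
    exact ⟨h.1.pd i, fun t x hx => pd_supp hR (h.1.zero.1 t) (fun y hy => h.2 t y hy) i x hx⟩
  mul R j a b ha hb := by
    rw [inC_iff] at ha hb ⊢
    refine ⟨?_, fun t x hx => by rw [ha.2 t x hx, zero_mul]⟩
    exact ha.1.bil (ContinuousLinearMap.mul ℝ ℝ) hb.1
  comp R j m := by
    simp only [inC_iff]
    rw [J.comp_iff]
    constructor
    · rintro ⟨h1, h2⟩ i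
      exact ⟨h1 i, fun t x hx => by rw [h2 t x hx]; rfl⟩
    · intro h
      refine ⟨fun i => (h i).1, fun t x hx => ?_⟩
      ext i
      exact (h i).2 t x hx
  crc R j m b hR hm hb := by
    rw [inC_iff] at hm hb ⊢
    have hc : ∀ i k, J j (fun p : ℝ × E => MPfab.pd i (sl m p.1) p.2 k) := fun i k =>
      J.comp_iff.1 (hm.1.pd i) k
    have hbk := J.comp_iff.1 hb.1
    have hneg : ∀ {a : ℝ × E → ℝ}, J j a → J j (fun p => - a p) := fun {a} h => by
      have := h.clm (-(ContinuousLinearMap.id ℝ ℝ))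
      simpa using this
    have hsub : ∀ {a c : ℝ × E → ℝ}, J j a → J j c → J j (fun p => a p - c p) :=
      fun {a c} h h' => by
        have := h.add (hneg h')
        simpa [sub_eq_add_neg] using this
    have hmul : ∀ {a c : ℝ × E → ℝ}, J j a → J j c → J j (fun p => a p * c p) :=
      fun {a c} h h' => h.bil (ContinuousLinearMap.mul ℝ ℝ) h'
    have hcurl : ∀ k, J j (fun p : ℝ × E => curl (sl m p.1) p.2 k) := by
      intro k
      fin_cases k
      · exact hsub (hc 1 2) (hc 2 1)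
      · exact hsub (hc 2 0) (hc 0 2)
      · exact hsub (hc 0 1) (hc 1 0)
    refine ⟨J.comp_iff.2 fun k => ?_, fun t x hx => ?_⟩
    · fin_cases k
      · exact hsub (hmul (hcurl 1) (hbk 2)) (hmul (hcurl 2) (hbk 1))
      · exact hsub (hmul (hcurl 2) (hbk 0)) (hmul (hcurl 0) (hbk 2))
      · exact hsub (hmul (hcurl 0) (hbk 1)) (hmul (hcurl 1) (hbk 0))
    · rw [hb.2 t x hx]
      ext k
      fin_cases k <;> simp

end MPfab
end

section
/-!
MP_fabde4_an, part P: module DHS (time derivative of `hs univ k`).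
-/
set_option autoImplicit false
open MeasureTheory Set

namespace MPfab

namespace DHS

/-- the ball domain is open, measurable, bounded -/
theorem ball_meas {R : ℝ} : MeasurableSet (D (ballρ R)) := by
  have : IsOpen (D (ballρ R)) := by
    unfold D ballρ
    exact isOpen_lt (by fun_prop) continuous_const
  exact this.measurableSet

theorem ball_bdd {R : ℝ} (hR : 0 < R) : Bornology.IsBounded (D (ballρ R)) := by
  refine Metric.isBounded_closedBall (x := (0 : E)) (r := R) |>.subset ?_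
  intro x hx
  have hx' : ‖x‖ ^ 2 - R ^ 2 < 0 := hx
  rw [Metric.mem_closedBall, dist_zero_right]
  have h3 : ‖x‖ ^ 2 ≤ R ^ 2 := by linarith
  exact (pow_le_pow_iff_left₀ (norm_nonneg x) hR.le (by norm_num)).1 h3

theorem integrableOn_cont {G : Type*} [NormedAddCommGroup G] [NormedSpace ℝ G] {S : Set E}
    (hSb : Bornology.IsBounded S) {f : E → G} (hf : Continuous f) : IntegrableOn f S := by
  obtain ⟨r, hr⟩ := hSb.subset_closedBall (0 : E)
  exact (hf.continuousOn.integrableOn_compact (isCompact_closedBall 0 r)).mono_set hr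

/-- the time derivative of a field supported in a ball -/
theorem inT_dt {F : Type*} [NormedAddCommGroup F] [NormedSpace ℝ F] {R : ℝ} {m : ℝ × E → F}
    (h : InT R m) : InT R (dt m) := by
  refine ⟨PDC.dt_smooth h.smooth, fun t x hx => ?_⟩
  unfold dt
  have : (fun s => m (s, x)) = fun _ => (0 : F) := funext fun s => h.supp s x hx
  simp only [this, deriv_const]

theorem InT.sl {F : Type*} [NormedAddCommGroup F] [NormedSpace ℝ F] {R : ℝ} {m : ℝ × E → F}
    (h : InT R m) (t : ℝ) : In R (sl m t) := ⟨PDC.sl_smooth h.smooth t, fun x hx => h.supp t x hx⟩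

theorem list (hT : SpecTder) {S : Set E} (hS : MeasurableSet S) (hSb : Bornology.IsBounded S)
    {m : ℝ × E → E} (hm : Sm m) (t : ℝ) (T : List (List (Fin 3))) :
    ∃ B : ℝ, HasDerivAt (fun s => (T.map fun L => ∫ x in S, ‖pds L (sl m s) x‖ ^ 2).sum) (2 * B) t ∧
      ∀ lam : ℝ, 0 ≤ (T.map fun L => ∫ x in S, ‖pds L (sl (dt m) t) x‖ ^ 2).sum * (lam * lam) +
        (2 * B) * lam + (T.map fun L => ∫ x in S, ‖pds L (sl m t) x‖ ^ 2).sum := by
  induction T with
  | nil =>
    refine ⟨0, ?_, fun lam => by simp⟩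
    simp only [List.map_nil, List.sum_nil, mul_zero]
    exact hasDerivAt_const t 0
  | cons L T ih =>
    obtain ⟨B, hB1, hB2⟩ := ih
    have hsm : Sm fun p : ℝ × E => ‖pds L (sl m p.1) p.2‖ ^ 2 := (PDC.pds_sl hm L).norm_sq ℝ
    have h1 := hT S hS hSb (fun p : ℝ × E => ‖pds L (sl m p.1) p.2‖ ^ 2) hsm t
    have h2 : ∀ x, dt (fun p : ℝ × E => ‖pds L (sl m p.1) p.2‖ ^ 2) (t, x) =
        2 * inner ℝ (pds L (sl m t) x) (pds L (sl (dt m) t) x) := by
      intro x
      have h3 := (PDC.dt_pds hm L t x).norm_sq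
      exact h3.deriv
    simp only [h2] at h1
    rw [integral_const_mul] at h1
    refine ⟨(∫ x in S, inner ℝ (pds L (sl m t) x) (pds L (sl (dt m) t) x)) + B, ?_, ?_⟩
    · simp only [List.map_cons, List.sum_cons]
      have h3 := h1.add hB1
      rw [← mul_add] at h3
      exact h3
    · intro lam
      have ha : Continuous (pds L (sl m t)) := (PDC.pds_smooth (PDC.sl_smooth hm t) L).continuous
      have hb : Continuous (pds L (sl (dt m) t)) :=
        (PDC.pds_smooth (PDC.sl_smooth (PDC.dt_smooth hm) t) L).continuous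
      have hin : Integrable (fun x => (inner ℝ (pds L (sl m t) x) (pds L (sl (dt m) t) x) : ℝ))
          (volume.restrict S) :=
        integrableOn_cont (G := ℝ) hSb (Continuous.inner (𝕜 := ℝ) ha hb)
      have hna : Integrable (fun x => ‖pds L (sl m t) x‖ ^ 2) (volume.restrict S) :=
        integrableOn_cont hSb (ha.norm.pow 2)
      have hnb : Integrable (fun x => ‖pds L (sl (dt m) t) x‖ ^ 2) (volume.restrict S) :=
        integrableOn_cont hSb (hb.norm.pow 2)
      have h3 : 0 ≤ ∫ x in S, ‖pds L (sl m t) x + lam • pds L (sl (dt m) t) x‖ ^ 2 :=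
        integral_nonneg fun x => by positivity
      have h4 : (∫ x in S, ‖pds L (sl m t) x + lam • pds L (sl (dt m) t) x‖ ^ 2) =
          (∫ x in S, ‖pds L (sl m t) x‖ ^ 2) +
          (2 * lam) * (∫ x in S, inner ℝ (pds L (sl m t) x) (pds L (sl (dt m) t) x)) +
          (lam * lam) * ∫ x in S, ‖pds L (sl (dt m) t) x‖ ^ 2 := by
        rw [← integral_const_mul, ← integral_const_mul, ← integral_add, ← integral_add]
        · refine integral_congr_ae (Filter.Eventually.of_forall fun x => ?_)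
          simp only
          rw [norm_add_sq_real, inner_smul_right, norm_smul, mul_pow, Real.norm_eq_abs, sq_abs]
          ring
        · exact hna.add (hin.const_mul _)
        · exact hnb.const_mul _
        · exact hna
        · exact hin.const_mul _
      rw [h4] at h3
      have h5 := hB2 lam
      simp only [List.map_cons, List.sum_cons]
      nlinarith

end DHS

open DHS in
/-- module DHS -/
theorem specDhs (hT : SpecTder) (hBall : SpecBall) (hHSB : SpecHSB) : SpecDhs := by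
  intro R hR k m hm t
  obtain ⟨T, hTl, hTe⟩ := hHSB.upper k
  have hS := ball_meas (R := R)
  have hSb := ball_bdd hR
  have hk : ∀ f : ℝ × E → E, InT R f → ∀ s, hs univ k (sl f s) =
      (T.map fun L => ∫ x in D (ballρ R), ‖pds L (sl f s) x‖ ^ 2).sum := by
    intro f hf s
    rw [hBall.hs_eq R E k (sl f s) hR (InT.sl hf s)]
    exact hTe E (D (ballρ R)) (sl f s) (InT.sl hf s).smooth
  obtain ⟨B, hB1, hB2⟩ := list hT hS hSb hm.smooth t T
  refine ⟨2 * B, ?_, ?_⟩
  · have : (fun s => hs univ k (sl m s)) =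
        fun s => (T.map fun L => ∫ x in D (ballρ R), ‖pds L (sl m s) x‖ ^ 2).sum :=
      funext fun s => hk m hm s
    rw [this]
    exact hB1
  · rw [← hk (dt m) (inT_dt hm) t, ← hk m hm t] at hB2
    have h1 := discrim_le_zero hB2
    unfold discrim at h1
    have hn1 := hHSB.nonneg E univ k (sl m t)
    have hn2 := hHSB.nonneg E univ k (sl (dt m) t)
    have h2 : B ^ 2 ≤ hs univ k (sl m t) * hs univ k (sl (dt m) t) := by nlinarith
    have h3 : |B| ≤ √(hs univ k (sl m t)) * √(hs univ k (sl (dt m) t)) := by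
      rw [← Real.sqrt_mul hn1]
      exact Real.abs_le_sqrt h2
    rw [abs_mul, abs_two]
    linarith

end MPfab
end

section
/-!
MP_fabde4_an, part P: module INCOP (bounded linear operators preserve `InC`).
-/
set_option autoImplicit false
open MeasureTheory Set

namespace MPfab

namespace INC

variable {F : Type*} [NormedAddCommGroup F] [NormedSpace ℝ F]

theorem J0.pds {a : ℝ × E → F} (ha : J0 a) (L : List (Fin 3)) :
    J0 (fun p : ℝ × E => MPfab.pds L (sl a p.1) p.2) := by
  induction L with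
  | nil => exact ha
  | cons i L ih => exact ih.pd i

theorem hasDerivAt_pds {m m' : ℝ × E → F} (hm : J0 m) (hm' : J0 m')
    (hd : ∀ t x, HasDerivAt (fun s => m (s, x)) (m' (t, x)) t) (L : List (Fin 3)) :
    ∀ t x, HasDerivAt (fun s => MPfab.pds L (sl m s) x) (MPfab.pds L (sl m' t) x) t := by
  induction L with
  | nil => exact hd
  | cons i L ih =>
    intro t x
    exact hasDerivAt_pd (hm.pds L).1 (hm'.pds L).1 ih i ((hm'.pds L).2 [i]) t x

theorem pds_sub' {f g : E → F} (hf : Sm f) (hg : Sm g) (L : List (Fin 3)) (x : E) :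
    MPfab.pds L (fun x => f x - g x) x = MPfab.pds L f x - MPfab.pds L g x := by
  have h1 := pds_clm (-(ContinuousLinearMap.id ℝ F)) hg L
  have h2 := pds_add hf (sm_clm (-(ContinuousLinearMap.id ℝ F)) hg) L
  have h3 : (fun x => f x - g x) = fun x => f x + (-(ContinuousLinearMap.id ℝ F)) (g x) := by
    funext x
    simp [sub_eq_add_neg]
  rw [h3, h2, h1]
  simp [sub_eq_add_neg]

theorem pds_smul' (c : ℝ) {f : E → F} (hf : Sm f) (L : List (Fin 3)) (x : E) :
    MPfab.pds L (fun x => c • f x) x = c • MPfab.pds L f x := by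
  have h1 := pds_clm (c • (ContinuousLinearMap.id ℝ F)) hf L
  have h3 : (fun x => c • f x) = fun x => (c • (ContinuousLinearMap.id ℝ F)) (f x) := by
    funext x
    simp
  rw [h3, h1]
  simp

/-- uniform continuity in time -/
theorem unif {F : Type*} [NormedAddCommGroup F] {R : ℝ} {h : ℝ × E → F} (hc : Continuous h) (h0 : ∀ t x, R ≤ ‖x‖ → h (t, x) = 0)
    (t : ℝ) {ε : ℝ} (hε : 0 < ε) : ∀ᶠ s in nhds t, ∀ x, ‖h (s, x) - h (t, x)‖ ≤ ε := by
  have hK : IsCompact (Metric.closedBall (0 : E) R) := isCompact_closedBall 0 R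
  have h1 : ∀ᶠ s in nhds t, ∀ x ∈ Metric.closedBall (0 : E) R, ‖h (s, x) - h (t, x)‖ < ε := by
    refine hK.eventually_forall_of_forall_eventually (P := fun s x => ‖h (s, x) - h (t, x)‖ < ε) ?_
    intro y _
    have h2 : Continuous fun z : ℝ × E => ‖h (z.1, z.2) - h (t, z.2)‖ := by
      exact ((hc.comp (continuous_fst.prodMk continuous_snd)).sub
        (hc.comp (continuous_const.prodMk continuous_snd))).norm
    have h3 := h2.tendsto (t, y)
    simp only [sub_self, norm_zero] at h3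
    exact h3.eventually (gt_mem_nhds hε)
  filter_upwards [h1] with s hs x
  by_cases hx : ‖x‖ ≤ R
  · exact (hs x (by simpa using hx)).le
  · rw [h0 s x (le_of_not_ge hx), h0 t x (le_of_not_ge hx)]
    simpa using hε.le

end INC

namespace IncOp

open INC

variable {F G : Type} [NormedAddCommGroup F] [NormedSpace ℝ F] [NormedAddCommGroup G]
  [NormedSpace ℝ G]

theorem Q_sub {R : ℝ} {Q : (E → F) → (E → G)} (hQ : COp R Q) {f g : E → F} (hf : In R f)
    (hg : In R g) : Q (fun x => f x - g x) = fun x => Q f x - Q g x := by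
  have hg' : In R (fun x => (-1 : ℝ) • g x) :=
    ⟨contDiff_const.smul hg.smooth, fun x hx => by rw [hg.supp x hx, smul_zero]⟩
  have h1 := hQ.add f _ hf hg'
  rw [hQ.smul (-1) g hg] at h1
  have h2 : (fun x => f x - g x) = fun x => f x + (-1 : ℝ) • g x := by
    funext x
    rw [neg_one_smul, sub_eq_add_neg]
  rw [h2, h1]
  funext x
  show Q f x + (-1 : ℝ) • Q g x = _
  rw [neg_one_smul, sub_eq_add_neg]

theorem hs_le_sup (hBall : SpecBall) (hHSB : SpecHSB) {R : ℝ} (hR : 0 < R) (j : ℕ) :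
    ∃ (T : List (List (Fin 3))) (C : ℝ), 0 ≤ C ∧ ∀ (f : E → F), In R f → ∀ δ : ℝ, 0 ≤ δ →
      (∀ L ∈ T, ∀ x, ‖pds L f x‖ ≤ δ) → hs univ j f ≤ C * δ ^ 2 := by
  obtain ⟨T, _, hTe⟩ := hHSB.upper j
  set S := D (ballρ R) with hSdef
  have hSb := DHS.ball_bdd hR
  have hfin : volume S < ⊤ := hSb.measure_lt_top
  refine ⟨T, T.length * (volume S).toReal, by positivity, ?_⟩
  intro f hf δ hδ hL
  rw [hBall.hs_eq R F j f hR hf, hTe F _ f hf.smooth]
  have key : ∀ T' : List (List (Fin 3)), (∀ L ∈ T', ∀ x, ‖pds L f x‖ ≤ δ) →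
      (T'.map fun L => ∫ x in S, ‖pds L f x‖ ^ 2).sum ≤ T'.length * (volume S).toReal * δ ^ 2 := by
    intro T'
    induction T' with
    | nil => intro _; simp
    | cons L T' ih =>
      intro h
      have h1 := ih fun L' hL' => h L' (List.mem_cons_of_mem _ hL')
      have h2 : (∫ x in S, ‖pds L f x‖ ^ 2) ≤ (volume S).toReal * δ ^ 2 := by
        have h3 := norm_setIntegral_le_of_norm_le_const (μ := volume) (s := S) (C := δ ^ 2)
          (f := fun x => ‖pds L f x‖ ^ 2) hfin (fun x _ => by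
            rw [Real.norm_eq_abs, abs_of_nonneg (by positivity)]
            exact pow_le_pow_left₀ (norm_nonneg _) (h L List.mem_cons_self x) 2)
        calc (∫ x in S, ‖pds L f x‖ ^ 2) ≤ ‖∫ x in S, ‖pds L f x‖ ^ 2‖ := le_abs_self _
          _ ≤ δ ^ 2 * (volume S).toReal := h3
          _ = _ := by ring
      simp only [List.map_cons, List.sum_cons, List.length_cons]
      push_cast
      linarith
  exact key T hL

/-- sup bounds for `Q` -/
theorem Q_sup (hSupU : SpecSupU) (hBall : SpecBall) (hHSB : SpecHSB) {R : ℝ} (hR : 0 < R)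
    {Q : (E → F) → (E → G)} (hQ : COp R Q) (L : List (Fin 3)) :
    ∃ (T : List (List (Fin 3))) (C : ℝ), 0 < C ∧ ∀ (f : E → F), In R f → ∀ δ : ℝ, 0 ≤ δ →
      (∀ L ∈ T, ∀ x, ‖pds L f x‖ ≤ δ) → ∀ x, ‖pds L (Q f) x‖ ≤ C * δ := by
  obtain ⟨C1, hC1, h1⟩ := hSupU R hR
  obtain ⟨j, C2, hC2, h2⟩ := hQ.bound (L.length + 3)
  obtain ⟨T, C3, hC3, h3⟩ := hs_le_sup (F := F) hBall hHSB hR j
  refine ⟨T, √(C1 * (C2 * C3)) + 1, by positivity, ?_⟩
  intro f hf δ hδ hL x
  have h4 : ‖pds L (Q f) x‖ ^ 2 ≤ C1 * (C2 * C3) * δ ^ 2 := by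
    calc ‖pds L (Q f) x‖ ^ 2 ≤ C1 * hs univ (L.length + 3) (Q f) := h1 G (Q f) (hQ.maps f hf) L x
      _ ≤ C1 * (C2 * (C3 * δ ^ 2)) := by
          refine mul_le_mul_of_nonneg_left ((h2 f hf).trans ?_) hC1
          exact mul_le_mul_of_nonneg_left (h3 f hf δ hδ hL) hC2
      _ = _ := by ring
  have h5 : ‖pds L (Q f) x‖ ≤ √(C1 * (C2 * C3)) * δ := by
    have h6 := Real.sqrt_le_sqrt h4
    rw [Real.sqrt_sq (norm_nonneg _), Real.sqrt_mul (by positivity), Real.sqrt_sq hδ] at h6
    exact h6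
  calc _ ≤ √(C1 * (C2 * C3)) * δ := h5
    _ ≤ (√(C1 * (C2 * C3)) + 1) * δ := mul_le_mul_of_nonneg_right (by linarith) hδ

theorem list_eventually {ι : Type*} {l : Filter ι} {P : List (Fin 3) → ι → Prop}
    (T : List (List (Fin 3))) (h : ∀ L ∈ T, ∀ᶠ i in l, P L i) : ∀ᶠ i in l, ∀ L ∈ T, P L i := by
  induction T with
  | nil => simp
  | cons L T ih =>
    have h1 := h L List.mem_cons_self
    have h2 := ih fun L' hL' => h L' (List.mem_cons_of_mem _ hL')
    filter_upwards [h1, h2] with i hi1 hi2 L' hL'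
    rcases List.mem_cons.1 hL' with rfl | h3
    · exact hi1
    · exact hi2 L' h3

theorem sl_in {R : ℝ} {m : ℝ × E → F} (hm : InC R 0 m) (t : ℝ) : In R (sl m t) := hm.1 t

theorem sub_in {R : ℝ} {f g : E → F} (hf : In R f) (hg : In R g) : In R (fun x => f x - g x) :=
  ⟨hf.smooth.sub hg.smooth, fun x hx => by rw [hf.supp x hx, hg.supp x hx, sub_zero]⟩

theorem smul_in {R : ℝ} (c : ℝ) {f : E → F} (hf : In R f) : In R (fun x => c • f x) :=
  ⟨contDiff_const.smul hf.smooth, fun x hx => by rw [hf.supp x hx, smul_zero]⟩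

/-- order `0` -/
theorem zero (hSupU : SpecSupU) (hBall : SpecBall) (hHSB : SpecHSB) {R : ℝ} (hR : 0 < R)
    {Q : (E → F) → (E → G)} (hQ : COp R Q) {m : ℝ × E → F} (hm : InC R 0 m) :
    InC R 0 (fun p : ℝ × E => Q (sl m p.1) p.2) := by
  have hm' := inC_zero_iff.1 hm
  refine ⟨fun t => hQ.maps _ (hm.1 t), fun L => ?_⟩
  show Continuous fun p : ℝ × E => pds L (Q (sl m p.1)) p.2
  obtain ⟨T, C, hC, hQs⟩ := Q_sup hSupU hBall hHSB hR hQ L
  rw [continuous_iff_continuousAt]
  rintro ⟨t, x⟩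
  rw [Metric.continuousAt_iff']
  intro ε hε
  -- small changes of the slice
  have h1 : ∀ᶠ s in nhds t, ∀ L' ∈ T, ∀ y, ‖pds L' (sl m s) y - pds L' (sl m t) y‖ ≤
      ε / (4 * C) := by
    refine list_eventually T fun L' _ => ?_
    exact unif (R := R) (hm.2 L') (fun s y hy => (In.pds hR (hm.1 s) L').supp y hy) t
      (by positivity)
  have h2 : ∀ᶠ s in nhds t, ∀ y, ‖pds L (Q (sl m s)) y - pds L (Q (sl m t)) y‖ ≤ ε / 4 := by
    filter_upwards [h1] with s hs y
    have h3 := hQs (fun x => sl m s x - sl m t x) (sub_in (hm.1 s) (hm.1 t)) (ε / (4 * C))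
      (by positivity) (fun L' hL' z => by
        rw [pds_sub' (hm.1 s).smooth (hm.1 t).smooth]
        exact hs L' hL' z) y
    rw [Q_sub hQ (hm.1 s) (hm.1 t),
      pds_sub' (hQ.maps _ (hm.1 s)).smooth (hQ.maps _ (hm.1 t)).smooth] at h3
    refine h3.trans (le_of_eq ?_)
    field_simp
  have h4 : ∀ᶠ y in nhds x, dist (pds L (Q (sl m t)) y) (pds L (Q (sl m t)) x) < ε / 2 := by
    have hc : Continuous (pds L (Q (sl m t))) :=
      (PDC.pds_smooth (hQ.maps _ (hm.1 t)).smooth L).continuous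
    exact Metric.continuousAt_iff'.1 hc.continuousAt (ε / 2) (by positivity)
  have h5 : ∀ᶠ p : ℝ × E in nhds (t, x), (∀ y, ‖pds L (Q (sl m p.1)) y - pds L (Q (sl m t)) y‖ ≤
      ε / 4) ∧ dist (pds L (Q (sl m t)) p.2) (pds L (Q (sl m t)) x) < ε / 2 := by
    rw [nhds_prod_eq]
    exact h2.prod_mk h4
  filter_upwards [h5] with p hp
  have h6 := hp.1 p.2
  rw [← dist_eq_norm] at h6
  calc dist (pds L (Q (sl m p.1)) p.2) (pds L (Q (sl m t)) x)
      ≤ dist (pds L (Q (sl m p.1)) p.2) (pds L (Q (sl m t)) p.2) +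
        dist (pds L (Q (sl m t)) p.2) (pds L (Q (sl m t)) x) := dist_triangle _ _ _
    _ < ε := by linarith [hp.2]

/-- the derivative in time -/
theorem deriv (hSupU : SpecSupU) (hBall : SpecBall) (hHSB : SpecHSB) {R : ℝ} (hR : 0 < R)
    {Q : (E → F) → (E → G)} (hQ : COp R Q) {m m' : ℝ × E → F} (hm : InC R 0 m)
    (hm' : InC R 0 m') (hd : ∀ t x, HasDerivAt (fun s => m (s, x)) (m' (t, x)) t) (t : ℝ) (x : E) :
    HasDerivAt (fun s => Q (sl m s) x) (Q (sl m' t) x) t := by
  obtain ⟨T, C, hC, hQs⟩ := Q_sup hSupU hBall hHSB hR hQ []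
  have hmJ := (inC_zero_iff.1 hm).1
  have hmJ' := (inC_zero_iff.1 hm').1
  rw [hasDerivAt_iff_isLittleO, Asymptotics.isLittleO_iff]
  intro ε hε
  have h1 : ∀ᶠ s in nhds t, ∀ L' ∈ T, ∀ y, ‖pds L' (sl m' s) y - pds L' (sl m' t) y‖ ≤
      ε / C := by
    refine list_eventually T fun L' _ => ?_
    exact unif (R := R) (hm'.2 L') (fun s y hy => (In.pds hR (hm'.1 s) L').supp y hy) t
      (by positivity)
  rw [Metric.eventually_nhds_iff] at h1 ⊢
  obtain ⟨δ, hδ, h2⟩ := h1
  refine ⟨δ, hδ, fun s hs => ?_⟩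
  -- mean value inequality
  have h3 : ∀ L' ∈ T, ∀ y, ‖pds L' (sl m s) y - pds L' (sl m t) y -
      (s - t) • pds L' (sl m' t) y‖ ≤ ε / C * |s - t| := by
    intro L' hL' y
    have h4 := Convex.norm_image_sub_le_of_norm_hasDerivWithin_le
      (f := fun s : ℝ => pds L' (sl m s) y - s • pds L' (sl m' t) y)
      (f' := fun s : ℝ => pds L' (sl m' s) y - pds L' (sl m' t) y) (s := Metric.ball t δ)
      (C := ε / C) (x := t) (y := s)
      (fun r _ => by
        have h5 := (hasDerivAt_pds hmJ hmJ' hd L' r y).sub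
          ((hasDerivAt_id r).smul_const (pds L' (sl m' t) y))
        rw [one_smul] at h5
        exact h5.hasDerivWithinAt)
      (fun r hr => h2 hr L' hL' y)
      (convex_ball t δ) (Metric.mem_ball_self hδ) hs
    rw [Real.norm_eq_abs] at h4
    have e : pds L' (sl m s) y - pds L' (sl m t) y - (s - t) • pds L' (sl m' t) y =
        pds L' (sl m s) y - s • pds L' (sl m' t) y -
          (pds L' (sl m t) y - t • pds L' (sl m' t) y) := by
      rw [sub_smul]; abel
    rw [e]
    exact h4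
  have hin1 := sub_in (hm.1 s) (hm.1 t)
  have hin2 := smul_in (s - t) (hm'.1 t)
  have h4 := hQs (fun x => (sl m s x - sl m t x) - (s - t) • sl m' t x) (sub_in hin1 hin2)
    (ε / C * |s - t|) (by positivity) (fun L' hL' y => by
      rw [pds_sub' hin1.smooth hin2.smooth, pds_sub' (hm.1 s).smooth (hm.1 t).smooth,
        pds_smul' _ (hm'.1 t).smooth]
      exact h3 L' hL' y) x
  rw [Q_sub hQ hin1 hin2, Q_sub hQ (hm.1 s) (hm.1 t), hQ.smul _ _ (hm'.1 t)] at h4
  rw [Real.norm_eq_abs]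
  refine h4.trans (le_of_eq ?_)
  field_simp

end IncOp

open IncOp in
/-- module INCOP -/
theorem specIncOp (hSupU : SpecSupU) (hBall : SpecBall) (hHSB : SpecHSB) : SpecIncOp := by
  intro F G _ _ _ _ _ _ R Q hR hQ j
  induction j with
  | zero => exact fun m hm => zero hSupU hBall hHSB hR hQ hm
  | succ j ih =>
    rintro m ⟨h0, m', hm', hd⟩
    have h0' : InC R 0 m := h0
    have hm'0 : InC R 0 m' := specIncAlg.zero_of F R j m' hm'
    exact ⟨zero hSupU hBall hHSB hR hQ h0', fun p : ℝ × E => Q (sl m' p.1) p.2, ih m' hm',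
      fun t x => deriv hSupU hBall hHSB hR hQ h0' hm'0 hd t x⟩

end MPfab
end

section
/-!
MP_fabde4_an, part P: modules BIL and CRB (bilinear estimates on the whole space).
-/
set_option autoImplicit false
open MeasureTheory Set

namespace MPfab

namespace Bil

open INC

section Gen

variable {F : Type*} [NormedAddCommGroup F] [NormedSpace ℝ F]

theorem pds_append (A B : List (Fin 3)) (f : E → F) : pds (A ++ B) f = pds A (pds B f) := by
  induction A with
  | nil => rfl
  | cons i A ih =>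
    show pd i (pds (A ++ B) f) = pd i (pds A (pds B f))
    rw [ih]

theorem hcs {R : ℝ} {f : E → F} (hf : In R f) : HasCompactSupport f :=
  HasCompactSupport.intro (isCompact_closedBall (0 : E) R) fun x hx => hf.supp x (by
    rw [Metric.mem_closedBall, dist_zero_right, not_le] at hx
    exact hx.le)

theorem in_add {R : ℝ} {f g : E → F} (hf : In R f) (hg : In R g) : In R (fun x => f x + g x) :=
  ⟨hf.smooth.add hg.smooth, fun x hx => by rw [hf.supp x hx, hg.supp x hx, add_zero]⟩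

theorem in_comp {R : ℝ} {u : E → E} (hu : In R u) (q : Fin 3) : In R (fun x => u x q) :=
  ⟨hu.smooth.comp_apply q, fun x hx => by rw [hu.supp x hx]; rfl⟩

theorem in_mul {R : ℝ} {f g : E → ℝ} (hf : In R f) (hg : In R g) : In R (fun x => f x * g x) :=
  ⟨hf.smooth.mul hg.smooth, fun x hx => by rw [hf.supp x hx, zero_mul]⟩

end Gen

theorem hs_add (hHSB : SpecHSB) {F : Type} [NormedAddCommGroup F] [NormedSpace ℝ F] {R : ℝ}
    (k : ℕ) {f g : E → F} (hf : In R f) (hg : In R g) :
    hs univ k (fun x => f x + g x) ≤ 2 * hs univ k f + 2 * hs univ k g :=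
  hHSB.add_le F univ k f g MeasurableSet.univ (Or.inr ⟨hcs hf, hcs hg⟩) hf.smooth hg.smooth

theorem hs_comp_le (hHSB : SpecHSB) {R : ℝ} (n : ℕ) {u : E → E} (hu : In R u) (q : Fin 3) :
    hs univ n (fun x => u x q) ≤ hs univ n u := by
  rw [hHSB.comp univ n u MeasurableSet.univ (Or.inr (hcs hu)) hu.smooth]
  exact Finset.single_le_sum (f := fun j => hs univ n (fun x => u x j))
    (fun j _ => hHSB.nonneg ℝ univ n _) (Finset.mem_univ q)

/-- product estimate in `L²` -/
theorem prodU (hP : SpecProd) (hBall : SpecBall) {R : ℝ} (hR : 0 < R) :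
    ∃ C : ℝ, 0 ≤ C ∧ ∀ (A B : List (Fin 3)) (f g : E → ℝ), In R f → In R g →
      hs univ 0 (fun x => pds A f x * pds B g x) ≤
        C * hs univ (A.length + 3) f * hs univ B.length g := by
  obtain ⟨C, hC, h⟩ := hP (ballρ R) (hBall.dom R hR)
  refine ⟨C, hC, fun A B f g hf hg => ?_⟩
  have hfg : In R (fun x => pds A f x * pds B g x) := in_mul (In.pds hR hf A) (In.pds hR hg B)
  rw [hBall.hs_eq R ℝ 0 _ hR hfg, hBall.hs_eq R ℝ _ f hR hf, hBall.hs_eq R ℝ _ g hR hg]
  have h1 := h A B f g hf.smooth hg.smooth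
  have h2 : hs (D (ballρ R)) 0 (fun x => pds A f x * pds B g x) =
      ∫ x in D (ballρ R), (pds A f x * pds B g x) ^ 2 := by
    show (∫ x in D (ballρ R), ‖pds A f x * pds B g x‖ ^ 2) = _
    refine integral_congr_ae (Filter.Eventually.of_forall fun x => ?_)
    simp only [Real.norm_eq_abs, sq_abs]
  rw [h2]
  exact h1

/-- Leibniz rule for the `L²` norms -/
theorem leibL (hLeib : SpecLeib) (hHSB : SpecHSB) (L : List (Fin 3)) :
    ∃ C : ℝ, 0 ≤ C ∧ ∀ (R : ℝ), 0 < R → ∀ f g : E → ℝ, In R f → In R g → ∀ M : ℝ,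
      (∀ A B : List (Fin 3), A.length + B.length = L.length →
        hs univ 0 (fun x => pds A f x * pds B g x) ≤ M) →
      hs univ 0 (pds L (fun x => f x * g x)) ≤ C * M := by
  obtain ⟨T, hT1, hT2⟩ := hLeib L
  have key : ∀ T' : List (List (Fin 3) × List (Fin 3)),
      (∀ p ∈ T', p.1.length + p.2.length = L.length) → ∃ C : ℝ, 0 ≤ C ∧ ∀ (R : ℝ), 0 < R →
      ∀ f g : E → ℝ, In R f → In R g → ∀ M : ℝ,
      (∀ A B : List (Fin 3), A.length + B.length = L.length →
        hs univ 0 (fun x => pds A f x * pds B g x) ≤ M) →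
      In R (fun x => (T'.map fun p => pds p.1 f x * pds p.2 g x).sum) ∧
      hs univ 0 (fun x => (T'.map fun p => pds p.1 f x * pds p.2 g x).sum) ≤ C * M := by
    intro T'
    induction T' with
    | nil =>
      intro _
      refine ⟨0, le_rfl, fun R hR f g hf hg M _ => ⟨⟨contDiff_const, fun x _ => rfl⟩, ?_⟩⟩
      have : hs (F := ℝ) univ 0 (fun _ => (0 : ℝ)) = 0 := by
        show (∫ x in univ, ‖(0 : ℝ)‖ ^ 2) = 0
        simp
      simp only [List.map_nil, List.sum_nil]
      rw [this, zero_mul]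
    | cons p T' ih =>
      intro hp
      obtain ⟨C, hC, h⟩ := ih fun q hq => hp q (List.mem_cons_of_mem _ hq)
      refine ⟨2 + 2 * C, by linarith, fun R hR f g hf hg M hM => ?_⟩
      obtain ⟨h1, h2⟩ := h R hR f g hf hg M hM
      have h3 : In R (fun x => pds p.1 f x * pds p.2 g x) :=
        in_mul (In.pds hR hf p.1) (In.pds hR hg p.2)
      have h4 := hs_add hHSB 0 h3 h1
      have h5 := hM p.1 p.2 (hp p List.mem_cons_self)
      simp only [List.map_cons, List.sum_cons]
      exact ⟨in_add h3 h1, by linarith⟩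
  obtain ⟨C, hC, h⟩ := key T fun p hp => (hT1 p hp).2
  refine ⟨2 + 2 * C, by linarith, fun R hR f g hf hg M hM => ?_⟩
  obtain ⟨h1, h2⟩ := h R hR f g hf hg M hM
  have h3 : In R (fun x => pds [] f x * pds L g x) := in_mul hf (In.pds hR hg L)
  have h4 := hs_add hHSB 0 h3 h1
  have h5 := hM [] L (by simp)
  have e : pds L (fun x => f x * g x) = fun x => pds [] f x * pds L g x +
      (T.map fun p => pds p.1 f x * pds p.2 g x).sum :=
    funext fun x => hT2 f g hf.smooth hg.smooth x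
  rw [e]
  linarith

theorem leibK (hLeib : SpecLeib) (hHSB : SpecHSB) (k : ℕ) :
    ∃ C : ℝ, 0 ≤ C ∧ ∀ (R : ℝ), 0 < R → ∀ f g : E → ℝ, In R f → In R g → ∀ M : ℝ,
      (∀ A B : List (Fin 3), A.length + B.length ≤ k →
        hs univ 0 (fun x => pds A f x * pds B g x) ≤ M) →
      hs univ k (fun x => f x * g x) ≤ C * M := by
  obtain ⟨T, hT1, hT2⟩ := hHSB.upper k
  have key : ∀ T' : List (List (Fin 3)), (∀ L ∈ T', L.length ≤ k) → ∃ C : ℝ, 0 ≤ C ∧
      ∀ (R : ℝ), 0 < R → ∀ f g : E → ℝ, In R f → In R g → ∀ M : ℝ,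
      (∀ A B : List (Fin 3), A.length + B.length ≤ k →
        hs univ 0 (fun x => pds A f x * pds B g x) ≤ M) →
      (T'.map fun L => ∫ x in univ, ‖pds L (fun x => f x * g x) x‖ ^ 2).sum ≤ C * M := by
    intro T'
    induction T' with
    | nil => exact fun _ => ⟨0, le_rfl, fun R _ f g _ _ M _ => by simp⟩
    | cons L T' ih =>
      intro hL
      obtain ⟨C, hC, h⟩ := ih fun q hq => hL q (List.mem_cons_of_mem _ hq)
      obtain ⟨C', hC', h'⟩ := leibL hLeib hHSB L
      refine ⟨C' + C, by linarith, fun R hR f g hf hg M hM => ?_⟩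
      have h1 := h R hR f g hf hg M hM
      have h2 := h' R hR f g hf hg M fun A B hAB => hM A B (by
        rw [hAB]; exact hL L List.mem_cons_self)
      have h3 : hs univ 0 (pds L (fun x => f x * g x)) =
          ∫ x in univ, ‖pds L (fun x => f x * g x) x‖ ^ 2 := rfl
      simp only [List.map_cons, List.sum_cons]
      rw [← h3]
      linarith
  obtain ⟨C, hC, h⟩ := key T hT1
  refine ⟨C, hC, fun R hR f g hf hg M hM => ?_⟩
  rw [hT2 ℝ univ _ (hf.smooth.mul hg.smooth)]
  exact h R hR f g hf hg M hM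

/-- bounded bilinear expressions -/
structure BB (R : ℝ) (k n₁ n₂ : ℕ) (T : (E → E) → (E → E) → E → ℝ) : Prop where
  maps : ∀ u a, In R u → In R a → In R (T u a)
  bound : ∃ C : ℝ, 0 ≤ C ∧ ∀ u a, In R u → In R a →
    hs univ k (T u a) ≤ C * (hs univ n₁ u * hs univ n₂ a)

theorem BB.zero {R : ℝ} {k n₁ n₂ : ℕ} (hHSB : SpecHSB) : BB R k n₁ n₂ (fun _ _ _ => 0) := by
  refine ⟨fun u a _ _ => ⟨contDiff_const, fun x _ => rfl⟩, 0, le_rfl, fun u a _ _ => ?_⟩
  have h := hHSB.smul ℝ univ k 0 (fun _ : E => (0 : ℝ)) contDiff_const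
  simp only [smul_zero] at h
  rw [h]
  simp

theorem BB.add {R : ℝ} {k n₁ n₂ : ℕ} (hHSB : SpecHSB) {T T' : (E → E) → (E → E) → E → ℝ}
    (h : BB R k n₁ n₂ T) (h' : BB R k n₁ n₂ T') : BB R k n₁ n₂ (fun u a x => T u a x + T' u a x) := by
  obtain ⟨C, hC, hb⟩ := h.bound
  obtain ⟨C', hC', hb'⟩ := h'.bound
  refine ⟨fun u a hu ha => in_add (h.maps u a hu ha) (h'.maps u a hu ha), 2 * C + 2 * C',
    by linarith, fun u a hu ha => ?_⟩
  have h1 := hs_add hHSB k (h.maps u a hu ha) (h'.maps u a hu ha)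
  have h2 := hb u a hu ha
  have h3 := hb' u a hu ha
  linarith

theorem BB.smul {R : ℝ} {k n₁ n₂ : ℕ} (hHSB : SpecHSB) {T : (E → E) → (E → E) → E → ℝ} (c : ℝ)
    (h : BB R k n₁ n₂ T) : BB R k n₁ n₂ (fun u a x => c * T u a x) := by
  obtain ⟨C, hC, hb⟩ := h.bound
  refine ⟨fun u a hu ha => ⟨contDiff_const.mul (h.maps u a hu ha).smooth, fun x hx => by
    rw [(h.maps u a hu ha).supp x hx, mul_zero]⟩, c ^ 2 * C, by positivity, fun u a hu ha => ?_⟩
  have h1 := hHSB.smul ℝ univ k c (T u a) (h.maps u a hu ha).smooth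
  have h2 := hb u a hu ha
  show hs univ k (fun x => c • T u a x) ≤ _
  rw [h1, mul_assoc]
  exact mul_le_mul_of_nonneg_left h2 (sq_nonneg c)

theorem BB.sum {R : ℝ} {k n₁ n₂ : ℕ} (hHSB : SpecHSB) {ι : Type*} (s : Finset ι)
    {T : ι → (E → E) → (E → E) → E → ℝ} (h : ∀ i, BB R k n₁ n₂ (T i)) :
    BB R k n₁ n₂ (fun u a x => ∑ i ∈ s, T i u a x) := by
  classical
  induction s using Finset.induction_on with
  | empty =>
    simp only [Finset.sum_empty]
    exact BB.zero hHSB
  | insert i s hi ih =>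
    simp only [Finset.sum_insert hi]
    exact (h i).add hHSB ih

/-- bounds for vector valued expressions -/
theorem BB.vec {R : ℝ} {k n₁ n₂ : ℕ} (hHSB : SpecHSB) {T : (E → E) → (E → E) → E → E}
    (h : ∀ i, BB R k n₁ n₂ (fun u a x => T u a x i)) :
    ∃ C : ℝ, 0 ≤ C ∧ ∀ u a, In R u → In R a →
      √(hs univ k (T u a)) ≤ C * √(hs univ n₁ u) * √(hs univ n₂ a) := by
  choose C hC hb using fun i => (h i).bound
  have hCs : 0 ≤ ∑ i, C i := Finset.sum_nonneg fun i _ => hC i
  refine ⟨√(∑ i, C i), Real.sqrt_nonneg _, fun u a hu ha => ?_⟩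
  have hin : In R (T u a) := by
    refine ⟨contDiff_euclidean.2 fun i => ((h i).maps u a hu ha).smooth, fun x hx => ?_⟩
    ext i
    exact ((h i).maps u a hu ha).supp x hx
  have hn1 := hHSB.nonneg E univ n₁ u
  rw [← Real.sqrt_mul hCs, ← Real.sqrt_mul (mul_nonneg hCs hn1)]
  apply Real.sqrt_le_sqrt
  rw [hHSB.comp univ k _ MeasurableSet.univ (Or.inr (hcs hin)) hin.smooth, mul_assoc,
    Finset.sum_mul]
  exact Finset.sum_le_sum fun i _ => hb i u a hu ha

/-- the basic products, first version -/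
theorem basic1 (hP : SpecProd) (hBall : SpecBall) (hLeib : SpecLeib) (hHSB : SpecHSB) {R : ℝ}
    (hR : 0 < R) {k n : ℕ} (hn : 5 ≤ n) (A B : List (Fin 3)) (hAB : k + A.length + B.length ≤ n)
    (q j : Fin 3) :
    BB R k n n (fun u a x => pds A (fun y => u y q) x * pds B (fun y => a y j) x) := by
  obtain ⟨C, hC, hp⟩ := prodU hP hBall hR
  obtain ⟨C', hC', hl⟩ := leibK hLeib hHSB k
  refine ⟨fun u a hu ha => in_mul (In.pds hR (in_comp hu q) A) (In.pds hR (in_comp ha j) B),
    C' * C, by positivity, fun u a hu ha => ?_⟩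
  have hmono : ∀ (i : ℕ) (v : E → E) (p : Fin 3), In R v → i ≤ n →
      hs univ i (fun y => v y p) ≤ hs univ n v := fun i v p hv hi =>
    (hHSB.mono ℝ univ i n _ hi).trans (hs_comp_le hHSB n hv p)
  have hnn : ∀ (i : ℕ) (v : E → ℝ), 0 ≤ hs univ i v := fun i v => hHSB.nonneg ℝ univ i v
  have hnn' : ∀ (i : ℕ) (v : E → E), 0 ≤ hs univ i v := fun i v => hHSB.nonneg E univ i v
  have h1 := hl R hR _ _ (In.pds hR (in_comp hu q) A) (In.pds hR (in_comp ha j) B)
    (C * (hs univ n u * hs univ n a)) (by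
      intro A' B' hAB'
      rw [← pds_append, ← pds_append]
      by_cases hc : (A' ++ A).length + 3 ≤ n
      · have h2 := hp (A' ++ A) (B' ++ B) _ _ (in_comp hu q) (in_comp ha j)
        refine h2.trans ?_
        rw [mul_assoc]
        refine mul_le_mul_of_nonneg_left ?_ hC
        refine mul_le_mul (hmono _ u q hu hc) (hmono _ a j ha ?_) (hnn _ _) (hnn' _ _)
        rw [List.length_append] at hc ⊢
        omega
      · have h2 := hp (B' ++ B) (A' ++ A) _ _ (in_comp ha j) (in_comp hu q)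
        have e : (fun x => pds (A' ++ A) (fun y => u y q) x * pds (B' ++ B) (fun y => a y j) x) =
            fun x => pds (B' ++ B) (fun y => a y j) x * pds (A' ++ A) (fun y => u y q) x :=
          funext fun x => mul_comm _ _
        rw [e]
        refine h2.trans ?_
        rw [mul_assoc, mul_comm (hs univ n u)]
        refine mul_le_mul_of_nonneg_left ?_ hC
        rw [List.length_append] at hc
        refine mul_le_mul (hmono _ a j ha ?_) (hmono _ u q hu ?_) (hnn _ _) (hnn' _ _)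
        · rw [List.length_append]; omega
        · rw [List.length_append]; omega)
  rw [← mul_assoc] at h1
  exact h1

/-- the basic products, second version -/
theorem basic2 (hP : SpecProd) (hBall : SpecBall) (hLeib : SpecLeib) (hHSB : SpecHSB) {R : ℝ}
    (hR : 0 < R) (k : ℕ) (q j : Fin 3) :
    BB R k (k + 3) k (fun u a x => u x q * a x j) := by
  obtain ⟨C, hC, hp⟩ := prodU hP hBall hR
  obtain ⟨C', hC', hl⟩ := leibK hLeib hHSB k
  refine ⟨fun u a hu ha => in_mul (in_comp hu q) (in_comp ha j),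
    C' * C, by positivity, fun u a hu ha => ?_⟩
  have hmono : ∀ (i n : ℕ) (v : E → E) (p : Fin 3), In R v → i ≤ n →
      hs univ i (fun y => v y p) ≤ hs univ n v := fun i n v p hv hi =>
    (hHSB.mono ℝ univ i n _ hi).trans (hs_comp_le hHSB n hv p)
  have hnn : ∀ (i : ℕ) (v : E → ℝ), 0 ≤ hs univ i v := fun i v => hHSB.nonneg ℝ univ i v
  have hnn' : ∀ (i : ℕ) (v : E → E), 0 ≤ hs univ i v := fun i v => hHSB.nonneg E univ i v
  have h1 := hl R hR _ _ (in_comp hu q) (in_comp ha j)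
    (C * (hs univ (k + 3) u * hs univ k a)) (by
      intro A' B' hAB'
      have h2 := hp A' B' _ _ (in_comp hu q) (in_comp ha j)
      refine h2.trans ?_
      rw [mul_assoc]
      refine mul_le_mul_of_nonneg_left ?_ hC
      exact mul_le_mul (hmono _ _ u q hu (by omega)) (hmono _ _ a j ha (by omega)) (hnn _ _)
        (hnn' _ _))
  rw [← mul_assoc] at h1
  exact h1

theorem basic3 (hP : SpecProd) (hBall : SpecBall) (hLeib : SpecLeib) (hHSB : SpecHSB) {R : ℝ}
    (hR : 0 < R) (k : ℕ) (q j : Fin 3) :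
    BB R k k (k + 3) (fun u a x => u x q * a x j) := by
  obtain ⟨C, hC, h⟩ := (basic2 hP hBall hLeib hHSB hR k j q).bound
  refine ⟨fun u a hu ha => in_mul (in_comp hu q) (in_comp ha j), C, hC, fun u a hu ha => ?_⟩
  have h1 := h a u ha hu
  rw [mul_comm (hs univ k u)]
  have e : (fun x => u x q * a x j) = fun x => a x j * u x q := funext fun x => mul_comm _ _
  rw [e]
  exact h1

theorem cr_BB {R : ℝ} {k n₁ n₂ : ℕ} (hHSB : SpecHSB)
    (h : ∀ q j, BB R k n₁ n₂ (fun u a x => u x q * a x j)) (i : Fin 3) :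
    BB R k n₁ n₂ (fun u a x => cr (u x) (a x) i) := by
  have key : ∀ p q r s, BB R k n₁ n₂ (fun u a x => u x p * a x q - u x r * a x s) := by
    intro p q r s
    have h1 := (h p q).add hHSB ((h r s).smul hHSB (-1))
    have e : (fun (u a : E → E) (x : E) => u x p * a x q + -1 * (u x r * a x s)) =
        fun u a x => u x p * a x q - u x r * a x s := by
      funext u a x
      ring
    rwa [e] at h1
  fin_cases i
  · exact key 1 2 2 1
  · exact key 2 0 0 2
  · exact key 0 1 1 0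

end Bil

open Bil in
/-- module BIL -/
theorem specBil (hP : SpecProd) (hBall : SpecBall) (hLeib : SpecLeib) (hHSB : SpecHSB) :
    SpecBil := by
  intro R hR c k hk
  obtain ⟨C, hC, h⟩ := BB.vec (R := R) (k := k) (n₁ := k + 1) (n₂ := k + 1) hHSB
    (T := fun u a x => WithLp.toLp 2 fun i =>
      (∑ j, pds [] (fun y => u y j) x * pds [j] (fun y => a y i) x) +
        ∑ j, ∑ p, ∑ q, c i j p q * (pds [p] (fun y => u y q) x * pds [] (fun y => a y j) x))
    (fun i => by
      refine BB.add hHSB (BB.sum hHSB _ fun j => ?_) (BB.sum hHSB _ fun j =>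
        BB.sum hHSB _ fun p => BB.sum hHSB _ fun q => BB.smul hHSB _ ?_)
      · exact basic1 hP hBall hLeib hHSB hR (by omega) [] [j] (by simp) j i
      · exact basic1 hP hBall hLeib hHSB hR (by omega) [p] [] (by simp) q j)
  refine ⟨C, hC, fun u a hu ha => ?_⟩
  have e : trc c u a = fun x => WithLp.toLp 2 fun i =>
      (∑ j, pds [] (fun y => u y j) x * pds [j] (fun y => a y i) x) +
        ∑ j, ∑ p, ∑ q, c i j p q * (pds [p] (fun y => u y q) x * pds [] (fun y => a y j) x) := by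
    funext x
    unfold trc
    congr 1
    funext i
    congr 1
    · refine Finset.sum_congr rfl fun j _ => ?_
      rw [PDC.pd_comp_apply ha.smooth j i]
      rfl
    · refine Finset.sum_congr rfl fun j _ => Finset.sum_congr rfl fun p _ =>
        Finset.sum_congr rfl fun q _ => ?_
      rw [PDC.pd_comp_apply hu.smooth p q, mul_assoc]
      rfl
  rw [e]
  exact h u a hu ha

open Bil in
/-- module CRB -/
theorem specCrb (hP : SpecProd) (hBall : SpecBall) (hLeib : SpecLeib) (hHSB : SpecHSB) :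
    SpecCrb where
  low R hR := by
    obtain ⟨C, hC, h⟩ := BB.vec (T := fun u a x => cr (u x) (a x)) hHSB
      (cr_BB hHSB fun q j => basic2 hP hBall hLeib hHSB hR 0 q j)
    obtain ⟨C', hC', h'⟩ := BB.vec (T := fun u a x => cr (u x) (a x)) hHSB
      (cr_BB hHSB fun q j => basic3 hP hBall hLeib hHSB hR 0 q j)
    refine ⟨C + C', by linarith, fun w b hw hb => ⟨?_, ?_⟩⟩
    · have h1 := h' w b hw hb
      simp only [Nat.zero_add] at h1
      refine h1.trans ?_
      have h2 : 0 ≤ √(hs univ 3 b) * √(hs univ 0 w) := by positivity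
      nlinarith
    · have h1 := h w b hw hb
      simp only [Nat.zero_add] at h1
      refine h1.trans ?_
      have h2 : 0 ≤ √(hs univ 0 b) * √(hs univ 3 w) := by positivity
      nlinarith
  high R hR k := by
    obtain ⟨C, hC, h⟩ := BB.vec (T := fun u a x => cr (u x) (a x)) hHSB
      (cr_BB hHSB fun q j => basic2 hP hBall hLeib hHSB hR k q j)
    refine ⟨C, hC, fun w b hw hb => (h w b hw hb).trans ?_⟩
    have h1 : √(hs univ k b) ≤ √(hs univ (k + 3) b) :=
      Real.sqrt_le_sqrt (hHSB.mono E univ k (k + 3) b (by omega))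
    have h2 : 0 ≤ C * √(hs univ (k + 3) w) := by positivity
    calc C * √(hs univ (k + 3) w) * √(hs univ k b)
        ≤ C * √(hs univ (k + 3) w) * √(hs univ (k + 3) b) := mul_le_mul_of_nonneg_left h1 h2
      _ = _ := by ring

end MPfab
end

section
/-!
MP_fabde4_an, toolbox B: operators `w ↦ A (w ∘ Φ)` on `L²(D)` for diffeomorphisms `Φ` preserving `D`,
facts on flows of tangential fields (helper69).
-/
set_option autoImplicit false
open MeasureTheory Set Filter Topology

namespace MPfab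

namespace PullM

/-! ### changes of variables -/

/-- a smooth diffeomorphism preserving `S` -/
structure Dif (S : Set E) (Φ Ψ : E → E) : Prop where
  sm : Sm Φ
  sm' : Sm Ψ
  l : ∀ x, Ψ (Φ x) = x
  r : ∀ x, Φ (Ψ x) = x
  mem : ∀ x, Φ x ∈ S ↔ x ∈ S

theorem Dif.symm {S : Set E} {Φ Ψ : E → E} (h : Dif S Φ Ψ) : Dif S Ψ Φ :=
  ⟨h.sm', h.sm, h.r, h.l, fun x => by rw [← h.mem (Ψ x), h.r]⟩

theorem Dif.id (S : Set E) : Dif S (fun x => x) (fun x => x) :=
  ⟨contDiff_id, contDiff_id, fun _ => rfl, fun _ => rfl, fun _ => Iff.rfl⟩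

theorem Dif.image {S : Set E} {Φ Ψ : E → E} (h : Dif S Φ Ψ) : Φ '' S = S := by
  ext y
  constructor
  · rintro ⟨x, hx, rfl⟩
    exact (h.mem x).2 hx
  · intro hy
    exact ⟨Ψ y, (h.symm.mem y).2 hy, h.r y⟩

theorem Dif.inj {S : Set E} {Φ Ψ : E → E} (h : Dif S Φ Ψ) : Function.Injective Φ :=
  fun x y hxy => by rw [← h.l x, ← h.l y, hxy]

theorem Dif.lint {S : Set E} {Φ Ψ : E → E} (h : Dif S Φ Ψ) (hS : MeasurableSet S)
    (g : E → ENNReal) :
    ∫⁻ x in S, g x = ∫⁻ x in S, ENNReal.ofReal |(fderiv ℝ Φ x).det| * g (Φ x) := by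
  have h1 := lintegral_image_eq_lintegral_abs_det_fderiv_mul volume hS (f := Φ)
    (f' := fun x => fderiv ℝ Φ x)
    (fun x _ => (h.sm.differentiable x).hasFDerivAt.hasFDerivWithinAt) (h.inj.injOn) g
  rwa [h.image] at h1

theorem Dif.int {F : Type*} [NormedAddCommGroup F] [NormedSpace ℝ F]
    {S : Set E} {Φ Ψ : E → E} (h : Dif S Φ Ψ) (hS : MeasurableSet S)
    (g : E → F) :
    ∫ x in S, g x = ∫ x in S, |(fderiv ℝ Φ x).det| • g (Φ x) := by
  have h1 := integral_image_eq_integral_abs_det_fderiv_smul volume hS (f := Φ)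
    (f' := fun x => fderiv ℝ Φ x)
    (fun x _ => (h.sm.differentiable x).hasFDerivAt.hasFDerivWithinAt) (h.inj.injOn) g
  rwa [h.image] at h1

theorem Dif.lint' {S : Set E} {Φ Ψ : E → E} (h : Dif S Φ Ψ) (hS : MeasurableSet S)
    (g : E → ENNReal) :
    ∫⁻ x in S, g (Φ x) = ∫⁻ x in S, ENNReal.ofReal |(fderiv ℝ Ψ x).det| * g x := by
  rw [h.symm.lint hS]
  simp only [h.r]

theorem Dif.qmp {S : Set E} {Φ Ψ : E → E} (h : Dif S Φ Ψ) (_ : MeasurableSet S) :
    Measure.QuasiMeasurePreserving Φ (volume.restrict S) (volume.restrict S) := by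
  refine ⟨h.sm.continuous.measurable, Measure.AbsolutelyContinuous.mk fun N hN h0 => ?_⟩
  rw [Measure.map_apply h.sm.continuous.measurable hN,
    Measure.restrict_apply (h.sm.continuous.measurable hN)]
  rw [Measure.restrict_apply hN] at h0
  have h1 : Φ ⁻¹' N ∩ S = Ψ '' (N ∩ S) := by
    ext x
    constructor
    · rintro ⟨h1, h2⟩
      exact ⟨Φ x, ⟨h1, (h.mem x).2 h2⟩, h.l x⟩
    · rintro ⟨y, ⟨h1, h2⟩, rfl⟩
      exact ⟨by simpa [h.r] using h1, (h.symm.mem y).2 h2⟩
  rw [h1]
  exact addHaar_image_eq_zero_of_differentiableOn_of_addHaar_eq_zero volume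
    (h.sm'.differentiable.differentiableOn) h0

theorem Dif.ae {S : Set E} {Φ Ψ : E → E} (h : Dif S Φ Ψ) (hS : MeasurableSet S) {p : E → Prop}
    (hp : ∀ᵐ x ∂(volume.restrict S), p x) : ∀ᵐ x ∂(volume.restrict S), p (Φ x) :=
  (h.qmp hS).ae hp

/-! ### the operators -/

theorem aesm {S : Set E} {Φ Ψ : E → E} (h : Dif S Φ Ψ) (hS : MeasurableSet S)
    {A : E → E →L[ℝ] E} (hA : Continuous A) (w : Lp E 2 (volume.restrict S)) :
    AEStronglyMeasurable (fun x => A x (w (Φ x))) (volume.restrict S) := by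
  have h1 : AEStronglyMeasurable (fun x => w (Φ x)) (volume.restrict S) :=
    (Lp.aestronglyMeasurable w).comp_quasiMeasurePreserving (h.qmp hS)
  exact (isBoundedBilinearMap_apply (𝕜 := ℝ) (E := E) (F := E)).continuous.comp_aestronglyMeasurable
    (hA.aestronglyMeasurable.prodMk h1)

theorem lint_le {S : Set E} {Φ Ψ : E → E} (h : Dif S Φ Ψ) (hS : MeasurableSet S)
    {A : E → E →L[ℝ] E} {C1 C2 C : ℝ} (h1 : ∀ x ∈ S, ‖A x‖ ≤ C1)
    (h2 : ∀ x ∈ S, |(fderiv ℝ Ψ x).det| ≤ C2) (h3 : C1 ^ 2 * C2 ≤ C ^ 2)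
    (w : E → E) :
    ∫⁻ x in S, ‖A x (w (Φ x))‖ₑ ^ (2 : ℝ) ≤ ENNReal.ofReal (C ^ 2) * ∫⁻ x in S, ‖w x‖ₑ ^ (2 : ℝ) := by
  calc ∫⁻ x in S, ‖A x (w (Φ x))‖ₑ ^ (2 : ℝ)
      ≤ ∫⁻ x in S, ENNReal.ofReal (C1 ^ 2) * ‖w (Φ x)‖ₑ ^ (2 : ℝ) := by
        refine setLIntegral_mono' hS fun x hx => ?_
        have h5 : ‖A x (w (Φ x))‖ₑ ≤ ENNReal.ofReal C1 * ‖w (Φ x)‖ₑ := by
          rw [← ofReal_norm, ← ofReal_norm, ← ENNReal.ofReal_mul
            ((norm_nonneg _).trans (h1 x hx))]
          exact ENNReal.ofReal_le_ofReal (((A x).le_opNorm _).trans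
            (mul_le_mul_of_nonneg_right (h1 x hx) (norm_nonneg _)))
        calc ‖A x (w (Φ x))‖ₑ ^ (2 : ℝ) ≤ (ENNReal.ofReal C1 * ‖w (Φ x)‖ₑ) ^ (2 : ℝ) :=
              ENNReal.rpow_le_rpow h5 (by norm_num)
          _ = _ := by
              rw [ENNReal.mul_rpow_of_nonneg _ _ (by norm_num), ENNReal.ofReal_rpow_of_nonneg
                ((norm_nonneg _).trans (h1 x hx)) (by norm_num)]
              norm_num
    _ = ENNReal.ofReal (C1 ^ 2) * ∫⁻ x in S, ‖w (Φ x)‖ₑ ^ (2 : ℝ) :=
        lintegral_const_mul' _ _ ENNReal.ofReal_ne_top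
    _ = ENNReal.ofReal (C1 ^ 2) *
          ∫⁻ x in S, ENNReal.ofReal |(fderiv ℝ Ψ x).det| * ‖w x‖ₑ ^ (2 : ℝ) := by
        rw [h.lint' hS (fun y => ‖w y‖ₑ ^ (2 : ℝ))]
    _ ≤ ENNReal.ofReal (C1 ^ 2) * ∫⁻ x in S, ENNReal.ofReal C2 * ‖w x‖ₑ ^ (2 : ℝ) := by
        refine mul_le_mul_right ?_ _
        refine setLIntegral_mono' hS fun x hx => ?_
        exact mul_le_mul_left (ENNReal.ofReal_le_ofReal (h2 x hx)) _
    _ = ENNReal.ofReal (C1 ^ 2 * C2) * ∫⁻ x in S, ‖w x‖ₑ ^ (2 : ℝ) := by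
        rw [lintegral_const_mul' _ _ ENNReal.ofReal_ne_top, ENNReal.ofReal_mul (sq_nonneg _),
          mul_assoc]
    _ ≤ _ := mul_le_mul_left (ENNReal.ofReal_le_ofReal h3) _

theorem snorm_le {S : Set E} {Φ Ψ : E → E} (h : Dif S Φ Ψ) (hS : MeasurableSet S)
    {A : E → E →L[ℝ] E} {C1 C2 C : ℝ} (h1 : ∀ x ∈ S, ‖A x‖ ≤ C1)
    (h2 : ∀ x ∈ S, |(fderiv ℝ Ψ x).det| ≤ C2) (hC : 0 ≤ C) (h3 : C1 ^ 2 * C2 ≤ C ^ 2)
    (w : E → E) :
    eLpNorm (fun x => A x (w (Φ x))) 2 (volume.restrict S) ≤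
      ENNReal.ofReal C * eLpNorm w 2 (volume.restrict S) := by
  rw [eLpNorm_eq_lintegral_rpow_enorm_toReal (by norm_num) (by norm_num),
    eLpNorm_eq_lintegral_rpow_enorm_toReal (by norm_num) (by norm_num)]
  simp only [ENNReal.toReal_ofNat]
  refine (ENNReal.rpow_le_rpow (lint_le h hS h1 h2 h3 w) (by norm_num)).trans ?_
  rw [ENNReal.mul_rpow_of_nonneg _ _ (by norm_num), ENNReal.ofReal_rpow_of_nonneg (sq_nonneg _)
    (by norm_num)]
  refine mul_le_mul_left (ENNReal.ofReal_le_ofReal ?_) _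
  rw [← Real.sqrt_eq_rpow, Real.sqrt_sq hC]

/-- bounded operators `w ↦ A (w ∘ Φ)` -/
theorem exists_op {S : Set E} {Φ Ψ : E → E} (h : Dif S Φ Ψ) (hS : MeasurableSet S)
    {A : E → E →L[ℝ] E} (hA : Continuous A) {C1 C2 C : ℝ} (h1 : ∀ x ∈ S, ‖A x‖ ≤ C1)
    (h2 : ∀ x ∈ S, |(fderiv ℝ Ψ x).det| ≤ C2) (hC : 0 ≤ C) (h3 : C1 ^ 2 * C2 ≤ C ^ 2) :
    ∃ W : Lp E 2 (volume.restrict S) →L[ℝ] Lp E 2 (volume.restrict S),
      (∀ w, (W w : E → E) =ᵐ[volume.restrict S] fun x => A x (w (Φ x))) ∧ ‖W‖ ≤ C := by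
  have hm : ∀ w : Lp E 2 (volume.restrict S),
      MemLp (fun x => A x (w (Φ x))) 2 (volume.restrict S) := fun w =>
    ⟨aesm h hS hA w, (snorm_le h hS h1 h2 hC h3 w).trans_lt
      (ENNReal.mul_lt_top ENNReal.ofReal_lt_top (Lp.eLpNorm_lt_top w))⟩
  have hc := fun w => MemLp.coeFn_toLp (hm w)
  let W0 : Lp E 2 (volume.restrict S) →ₗ[ℝ] Lp E 2 (volume.restrict S) :=
    { toFun := fun w => (hm w).toLp _
      map_add' := fun v w => by
        apply Lp.ext
        filter_upwards [hc (v + w), hc v, hc w, Lp.coeFn_add ((hm v).toLp _) ((hm w).toLp _),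
          h.ae hS (Lp.coeFn_add v w)] with x e1 e2 e3 e4 e5
        rw [e1, e4, Pi.add_apply, e2, e3, e5, Pi.add_apply, map_add]
      map_smul' := fun c w => by
        apply Lp.ext
        filter_upwards [hc (c • w), hc w, Lp.coeFn_smul c ((hm w).toLp _),
          h.ae hS (Lp.coeFn_smul c w)] with x e1 e2 e4 e5
        rw [RingHom.id_apply, e1, e4, Pi.smul_apply, e2, e5, Pi.smul_apply, map_smul] }
  have hb : ∀ w, ‖W0 w‖ ≤ C * ‖w‖ := by
    intro w
    show ‖(hm w).toLp _‖ ≤ _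
    rw [Lp.norm_toLp, Lp.norm_def]
    have h5 := snorm_le h hS h1 h2 hC h3 (w : E → E)
    have h6 := ENNReal.toReal_mono (ENNReal.mul_lt_top ENNReal.ofReal_lt_top
      (Lp.eLpNorm_lt_top w)).ne h5
    rwa [ENNReal.toReal_mul, ENNReal.toReal_ofReal hC] at h6
  exact ⟨W0.mkContinuous C hb, fun w => hc w, LinearMap.mkContinuous_norm_le _ hC hb⟩

/-- a norm bound from a pointwise formula -/
theorem norm_op_le {S : Set E} (hS : MeasurableSet S)
    {A : E → E →L[ℝ] E} {C : ℝ} (hC : 0 ≤ C) (h1 : ∀ x ∈ S, ‖A x‖ ≤ C)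
    (W : Lp E 2 (volume.restrict S) →L[ℝ] Lp E 2 (volume.restrict S))
    (hW : ∀ w, (W w : E → E) =ᵐ[volume.restrict S] fun x => A x (w x)) : ‖W‖ ≤ C := by
  refine ContinuousLinearMap.opNorm_le_bound _ hC fun w => ?_
  refine Lp.norm_le_mul_norm_of_ae_le_mul ?_
  filter_upwards [hW w, ae_restrict_mem hS] with x e1 e2
  rw [e1]
  exact ((A x).le_opNorm _).trans (mul_le_mul_of_nonneg_right (h1 x e2) (norm_nonneg _))

/-! ### Taylor estimate -/

theorem hasDerivAt_of_sq {V : Type*} [NormedAddCommGroup V] [NormedSpace ℝ V] {f : ℝ → V}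
    {f' : V} {C : ℝ} (h : ∀ s, |s| ≤ 1 → ‖f s - f 0 - s • f'‖ ≤ C * s ^ 2) :
    HasDerivAt f f' 0 := by
  rw [hasDerivAt_iff_isLittleO]
  have h1 : (fun s : ℝ => f s - f 0 - (s - 0) • f') =O[𝓝 0] fun s : ℝ => s ^ 2 := by
    refine Asymptotics.IsBigO.of_bound C ?_
    filter_upwards [Metric.ball_mem_nhds (0 : ℝ) one_pos] with s hs
    rw [mem_ball_zero_iff, Real.norm_eq_abs] at hs
    rw [sub_zero, Real.norm_eq_abs, abs_of_nonneg (sq_nonneg s)]
    exact h s hs.le
  refine h1.trans_isLittleO ?_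
  simp only [sub_zero]
  have h2 : (fun s : ℝ => s ^ 2) =o[𝓝 0] fun s : ℝ => s ^ 1 :=
    Asymptotics.isLittleO_pow_pow (by norm_num)
  simpa using h2

theorem taylor {W : Type*} [NormedAddCommGroup W] [NormedSpace ℝ W] {h : ℝ × E → W} (hs : Sm h)
    {S : Set E} (hS : Bornology.IsBounded S) :
    ∃ C, 0 ≤ C ∧ ∀ s x, |s| ≤ 1 → x ∈ S → ‖h (s, x) - h (0, x) - s • dt h (0, x)‖ ≤ C * s ^ 2 := by
  have h1 := PDC.dt_smooth hs
  have h2 := PDC.dt_smooth h1
  have hK : IsCompact (Icc (-1 : ℝ) 1 ×ˢ closure S) := isCompact_Icc.prod hS.isCompact_closure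
  obtain ⟨C, hC⟩ := hK.exists_bound_of_continuousOn h2.continuous.continuousOn
  refine ⟨max C 0, le_max_right _ _, fun s x hs1 hx => ?_⟩
  have hb : ∀ r ∈ Icc (-1 : ℝ) 1, ‖dt (dt h) (r, x)‖ ≤ max C 0 := fun r hr =>
    (hC (r, x) ⟨hr, subset_closure hx⟩).trans (le_max_left _ _)
  have hs2 : s ∈ Icc (-1 : ℝ) 1 := ⟨(abs_le.1 hs1).1, (abs_le.1 hs1).2⟩
  have h0 : (0 : ℝ) ∈ Icc (-1 : ℝ) 1 := ⟨by norm_num, by norm_num⟩
  have h3 : ∀ r ∈ Icc (-1 : ℝ) 1, ‖dt h (r, x) - dt h (0, x)‖ ≤ max C 0 * ‖r - 0‖ := by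
    intro r hr
    exact (convex_Icc (-1 : ℝ) 1).norm_image_sub_le_of_norm_hasDerivWithin_le
      (f := fun r => dt h (r, x)) (f' := fun r => dt (dt h) (r, x))
      (fun r _ => (PDC.hasDerivAt_dt h1 r x).hasDerivWithinAt) hb h0 hr
  have hsub : uIcc 0 s ⊆ Icc (-1 : ℝ) 1 := uIcc_subset_Icc h0 hs2
  have h4 : ∀ r ∈ uIcc 0 s, ‖dt h (r, x) - dt h (0, x)‖ ≤ max C 0 * |s| := by
    intro r hr
    refine (h3 r (hsub hr)).trans (mul_le_mul_of_nonneg_left ?_ (le_max_right _ _))
    rw [sub_zero, Real.norm_eq_abs]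
    have := abs_sub_left_of_mem_uIcc hr
    simpa using this
  have h5 := (convex_uIcc (0 : ℝ) s).norm_image_sub_le_of_norm_hasDerivWithin_le
      (f := fun r => h (r, x) - r • dt h (0, x)) (f' := fun r => dt h (r, x) - dt h (0, x))
      (fun r _ => by
        have e1 := (PDC.hasDerivAt_dt hs r x)
        have e2 : HasDerivAt (fun r : ℝ => r • dt h (0, x)) ((1 : ℝ) • dt h (0, x)) r :=
          (hasDerivAt_id r).smul_const _
        rw [one_smul] at e2
        exact (e1.sub e2).hasDerivWithinAt) h4 (left_mem_uIcc) (right_mem_uIcc)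
  simp only [zero_smul, sub_zero, Real.norm_eq_abs] at h5
  have e1 : h (s, x) - h (0, x) - s • dt h (0, x) = h (s, x) - s • dt h (0, x) - h (0, x) := by
    abel
  rw [e1]
  refine h5.trans (le_of_eq ?_)
  rw [mul_assoc, ← sq, sq_abs]

/-! ### flows -/

/-- the spatial derivative of the flow map -/
noncomputable def J (F : ℝ × E → E) (s : ℝ) (x : E) : E →L[ℝ] E := fderiv ℝ (fun y => F (s, y)) x

theorem J_eq {F : ℝ × E → E} (hF : Sm F) (s : ℝ) (x : E) :
    J F s x = (fderiv ℝ F (s, x)).comp (ContinuousLinearMap.inr ℝ ℝ E) := by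
  unfold J
  have h1 : HasFDerivAt F (fderiv ℝ F (s, x)) (s, x) := (hF.differentiable (s, x)).hasFDerivAt
  have h2 : HasFDerivAt (fun y : E => (s, y)) (ContinuousLinearMap.inr ℝ ℝ E) x :=
    hasFDerivAt_prodMk_right s x
  exact (h1.comp x h2).fderiv

theorem J_sm {F : ℝ × E → E} (hF : Sm F) : Sm (fun p : ℝ × E => J F p.1 p.2) := by
  have h1 : (fun p : ℝ × E => J F p.1 p.2) = fun p =>
      (fderiv ℝ F p).comp (ContinuousLinearMap.inr ℝ ℝ E) := by
    funext p
    exact J_eq hF p.1 p.2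
  rw [h1]
  exact (hF.fderiv_right (m := ((⊤ : ENat) : WithTop ENat)) (by simp)).clm_comp contDiff_const

theorem J_zero {T : E → E} {F : ℝ × E → E} (hF : IsFlow T F) (x : E) :
    J F 0 x = ContinuousLinearMap.id ℝ E := by
  unfold J
  have : (fun y => F (0, y)) = id := funext fun y => hF.zero y
  rw [this, fderiv_id]

/-- the derivative of the spatial derivative in time, at time `0` -/
theorem J_deriv {T : E → E} {F : ℝ × E → E} (hF : IsFlow T F) (x : E) :
    HasDerivAt (fun s => J F s x) (fderiv ℝ T x) 0 := by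
  have h1 := PDC.hasDerivAt_dt (J_sm hF.smooth) 0 x
  have h2 : dt (fun p : ℝ × E => J F p.1 p.2) (0, x) = fderiv ℝ T x := by
    ext1 v
    have e1 : HasDerivAt (fun s => J F s x v) (dt (fun p : ℝ × E => J F p.1 p.2) (0, x) v) 0 := by
      have e0 := h1.clm_apply (hasDerivAt_const (0 : ℝ) v)
      simp only [map_zero, add_zero] at e0
      exact e0
    have e2 : (fun s => J F s x v) = fun s => PDC.dd ((0 : ℝ), v) F (s, x) := by
      funext s
      rw [J_eq hF.smooth]
      rfl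
    rw [e2] at e1
    have e3 := PDC.hasDerivAt_dt (PDC.dd_smooth hF.smooth ((0 : ℝ), v)) 0 x
    rw [e1.unique e3, PDC.dt_eq (PDC.dd_smooth hF.smooth _), PDC.dd_comm hF.smooth]
    have e4 : ∀ p : ℝ × E, PDC.dd ((1 : ℝ), (0 : E)) F p = T (F p) := by
      intro p
      rw [← PDC.dt_eq hF.smooth]
      exact (hF.deriv p.1 p.2).deriv
    have e5 : HasFDerivAt (PDC.dd ((1 : ℝ), (0 : E)) F)
        (fderiv ℝ (PDC.dd ((1 : ℝ), (0 : E)) F) (0, x)) (0, x) :=
      ((PDC.dd_smooth hF.smooth _).differentiable _).hasFDerivAt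
    have e6 := e5.comp x (hasFDerivAt_prodMk_right (0 : ℝ) x)
    have e7 : (PDC.dd ((1 : ℝ), (0 : E)) F ∘ fun y : E => ((0 : ℝ), y)) = T := by
      funext y
      show PDC.dd ((1 : ℝ), (0 : E)) F (0, y) = T y
      rw [e4, hF.zero]
    rw [e7] at e6
    rw [e6.fderiv]
    rfl
  rwa [h2] at h1

/-- the adjoint as a linear map over `ℝ` -/
noncomputable def adj : (E →L[ℝ] E) →L[ℝ] (E →L[ℝ] E) :=
  LinearMap.toContinuousLinearMap
    { toFun := fun A => ContinuousLinearMap.adjoint A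
      map_add' := fun A B => map_add _ A B
      map_smul' := fun c A => by simp }

theorem adj_apply (A : E →L[ℝ] E) : adj A = ContinuousLinearMap.adjoint A := rfl

theorem adj_comp (A B : E →L[ℝ] E) : adj (A.comp B) = (adj B).comp (adj A) := by
  simp only [adj_apply, ContinuousLinearMap.adjoint_comp]

theorem adj_id : adj (ContinuousLinearMap.id ℝ E) = ContinuousLinearMap.id ℝ E := by
  rw [adj_apply]
  exact ContinuousLinearMap.adjoint_id

theorem adj_coord (A : E →L[ℝ] E) (v : E) (i : Fin 3) : adj A v i = ∑ j, v j * (A (eb i)) j := by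
  have h1 : inner ℝ (adj A v) (eb i) = inner ℝ v (A (eb i)) := by
    rw [adj_apply, ContinuousLinearMap.adjoint_inner_left]
  rw [inner_eq v] at h1
  rw [← h1, eb, EuclideanSpace.inner_single_right]
  simp

theorem lie_eq (T G : E → E) (x : E) :
    lie T G x = adj (fderiv ℝ T x) (G x) + fderiv ℝ G x (T x) := by
  ext i
  rw [lie_apply, PiLp.add_apply, adj_coord, fderiv_eq_sum G x (T x)]
  simp only [Finset.sum_add_distrib, WithLp.ofLp_sum, WithLp.ofLp_smul, Finset.sum_apply,
    Pi.smul_apply, smul_eq_mul]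
  rw [add_comm]
  rfl

theorem deriv_pull {T : E → E} {F : ℝ × E → E} (hF : IsFlow T F) {G : E → E} {x : E}
    (hG : DifferentiableAt ℝ G x) :
    HasDerivAt (fun s => adj (J F s x) (G (F (s, x)))) (lie T G x) 0 := by
  have h1 : HasDerivAt (fun s => adj (J F s x)) (adj (fderiv ℝ T x)) 0 :=
    adj.hasFDerivAt.comp_hasDerivAt 0 (J_deriv hF x)
  have h2 : HasDerivAt (fun s => G (F (s, x))) (fderiv ℝ G x (T x)) 0 := by
    have e1 : HasFDerivAt G (fderiv ℝ G x) (F (0, x)) := by
      rw [hF.zero]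
      exact hG.hasFDerivAt
    have e2 := hF.deriv 0 x
    rw [hF.zero] at e2
    exact e1.comp_hasDerivAt 0 e2
  have h3 := h1.clm_apply h2
  rw [J_zero hF, adj_id, hF.zero] at h3
  rw [lie_eq]
  exact h3

/-- uniqueness of the flow -/
theorem flow_unique {T : E → E} {R : ℝ} (hT : In R T) {F F' : ℝ × E → E} (hF : IsFlow T F)
    (hF' : IsFlow T F') : F = F' := by
  have hc : HasCompactSupport T := by
    refine HasCompactSupport.intro (isCompact_closedBall (0 : E) R) fun x hx => hT.supp x ?_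
    rw [mem_closedBall_zero_iff, not_le] at hx
    exact hx.le
  obtain ⟨K, hK⟩ := hT.smooth.lipschitzWith_of_hasCompactSupport hc (by simp)
  funext p
  obtain ⟨s, x⟩ := p
  have h1 := ODE_solution_unique_univ (v := fun _ => T) (s := fun _ => univ) (K := K)
    (f := fun r => F (r, x)) (g := fun r => F' (r, x)) (t₀ := 0)
    (fun _ => hK.lipschitzOnWith) (fun t => ⟨hF.deriv t x, mem_univ _⟩)
    (fun t => ⟨hF'.deriv t x, mem_univ _⟩) (by rw [hF.zero, hF'.zero])
  exact congrFun h1 s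

theorem flow_mem (hFt : SpecFtan) {ρ : E → ℝ} (hρ : DomN ρ) (T : TF ρ) {F : ℝ × E → E}
    (hF : IsFlow T.1 F) (s : ℝ) (x : E) : F (s, x) ∈ D ρ ↔ x ∈ D ρ := by
  obtain ⟨R, hR⟩ := T.2.1
  have h1 := hFt ρ (fun p => T.1 p.2) (fun q => F (q.1 - q.2.1, q.2.2)) R hρ
    ⟨hR.smooth.comp contDiff_snd, fun t x hx => hR.supp x hx⟩ (fun t => T.2.2)
    ⟨hF.smooth.comp ((contDiff_fst.sub (contDiff_fst.comp contDiff_snd)).prodMk
        (contDiff_snd.comp contDiff_snd)), fun s x => by
          show F (s - s, x) = x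
          rw [sub_self, hF.zero], fun t s x => by
          have e1 := (hF.deriv (t - s) x).comp_sub_const t s
          exact e1, fun t s r x => by
          show F (t - s, F (s - r, x)) = F (t - r, x)
          rw [hF.group]
          congr 2
          ring⟩ s 0 x
  have h2 := h1.1
  simp only [sub_zero] at h2
  exact h2

theorem flow_dif (hFt : SpecFtan) {ρ : E → ℝ} (hρ : DomN ρ) (T : TF ρ) {F : ℝ × E → E}
    (hF : IsFlow T.1 F) (s : ℝ) : Dif (D ρ) (fun x => F (s, x)) (fun x => F (-s, x)) where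
  sm := hF.smooth.comp (contDiff_const.prodMk contDiff_id)
  sm' := hF.smooth.comp (contDiff_const.prodMk contDiff_id)
  l x := by
    show F (-s, F (s, x)) = x
    rw [hF.group, neg_add_cancel, hF.zero]
  r x := by
    show F (s, F (-s, x)) = x
    rw [hF.group, add_neg_cancel, hF.zero]
  mem x := flow_mem hFt hρ T hF s x

theorem isOpen_D {ρ : E → ℝ} (h : Dom ρ) : IsOpen (D ρ) :=
  isOpen_lt h.smooth.continuous continuous_const

theorem meas_D {ρ : E → ℝ} (h : Dom ρ) : MeasurableSet (D ρ) := (isOpen_D h).measurableSet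

theorem finite_D {ρ : E → ℝ} (h : Dom ρ) : IsFiniteMeasure (volume.restrict (D ρ)) :=
  ⟨by rw [Measure.restrict_apply_univ]; exact h.bdd.measure_lt_top⟩

/-- a continuous function is bounded on `[-1,1] × S` -/
theorem bdd_of_cont {F : Type*} [NormedAddCommGroup F] {f : ℝ × E → F} (hf : Continuous f)
    {S : Set E} (hS : Bornology.IsBounded S) :
    ∃ C, 0 ≤ C ∧ ∀ s x, |s| ≤ 1 → x ∈ S → ‖f (s, x)‖ ≤ C := by
  have hK : IsCompact (Icc (-1 : ℝ) 1 ×ˢ closure S) := isCompact_Icc.prod hS.isCompact_closure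
  obtain ⟨C, hC⟩ := hK.exists_bound_of_continuousOn hf.continuousOn
  exact ⟨max C 0, le_max_right _ _, fun s x hs hx =>
    (hC (s, x) ⟨abs_le.1 hs, subset_closure hx⟩).trans (le_max_left _ _)⟩

theorem bdd_at {F : Type*} [NormedAddCommGroup F] {f : E → F} (hf : Continuous f)
    {S : Set E} (hS : Bornology.IsBounded S) : ∃ C, 0 ≤ C ∧ ∀ x ∈ S, ‖f x‖ ≤ C := by
  obtain ⟨C, h0, hC⟩ := bdd_of_cont (f := fun p : ℝ × E => f p.2) (hf.comp continuous_snd) hS
  exact ⟨C, h0, fun x hx => hC 0 x (by simp) hx⟩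

/-- composition of the spatial derivatives -/
theorem J_comp {T : E → E} {F : ℝ × E → E} (hF : IsFlow T F) (s t : ℝ) (x : E) :
    J F (s + t) x = (J F s (F (t, x))).comp (J F t x) := by
  unfold J
  have h1 : (fun y => F (s + t, y)) = (fun y => F (s, y)) ∘ fun y => F (t, y) := by
    funext y
    exact (hF.group s t y).symm
  have hsm : ∀ s : ℝ, Sm (fun y => F (s, y)) := fun s =>
    hF.smooth.comp (contDiff_const.prodMk contDiff_id)
  rw [h1, fderiv_comp x ((hsm s).differentiable _) ((hsm t).differentiable _)]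

theorem J_inv {T : E → E} {F : ℝ × E → E} (hF : IsFlow T F) (s : ℝ) (x : E) :
    (J F (-s) (F (s, x))).comp (J F s x) = ContinuousLinearMap.id ℝ E := by
  rw [← J_comp hF, neg_add_cancel, J_zero hF]

theorem J_inv' {T : E → E} {F : ℝ × E → E} (hF : IsFlow T F) (s : ℝ) (x : E) :
    (J F s x).comp (J F (-s) (F (s, x))) = ContinuousLinearMap.id ℝ E := by
  have h1 := J_comp hF s (-s) (F (s, x))
  rw [hF.group, neg_add_cancel, hF.zero, add_neg_cancel, J_zero hF] at h1
  exact h1.symm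

theorem det_eq (A : E →L[ℝ] E) : A.det =
    ∑ σ : Equiv.Perm (Fin 3), Equiv.Perm.sign σ • ∏ i, (A (eb i)) (σ i) := by
  rw [ContinuousLinearMap.det, ← LinearMap.det_toMatrix (EuclideanSpace.basisFun (Fin 3) ℝ).toBasis,
    Matrix.det_apply]
  refine Finset.sum_congr rfl fun σ _ => ?_
  congr 1

theorem det_sm {V : Type*} [NormedAddCommGroup V] [NormedSpace ℝ V] {A : V → E →L[ℝ] E}
    (hA : Sm A) : Sm (fun x => (A x).det) := by
  simp only [det_eq]
  refine ContDiff.sum fun σ _ => ?_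
  refine ContDiff.const_smul _ ?_
  refine contDiff_prod fun i _ => ?_
  have h2 : Sm fun x => A x (eb i) := hA.clm_apply contDiff_const
  exact (contDiff_euclidean.mp h2) (σ i)

theorem pull_ae {ρ : E → ℝ} {U : TF ρ → ℝ → L2 ρ →L[ℝ] L2 ρ} (hU : IsPull ρ U) (T : TF ρ)
    {F : ℝ × E → E} (hF : IsFlow T.1 F) (s : ℝ) (w : L2 ρ) :
    (U T s w : E → E) =ᵐ[volume.restrict (D ρ)] fun x => adj (J F s x) (w (F (s, x))) :=
  hU T F hF s w

attribute [irreducible] adj

end PullM

end MPfab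
end

section
/-!
MP_fabde4_an, toolbox B, module PULL2 (helper69): group property, strong continuity, gradients and
derivative on smooth fields of the pull back of 1-forms.
-/
set_option autoImplicit false
open MeasureTheory Set Filter Topology

namespace MPfab

namespace Pull2M

open PullM

variable {ρ : E → ℝ} {U : TF ρ → ℝ → L2 ρ →L[ℝ] L2 ρ}

theorem zero (hFl : SpecFlowA) (hU : IsPull ρ U) (T : TF ρ) : U T 0 = 1 := by
  obtain ⟨R, hR⟩ := T.2.1
  obtain ⟨F, hF, -⟩ := hFl T.1 R hR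
  ext1 w
  apply Lp.ext
  filter_upwards [pull_ae hU T hF 0 w] with x e1
  rw [e1, J_zero hF, adj_id, hF.zero]
  rfl

theorem group (hFl : SpecFlowA) (hFt : SpecFtan) (hρ : DomN ρ) (hU : IsPull ρ U) (T : TF ρ)
    (s t : ℝ) (w : L2 ρ) : U T t (U T s w) = U T (s + t) w := by
  obtain ⟨R, hR⟩ := T.2.1
  obtain ⟨F, hF, -⟩ := hFl T.1 R hR
  apply Lp.ext
  filter_upwards [pull_ae hU T hF t (U T s w), pull_ae hU T hF (s + t) w,
    (flow_dif hFt hρ T hF t).ae (meas_D hρ.toDom) (pull_ae hU T hF s w)] with x e1 e2 e3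
  rw [e1, e2, e3, J_comp hF, adj_comp, hF.group]
  rfl

/-- the derivative on smooth fields -/
theorem deriv (hFl : SpecFlowA) (hFt : SpecFtan) (hρ : DomN ρ) (hU : IsPull ρ U) (T : TF ρ)
    {G : E → E} {w w' : L2 ρ} (hG : Sm G) (hw : (w : E → E) =ᵐ[volume.restrict (D ρ)] G)
    (hw' : (w' : E → E) =ᵐ[volume.restrict (D ρ)] lie T.1 G) :
    HasDerivAt (fun s => U T s w) w' 0 := by
  obtain ⟨R, hR⟩ := T.2.1
  obtain ⟨F, hF, -⟩ := hFl T.1 R hR
  have hfin := finite_D hρ.toDom
  have hs : Sm (fun p : ℝ × E => adj (J F p.1 p.2) (G (F p))) :=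
    (adj.contDiff.comp (J_sm hF.smooth)).clm_apply (hG.comp hF.smooth)
  obtain ⟨C, hC0, hC⟩ := taylor hs hρ.bdd
  have hd : ∀ x, dt (fun p : ℝ × E => adj (J F p.1 p.2) (G (F p))) (0, x) = lie T.1 G x :=
    fun x => (PDC.hasDerivAt_dt hs 0 x).unique (deriv_pull hF (hG.differentiable x))
  refine hasDerivAt_of_sq
    (C := (measureUnivNNReal (volume.restrict (D ρ)) : ℝ) ^ ((2 : ENNReal).toReal)⁻¹ * C)
    fun s hs1 => ?_
  have h1 : ‖U T s w - U T 0 w - s • w'‖ ≤
      (measureUnivNNReal (volume.restrict (D ρ)) : ℝ) ^ ((2 : ENNReal).toReal)⁻¹ * (C * s ^ 2) := by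
    refine Lp.norm_le_of_ae_bound (by positivity) ?_
    have hw1 := (flow_dif hFt hρ T hF s).ae (meas_D hρ.toDom) hw
    filter_upwards [Lp.coeFn_sub (U T s w - U T 0 w) (s • w'), Lp.coeFn_sub (U T s w) (U T 0 w),
      Lp.coeFn_smul s w', pull_ae hU T hF s w, hw1, hw, hw', ae_restrict_mem (meas_D hρ.toDom)]
      with x e1 e2 e3 e4 e5 e6 e7 hx
    rw [e1, Pi.sub_apply, e2, Pi.sub_apply, e3, Pi.smul_apply, e4, e5, e7, zero hFl hU T]
    have h2 := hC s x hs1 hx
    rw [hd] at h2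
    simp only [J_zero hF, adj_id, hF.zero] at h2
    rw [one_apply_eq_self, e6]
    exact h2
  rw [mul_assoc]
  exact h1

theorem exists_lie_class (hρ : DomN ρ) {T : E → E} (hT : Sm T) {G : E → E} (hG : Sm G) :
    ∃ w' : L2 ρ, (w' : E → E) =ᵐ[volume.restrict (D ρ)] lie T G := by
  have hfin := finite_D hρ.toDom
  obtain ⟨C, _, hC⟩ := bdd_at (hT.lie hG).continuous hρ.bdd
  have hm : MemLp (lie T G) 2 (volume.restrict (D ρ)) := by
    refine MemLp.of_bound (hT.lie hG).continuous.aestronglyMeasurable C ?_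
    filter_upwards [ae_restrict_mem (meas_D hρ.toDom)] with x hx using hC x hx
  exact ⟨hm.toLp _, MemLp.coeFn_toLp hm⟩

theorem cont (hFl : SpecFlowA) (hFt : SpecFtan) (hρ : DomN ρ) (hU : IsPull ρ U) (T : TF ρ)
    {K : ℝ} (hK : ∀ s, |s| ≤ 1 → ‖U T s‖ ≤ K) (w : L2 ρ) :
    ContinuousAt (fun s => U T s w) 0 := by
  have hfin := finite_D hρ.toDom
  have hK0 : 0 ≤ K := (norm_nonneg _).trans (hK 0 (by simp))
  obtain ⟨R, hR⟩ := T.2.1
  rw [Metric.continuousAt_iff]
  intro ε hε
  have hd := Lp.dense_hasCompactSupport_contDiff (E := E) (F := E) (μ := volume.restrict (D ρ))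
    (p := 2) (by norm_num)
  obtain ⟨v, hv, hvw⟩ := Metric.dense_iff.1 hd w (ε / (2 * (K + 1) + 1)) (by positivity)
  obtain ⟨G, hG1, -, hG3⟩ := hvw
  obtain ⟨w', hw'⟩ := exists_lie_class hρ hR.smooth hG3
  have hc := (deriv hFl hFt hρ hU T hG3 hG1 hw').continuousAt
  rw [Metric.continuousAt_iff] at hc
  obtain ⟨δ, hδ, hc⟩ := hc (ε / (2 * (K + 1) + 1)) (by positivity)
  refine ⟨min δ 1, lt_min hδ one_pos, fun {s} hs => ?_⟩
  have hs1 : |s| ≤ 1 := by
    have := hs.trans_le (min_le_right _ _)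
    rw [dist_zero_right, Real.norm_eq_abs] at this
    exact this.le
  have h1 := hc (hs.trans_le (min_le_left _ _))
  rw [dist_eq_norm] at h1 ⊢
  rw [Metric.mem_ball, dist_eq_norm] at hv
  have h2 : U T s w - U T 0 w = -(U T s (v - w)) + (U T s v - U T 0 v) + U T 0 (v - w) := by
    simp only [map_sub]
    abel
  rw [h2]
  have h3 : ‖U T s (v - w)‖ ≤ K * (ε / (2 * (K + 1) + 1)) :=
    ((U T s).le_opNorm _).trans (mul_le_mul (hK s hs1) hv.le (norm_nonneg _) hK0)
  have h4 : ‖U T 0 (v - w)‖ ≤ K * (ε / (2 * (K + 1) + 1)) :=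
    ((U T 0).le_opNorm _).trans (mul_le_mul (hK 0 (by simp)) hv.le (norm_nonneg _) hK0)
  have h5 : (2 * (K + 1) + 1) * (ε / (2 * (K + 1) + 1)) = ε := by
    field_simp
  have h6 : 0 < ε / (2 * (K + 1) + 1) := by positivity
  calc ‖-(U T s (v - w)) + (U T s v - U T 0 v) + U T 0 (v - w)‖
      ≤ ‖U T s (v - w)‖ + ‖U T s v - U T 0 v‖ + ‖U T 0 (v - w)‖ := by
        refine (norm_add_le _ _).trans (add_le_add_left ((norm_add_le _ _).trans ?_) _)
        rw [norm_neg]
    _ < ε := by nlinarith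

theorem grad_set (hFt : SpecFtan) (hρ : DomN ρ) (hU : IsPull ρ U) (T : TF ρ) {F : ℝ × E → E}
    (hF : IsFlow T.1 F) (s : ℝ) {k : L2 ρ} (hk : k ∈ gradSet ρ) : U T s k ∈ gradSet ρ := by
  obtain ⟨φ, hφ, hk⟩ := hk
  have hFs : Sm (fun x => F (s, x)) := hF.smooth.comp (contDiff_const.prodMk contDiff_id)
  refine ⟨fun x => φ (F (s, x)), hφ.comp hFs, ?_⟩
  filter_upwards [pull_ae hU T hF s k, (flow_dif hFt hρ T hF s).ae (meas_D hρ.toDom) hk]
    with x e1 e2
  rw [e1, e2]
  ext i
  rw [adj_coord, gr_apply]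
  have h1 : HasFDerivAt (fun x => φ (F (s, x))) ((fderiv ℝ φ (F (s, x))).comp (J F s x)) x :=
    ((hφ.differentiable (F (s, x))).hasFDerivAt).comp x (hFs.differentiable x).hasFDerivAt
  rw [pd_def, h1.fderiv, ContinuousLinearMap.comp_apply, fderiv_eq_sum φ]
  refine Finset.sum_congr rfl fun j _ => ?_
  rw [gr_apply, smul_eq_mul, mul_comm]

theorem mem_HG (hFl : SpecFlowA) (hFt : SpecFtan) (hρ : DomN ρ) (hU : IsPull ρ U) (T : TF ρ)
    (s : ℝ) {k : L2 ρ} (hk : k ∈ HG ρ) : U T s k ∈ HG ρ := by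
  obtain ⟨R, hR⟩ := T.2.1
  obtain ⟨F, hF, -⟩ := hFl T.1 R hR
  have h1 : Submodule.span ℝ (gradSet ρ) ≤ (HG ρ).comap (U T s : L2 ρ →ₗ[ℝ] L2 ρ) := by
    rw [Submodule.span_le]
    intro x hx
    exact Submodule.le_topologicalClosure _
      (Submodule.subset_span (grad_set hFt hρ hU T hF s hx))
  have hcl : IsClosed ((HG ρ).comap (U T s : L2 ρ →ₗ[ℝ] L2 ρ) : Set (L2 ρ)) :=
    (Submodule.isClosed_topologicalClosure _).preimage (U T s).continuous
  exact Submodule.topologicalClosure_minimal _ h1 hcl hk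

end Pull2M

open PullM Pull2M in
theorem specPull2 (hFl : SpecFlowA) (hFt : SpecFtan) : SpecPull2 := by
  intro ρ U hρ hU hK
  refine ⟨zero hFl hU, fun T w => ?_, fun T s k hk => mem_HG hFl hFt hρ hU T s hk,
    fun T s k hk => ⟨U T (-s) k, mem_HG hFl hFt hρ hU T (-s) hk, ?_⟩,
    fun T G w w' hG hw hw' => deriv hFl hFt hρ hU T hG hw hw'⟩
  · obtain ⟨K, hK⟩ := hK T
    exact cont hFl hFt hρ hU T hK w
  · rw [group hFl hFt hρ hU, neg_add_cancel, zero hFl hU]
    rfl

end MPfab
end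

section
/-!
MP_fabde4_an, toolbox B, module LIEC (helper69): the strong derivatives along tangential flows of a
field which is smooth in the open domain are the classical Lie derivatives.
-/
set_option autoImplicit false
open MeasureTheory Set Filter Topology

namespace MPfab

namespace LiecM

open PullM

variable {ρ : E → ℝ} {U : TF ρ → ℝ → L2 ρ →L[ℝ] L2 ρ}

theorem lie_of_deriv (hFl : SpecFlowA) (hFt : SpecFtan) (hρ : DomN ρ) (hU : IsPull ρ U) (T : TF ρ)
    {w w1 : L2 ρ} {w' : E → E} (hw' : ContDiffOn ℝ ((⊤ : ENat) : WithTop ENat) w' (D ρ))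
    (hw : (w : E → E) =ᵐ[volume.restrict (D ρ)] w')
    (hd : HasDerivAt (fun s => U T s w) w1 0) :
    (w1 : E → E) =ᵐ[volume.restrict (D ρ)] lie T.1 w' := by
  obtain ⟨R, hR⟩ := T.2.1
  obtain ⟨F, hF, -⟩ := hFl T.1 R hR
  have hfin := finite_D hρ.toDom
  have hs0 : Tendsto (fun n : ℕ => 1 / ((n : ℝ) + 1)) atTop (𝓝[≠] 0) := by
    rw [tendsto_nhdsWithin_iff]
    refine ⟨tendsto_one_div_add_atTop_nhds_zero_nat, Eventually.of_forall fun n => ?_⟩
    have : (0 : ℝ) < 1 / ((n : ℝ) + 1) := by positivity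
    exact this.ne'
  have h1 := (hasDerivAt_iff_tendsto_slope.1 hd).comp hs0
  have h2 : TendstoInMeasure (volume.restrict (D ρ))
      (fun (n : ℕ) x => ((slope (fun s => U T s w) 0 (1 / ((n : ℝ) + 1)) : L2 ρ) : E → E) x) atTop
      (w1 : E → E) := tendstoInMeasure_of_tendsto_Lp h1
  obtain ⟨ns, hns, h3⟩ := h2.exists_seq_tendsto_ae
  have h4 : ∀ n : ℕ, ∀ᵐ x ∂(volume.restrict (D ρ)),
      ((slope (fun s => U T s w) 0 (1 / ((n : ℝ) + 1)) : L2 ρ) : E → E) x =
      slope (fun s => adj (J F s x) (w' (F (s, x)))) 0 (1 / ((n : ℝ) + 1)) := by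
    intro n
    have e1 := (flow_dif hFt hρ T hF (1 / ((n : ℝ) + 1))).ae (meas_D hρ.toDom) hw
    have e2 := (flow_dif hFt hρ T hF 0).ae (meas_D hρ.toDom) hw
    filter_upwards [e1, e2, pull_ae hU T hF (1 / ((n : ℝ) + 1)) w, pull_ae hU T hF 0 w,
      Lp.coeFn_sub (U T (1 / ((n : ℝ) + 1)) w) (U T 0 w),
      Lp.coeFn_smul (1 / ((n : ℝ) + 1) - 0)⁻¹ (U T (1 / ((n : ℝ) + 1)) w - U T 0 w)]
      with x f1 f2 f3 f4 f5 f6
    simp only [slope_def_module]
    rw [f6, Pi.smul_apply, f5, Pi.sub_apply, f3, f4, f1, f2]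
  filter_upwards [h3, ae_all_iff.2 h4, ae_restrict_mem (meas_D hρ.toDom)] with x e1 e2 hx
  have hdiff : DifferentiableAt ℝ w' x :=
    (hw'.contDiffAt ((isOpen_D hρ.toDom).mem_nhds hx)).differentiableAt (by simp)
  have h5 := ((hasDerivAt_iff_tendsto_slope.1 (deriv_pull hF hdiff)).comp hs0).comp hns.tendsto_atTop
  refine tendsto_nhds_unique e1 ?_
  refine h5.congr fun i => ?_
  exact (e2 (ns i)).symm

theorem lie_smooth (hρ : Dom ρ) {T w' : E → E} (hT : Sm T)
    (hw' : ContDiffOn ℝ ((⊤ : ENat) : WithTop ENat) w' (D ρ)) :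
    ContDiffOn ℝ ((⊤ : ENat) : WithTop ENat) (lie T w') (D ρ) := by
  have h1 : lie T w' = fun x => adj (fderiv ℝ T x) (w' x) + fderiv ℝ w' x (T x) :=
    funext fun x => lie_eq T w' x
  rw [h1]
  have hT' : ContDiffOn ℝ ((⊤ : ENat) : WithTop ENat) (fderiv ℝ T) (D ρ) :=
    (hT.fderiv_right (m := ((⊤ : ENat) : WithTop ENat)) (by simp)).contDiffOn
  have hw2 : ContDiffOn ℝ ((⊤ : ENat) : WithTop ENat) (fderiv ℝ w') (D ρ) :=
    hw'.fderiv_of_isOpen (isOpen_D hρ) (by simp)
  exact ((adj.contDiff.comp_contDiffOn hT').clm_apply hw').add (hw2.clm_apply hT.contDiffOn)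

end LiecM

open PullM LiecM in
theorem specLiec (hFl : SpecFlowA) (hFt : SpecFtan) : SpecLiec := by
  intro ρ U w w' hρ hU hw' hw hD k
  have hm : ∀ (v : L2 ρ) (v' : E → E), (v : E → E) =ᵐ[volume.restrict (D ρ)] v' →
      MemLp v' 2 (volume.restrict (D ρ)) := fun v v' hv => (memLp_congr_ae hv).1 (Lp.memLp v)
  induction k generalizing w w' with
  | zero => exact hm w w' hw
  | succ k ih =>
    refine ⟨hm w w' hw, fun T hT hT2 => ?_⟩
    let T' : TF ρ := ⟨T, hT, hT2⟩
    obtain ⟨w1, hd, -⟩ := hD 1 T'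
    obtain ⟨R, hR⟩ := hT
    refine ih w1 (lie T w') (lie_smooth hρ.toDom hR.smooth hw')
      (lie_of_deriv hFl hFt hρ hU T' hw' hw hd) fun j => ?_
    obtain ⟨w2, hd2, h2⟩ := hD (j + 1) T'
    rw [hd.unique hd2]
    exact h2

end MPfab
end

section
/-!
MP_fabde4_an, toolbox B, module MULOP (helper69): multiplication by a smooth matrix.
-/
set_option autoImplicit false
open MeasureTheory Set Filter Topology

namespace MPfab

namespace MulM

open PullM

/-- multiplication operator with a continuous matrix -/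
theorem exists_mul {ρ : E → ℝ} (hρ : Dom ρ) {A : E → E →L[ℝ] E} (hA : Continuous A) :
    ∃ W : L2 ρ →L[ℝ] L2 ρ, ∀ w, (W w : E → E) =ᵐ[volume.restrict (D ρ)] fun x => A x (w x) := by
  obtain ⟨C, h0, hC⟩ := bdd_at hA hρ.bdd
  obtain ⟨W, hW, -⟩ := exists_op (Dif.id (D ρ)) (meas_D hρ) hA (C1 := C) (C2 := 1) (C := C) hC
    (fun x _ => by
      have : (fun x : E => x) = id := rfl
      rw [this, fderiv_id]
      simp [ContinuousLinearMap.det]) h0 (by linarith)
  exact ⟨W, hW⟩

end MulM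

open PullM MulM in
theorem specMulop : SpecMulop := by
  intro ρ B hρ hB
  have hBs : ∀ s : ℝ, Sm (fun x => B (s, x)) := fun s =>
    hB.comp (contDiff_const.prodMk contDiff_id)
  have h1 : ∀ s : ℝ, ∃ W : L2 ρ →L[ℝ] L2 ρ, ∀ w : L2 ρ,
      (W w : E → E) =ᵐ[volume.restrict (D ρ)] fun x => B (s, x) (w x) := fun s =>
    exists_mul hρ (hBs s).continuous
  choose a ha using h1
  have hB' : Sm (fun x => dt B (0, x)) :=
    (PDC.dt_smooth hB).comp (contDiff_const.prodMk contDiff_id)
  obtain ⟨a', ha'⟩ := exists_mul hρ hB'.continuous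
  refine ⟨a, ha, a', ⟨_, hB', ha'⟩, ?_⟩
  obtain ⟨C, hC0, hC⟩ := taylor hB hρ.bdd
  refine hasDerivAt_of_sq (C := C) fun s hs => ?_
  refine norm_op_le (meas_D hρ) (A := fun x => B (s, x) - B (0, x) - s • dt B (0, x))
    (by positivity) (fun x hx => hC s x hs hx) _ fun w => ?_
  show ((a s w - a 0 w - s • a' w : L2 ρ) : E → E) =ᵐ[_] _
  filter_upwards [ha s w, ha 0 w, ha' w, Lp.coeFn_sub (a s w - a 0 w) (s • a' w),
    Lp.coeFn_sub (a s w) (a 0 w), Lp.coeFn_smul s (a' w)] with x e1 e2 e3 e4 e5 e6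
  rw [e4, Pi.sub_apply, e5, Pi.sub_apply, e6, Pi.smul_apply, e1, e2, e3]
  rfl

end MPfab
end

section
/-!
MP_fabde4_an, toolbox B, module PULL1 (helper69): the pull back of 1-forms by the flow of a
tangential field is a bounded operator of `L²(D)`.
-/
set_option autoImplicit false
open MeasureTheory Set Filter Topology

namespace MPfab

namespace Pull1M

open PullM

/-- existence for one field -/
theorem exists_one (hFt : SpecFtan) {ρ : E → ℝ} (hρ : DomN ρ) (T : TF ρ) {F : ℝ × E → E}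
    (hF : IsFlow T.1 F) : ∃ (U : ℝ → L2 ρ →L[ℝ] L2 ρ) (K : ℝ),
      (∀ s (w : L2 ρ), (U s w : E → E) =ᵐ[volume.restrict (D ρ)]
        fun x => adj (J F s x) (w (F (s, x)))) ∧ ∀ s, |s| ≤ 1 → ‖U s‖ ≤ K := by
  have hJ := J_sm hF.smooth
  have hJa : Continuous fun p : ℝ × E => adj (J F p.1 p.2) := adj.continuous.comp hJ.continuous
  have hdet : Continuous fun p : ℝ × E => (J F p.1 p.2).det := (det_sm hJ).continuous
  have hdet' : Continuous fun p : ℝ × E => (J F (-p.1) p.2).det :=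
    Continuous.comp (g := fun p : ℝ × E => (J F p.1 p.2).det) (f := fun p : ℝ × E => (-p.1, p.2))
      hdet (by fun_prop)
  obtain ⟨C1, h10, h1⟩ := bdd_of_cont hJa hρ.bdd
  obtain ⟨C2, h20, h2⟩ := bdd_of_cont hdet' hρ.bdd
  have key : ∀ s : ℝ, ∃ W : L2 ρ →L[ℝ] L2 ρ, (∀ w : L2 ρ,
      (W w : E → E) =ᵐ[volume.restrict (D ρ)] fun x => adj (J F s x) (w (F (s, x)))) ∧
      (|s| ≤ 1 → ‖W‖ ≤ C1 * Real.sqrt C2) := by
    intro s
    have hA : Continuous fun x => adj (J F s x) :=
      Continuous.comp (g := fun p : ℝ × E => adj (J F p.1 p.2)) (f := fun x : E => (s, x)) hJa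
        (by fun_prop)
    by_cases hs : |s| ≤ 1
    · obtain ⟨W, hW, hb⟩ := exists_op (flow_dif hFt hρ T hF s) (meas_D hρ.toDom) hA
        (C1 := C1) (C2 := C2) (C := C1 * Real.sqrt C2) (fun x hx => h1 s x hs hx)
        (fun x hx => by
          have h3 := h2 s x hs hx
          rw [Real.norm_eq_abs] at h3
          exact h3) (by positivity) (by
          rw [mul_pow, Real.sq_sqrt h20])
      exact ⟨W, hW, fun _ => hb⟩
    · obtain ⟨c1, c10, hc1⟩ := bdd_at hA hρ.bdd
      have hd : Continuous fun x => (J F (-s) x).det :=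
        Continuous.comp (g := fun p : ℝ × E => (J F p.1 p.2).det) (f := fun x : E => (-s, x)) hdet
          (by fun_prop)
      obtain ⟨c2, c20, hc2⟩ := bdd_at hd hρ.bdd
      obtain ⟨W, hW, -⟩ := exists_op (flow_dif hFt hρ T hF s) (meas_D hρ.toDom) hA
        (C1 := c1) (C2 := c2) (C := c1 * Real.sqrt c2) (fun x hx => hc1 x hx)
        (fun x hx => by
          have h3 := hc2 x hx
          rw [Real.norm_eq_abs] at h3
          exact h3) (by positivity) (by
          rw [mul_pow, Real.sq_sqrt c20])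
      exact ⟨W, hW, fun h => absurd h hs⟩
  choose U hU hb using key
  exact ⟨U, _, hU, hb⟩

end Pull1M

open PullM Pull1M in
theorem specPull1 (hFl : SpecFlowA) (hFt : SpecFtan) : SpecPull1 := by
  intro ρ hρ
  have h1 : ∀ T : TF ρ, ∃ (F : ℝ × E → E), IsFlow T.1 F := fun T => by
    obtain ⟨R, hR⟩ := T.2.1
    obtain ⟨F, hF, -⟩ := hFl T.1 R hR
    exact ⟨F, hF⟩
  choose F hF using h1
  have h2 := fun T => exists_one hFt hρ T (hF T)
  choose U K hU hK using h2
  refine ⟨U, ?_, fun T => ⟨K T, hK T⟩⟩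
  intro T F' hF' s w
  obtain ⟨R, hR⟩ := T.2.1
  rw [flow_unique hR hF' (hF T)]
  have h3 := hU T s w
  simp only [adj_apply] at h3
  exact h3

end MPfab
end

section
/-!
MP_fabde4_an, toolbox B, module PULL3 (helper69): change of variables for the pull back of 1-forms and
the rule for multiplication operators.
-/
set_option autoImplicit false
open MeasureTheory Set Filter Topology

namespace MPfab

namespace Pull3M

open PullM

/-- the inverse of the spatial derivative -/
noncomputable def Ji (F : ℝ × E → E) (s : ℝ) (x : E) : E →L[ℝ] E := J F (-s) (F (s, x))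

theorem Ji_sm {F : ℝ × E → E} (hF : Sm F) : Sm (fun p : ℝ × E => Ji F p.1 p.2) := by
  have h1 : Sm (fun p : ℝ × E => ((-p.1, F p) : ℝ × E)) := contDiff_fst.neg.prodMk hF
  exact (J_sm hF).comp h1

theorem J_Ji {T : E → E} {F : ℝ × E → E} (hF : IsFlow T F) (s : ℝ) (x : E) :
    (J F s x).comp (Ji F s x) = ContinuousLinearMap.id ℝ E := J_inv' hF s x

theorem Ji_J {T : E → E} {F : ℝ × E → E} (hF : IsFlow T F) (s : ℝ) (x : E) :
    (Ji F s x).comp (J F s x) = ContinuousLinearMap.id ℝ E := J_inv hF s x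

theorem adj_Ji_J {T : E → E} {F : ℝ × E → E} (hF : IsFlow T F) (s : ℝ) (x v : E) :
    adj (Ji F s x) (adj (J F s x) v) = v := by
  have h1 : (adj (Ji F s x)).comp (adj (J F s x)) = ContinuousLinearMap.id ℝ E := by
    rw [← adj_comp, J_Ji hF, adj_id]
  exact DFunLike.congr_fun h1 v

theorem inner_adj (A : E →L[ℝ] E) (u v : E) : inner ℝ u (adj A v) = inner ℝ (A u) v := by
  rw [adj_apply, ContinuousLinearMap.adjoint_inner_right]

theorem det_ne {T : E → E} {F : ℝ × E → E} (hF : IsFlow T F) (s : ℝ) (x : E) :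
    (J F s x).det ≠ 0 := by
  intro h0
  have h1 : ((Ji F s x).comp (J F s x)).det = (Ji F s x).det * (J F s x).det := by
    simp only [ContinuousLinearMap.det, ContinuousLinearMap.toLinearMap_comp, LinearMap.det_comp]
  rw [Ji_J hF, h0, mul_zero] at h1
  simp [ContinuousLinearMap.det] at h1

theorem det_pos {T : E → E} {F : ℝ × E → E} (hF : IsFlow T F) (s : ℝ) (x : E) :
    0 < (J F s x).det := by
  by_contra hn
  rw [not_lt] at hn
  have hc : Continuous fun r : ℝ => (J F r x).det :=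
    Continuous.comp (g := fun p : ℝ × E => (J F p.1 p.2).det) (f := fun r : ℝ => (r, x))
      (det_sm (J_sm hF.smooth)).continuous (by fun_prop)
  have h1 : (J F 0 x).det = 1 := by
    rw [J_zero hF]
    simp [ContinuousLinearMap.det]
  obtain ⟨r, hr⟩ := mem_range_of_exists_le_of_exists_ge (c := (0 : ℝ)) hc ⟨s, hn⟩
    ⟨0, by rw [h1]; norm_num⟩
  exact det_ne hF r x hr

theorem exists_M (hMul : SpecMulop) (hFl : SpecFlowA) (hFt : SpecFtan) {ρ : E → ℝ}
    {U : TF ρ → ℝ → L2 ρ →L[ℝ] L2 ρ} (hρ : DomN ρ) (hU : IsPull ρ U) (T : TF ρ) :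
    ∃ (M : ℝ → L2 ρ →L[ℝ] L2 ρ) (M' : L2 ρ →L[ℝ] L2 ρ), M 0 = 1 ∧
    HasDerivAt M M' 0 ∧ M' ∈ MulOps ρ ∧
    (∀ s a b, inner ℝ a b = inner ℝ (M s (U T s a)) (U T s b)) := by
  obtain ⟨R, hR⟩ := T.2.1
  obtain ⟨F, hF, -⟩ := hFl T.1 R hR
  have hB : Sm (fun p : ℝ × E => (J F p.1 p.2).det • (Ji F p.1 p.2).comp (adj (Ji F p.1 p.2))) :=
    (det_sm (J_sm hF.smooth)).smul ((Ji_sm hF.smooth).clm_comp
      (adj.contDiff.comp (Ji_sm hF.smooth)))
  obtain ⟨M, hM, M', hM', hd⟩ := hMul ρ _ hρ.toDom hB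
  refine ⟨M, M', ?_, hd, hM', ?_⟩
  · ext1 w
    apply Lp.ext
    filter_upwards [hM 0 w] with x e1
    have h1 : Ji F 0 x = ContinuousLinearMap.id ℝ E := by
      unfold Ji
      rw [neg_zero, J_zero hF]
    rw [e1]
    simp only [h1, J_zero hF, adj_id]
    simp [ContinuousLinearMap.det]
  · intro s a b
    rw [MeasureTheory.L2.inner_def, MeasureTheory.L2.inner_def,
      (flow_dif hFt hρ T hF s).int (meas_D hρ.toDom)]
    refine integral_congr_ae ?_
    filter_upwards [hM s (U T s a), pull_ae hU T hF s a, pull_ae hU T hF s b] with x e1 e2 e3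
    have h1 : fderiv ℝ (fun x => F (s, x)) x = J F s x := rfl
    rw [h1, abs_of_pos (det_pos hF s x)]
    simp only [e1, e2, e3]
    rw [smul_apply, ContinuousLinearMap.comp_apply, adj_Ji_J hF,
      inner_smul_left, inner_adj]
    have h2 : (J F s x) ((Ji F s x) (a (F (s, x)))) = a (F (s, x)) :=
      DFunLike.congr_fun (J_Ji hF s x) _
    rw [h2]
    simp

theorem rule (hMul : SpecMulop) (hFl : SpecFlowA) (hFt : SpecFtan) {ρ : E → ℝ}
    {U : TF ρ → ℝ → L2 ρ →L[ℝ] L2 ρ} (hρ : DomN ρ) (hU : IsPull ρ U) (T : TF ρ)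
    {a : L2 ρ →L[ℝ] L2 ρ} (ha : a ∈ MulOps ρ) :
    ∃ a' ∈ MulOps ρ, ∀ w w', HasDerivAt (fun s => U T s w) w' 0 →
      HasDerivAt (fun s => U T s (a w)) (a w' + a' w) 0 := by
  obtain ⟨R, hR⟩ := T.2.1
  obtain ⟨F, hF, -⟩ := hFl T.1 R hR
  obtain ⟨B, hB, hBa⟩ := ha
  have hBs : Sm (fun p : ℝ × E => (adj (J F p.1 p.2)).comp
      ((B (F p)).comp (adj (Ji F p.1 p.2)))) :=
    (adj.contDiff.comp (J_sm hF.smooth)).clm_comp ((hB.comp hF.smooth).clm_comp
      (adj.contDiff.comp (Ji_sm hF.smooth)))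
  obtain ⟨b, hb, b', hb', hd⟩ := hMul ρ _ hρ.toDom hBs
  have h0 : b 0 = a := by
    ext1 w
    apply Lp.ext
    filter_upwards [hb 0 w, hBa w] with x e1 e2
    have h1 : Ji F 0 x = ContinuousLinearMap.id ℝ E := by
      unfold Ji
      rw [neg_zero, J_zero hF]
    rw [e1, e2]
    simp only [h1, J_zero hF, adj_id, hF.zero]
    rfl
  have hs : ∀ s w, U T s (a w) = b s (U T s w) := by
    intro s w
    apply Lp.ext
    filter_upwards [hb s (U T s w), pull_ae hU T hF s (a w), pull_ae hU T hF s w,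
      (flow_dif hFt hρ T hF s).ae (meas_D hρ.toDom) (hBa w)] with x e1 e2 e3 e4
    rw [e1, e2, e3, e4]
    simp only [ContinuousLinearMap.comp_apply]
    rw [adj_Ji_J hF]
  refine ⟨b', hb', fun w w' hw => ?_⟩
  have h2 := hd.clm_apply hw
  rw [Pull2M.zero hFl hU T, h0, one_apply_eq_self, add_comm] at h2
  simp only [hs]
  exact h2

end Pull3M

open Pull3M in
theorem specPull3 (hFl : SpecFlowA) (hFt : SpecFtan) (hMul : SpecMulop) : SpecPull3 := by
  intro ρ U hρ hU
  have h1 := exists_M hMul hFl hFt hρ hU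
  choose M M' h0 hd hm hi using h1
  exact ⟨⟨M, M', h0, hd, hm, hi⟩, fun T a ha => rule hMul hFl hFt hρ hU T ha⟩

end MPfab
end

section
/-!
MP_fabde4_an, modules HSB and MULT: basic properties of the squared `H^k` norms `hs`, and
multiplication by smooth coefficients.
-/
set_option autoImplicit false
open MeasureTheory Set

namespace MPfab

namespace HSB

variable {F : Type*} [NormedAddCommGroup F] [NormedSpace ℝ F]

theorem nonneg (S : Set E) (k : ℕ) (f : E → F) : 0 ≤ hs S k f := by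
  induction k generalizing f with
  | zero => exact integral_nonneg fun x => by positivity
  | succ k ih =>
    exact add_nonneg (integral_nonneg fun x => by positivity) (Finset.sum_nonneg fun i _ => ih _)

theorem zero_eq (S : Set E) (f : E → F) : hs S 0 f = ∫ x in S, ‖f x‖ ^ 2 := rfl

theorem succ_eq (S : Set E) (k : ℕ) (f : E → F) :
    hs S (k + 1) f = (∫ x in S, ‖f x‖ ^ 2) + ∑ i, hs S k (pd i f) := rfl

theorem zero_le_hs (S : Set E) (k : ℕ) (f : E → F) : (∫ x in S, ‖f x‖ ^ 2) ≤ hs S k f := by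
  cases k with
  | zero => exact le_rfl
  | succ k =>
    rw [succ_eq]
    exact le_add_of_nonneg_right (Finset.sum_nonneg fun i _ => nonneg S k _)

theorem mono_succ (S : Set E) (k : ℕ) (f : E → F) : hs S k f ≤ hs S (k + 1) f := by
  induction k generalizing f with
  | zero => exact zero_le_hs S 1 f
  | succ k ih =>
    rw [succ_eq, succ_eq]
    exact add_le_add le_rfl (Finset.sum_le_sum fun i _ => ih _)

theorem mono (S : Set E) {j k : ℕ} (f : E → F) (h : j ≤ k) : hs S j f ≤ hs S k f := by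
  induction k, h using Nat.le_induction with
  | base => exact le_rfl
  | succ k _ ih => exact ih.trans (mono_succ S k f)

theorem pd_le (S : Set E) (k : ℕ) (i : Fin 3) (f : E → F) :
    hs S k (pd i f) ≤ hs S (k + 1) f := by
  rw [succ_eq]
  have h1 : hs S k (pd i f) ≤ ∑ i, hs S k (pd i f) :=
    Finset.single_le_sum (f := fun i => hs S k (pd i f)) (fun i _ => nonneg S k _)
      (Finset.mem_univ i)
  have h2 : 0 ≤ ∫ x in S, ‖f x‖ ^ 2 := integral_nonneg fun x => by positivity
  linarith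

theorem pds_le (S : Set E) (k : ℕ) (L : List (Fin 3)) (f : E → F) :
    hs S k (pds L f) ≤ hs S (k + L.length) f := by
  induction L generalizing k with
  | nil => exact le_rfl
  | cons i L ih =>
    calc hs S k (pds (i :: L) f) ≤ hs S (k + 1) (pds L f) := pd_le S k i _
      _ ≤ hs S (k + 1 + L.length) f := ih (k + 1)
      _ = hs S (k + (i :: L).length) f := by rw [List.length_cons]; congr 1; omega

/-- integrability of a continuous function on a bounded set or if it has compact support -/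
theorem integrableOn {S : Set E} {g : E → ℝ} (hg : Continuous g)
    (h : Bornology.IsBounded S ∨ HasCompactSupport g) : IntegrableOn g S := by
  rcases h with h | h
  · obtain ⟨R, hR⟩ := h.subset_closedBall 0
    exact (hg.continuousOn.integrableOn_compact (isCompact_closedBall (0 : E) R)).mono_set hR
  · exact (hg.integrable_of_hasCompactSupport h).integrableOn

theorem hcs_pd {f : E → F} (h : HasCompactSupport f) (i : Fin 3) : HasCompactSupport (pd i f) := by
  have h1 : HasCompactSupport (fderiv ℝ f) := h.fderiv ℝ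
  exact h1.comp_left (g := fun A : E →L[ℝ] F => A (eb i)) (by simp)

omit [NormedSpace ℝ F] in
theorem hcs_sq {f : E → F} (h : HasCompactSupport f) :
    HasCompactSupport (fun x => ‖f x‖ ^ 2) :=
  h.comp_left (g := fun v : F => ‖v‖ ^ 2) (by simp)

theorem sq_cont {f : E → F} (h : Sm f) : Continuous (fun x => ‖f x‖ ^ 2) :=
  h.continuous.norm.pow 2

theorem int_sq {S : Set E} {f : E → F} (hf : Sm f)
    (h : Bornology.IsBounded S ∨ HasCompactSupport f) : IntegrableOn (fun x => ‖f x‖ ^ 2) S :=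
  integrableOn (sq_cont hf) (h.imp id hcs_sq)

theorem mono_set {S S' : Set E} (k : ℕ) (f : E → F) (hSS : S ⊆ S')
    (hb : Bornology.IsBounded S' ∨ HasCompactSupport f) (hf : Sm f) : hs S k f ≤ hs S' k f := by
  have h0 : ∀ g : E → F, Sm g → (Bornology.IsBounded S' ∨ HasCompactSupport g) →
      ∫ x in S, ‖g x‖ ^ 2 ≤ ∫ x in S', ‖g x‖ ^ 2 := by
    intro g hg hb
    exact setIntegral_mono_set (int_sq hg hb)
      (Filter.Eventually.of_forall fun x => by positivity)
      (Filter.Eventually.of_forall hSS)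
  induction k generalizing f with
  | zero => exact h0 f hf hb
  | succ k ih =>
    rw [succ_eq, succ_eq]
    exact add_le_add (h0 f hf hb)
      (Finset.sum_le_sum fun i _ => ih (pd i f) (hb.imp id (fun h => hcs_pd h i)) (hf.pd i))

theorem congr {S : Set E} (k : ℕ) (f g : E → F) (hS : IsOpen S) (h : ∀ x ∈ S, f x = g x) :
    hs S k f = hs S k g := by
  induction k generalizing f g with
  | zero =>
    exact setIntegral_congr_fun hS.measurableSet fun x hx => by
      show ‖f x‖ ^ 2 = ‖g x‖ ^ 2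
      rw [h x hx]
  | succ k ih =>
    rw [succ_eq, succ_eq]
    congr 1
    · exact setIntegral_congr_fun hS.measurableSet fun x hx => by
        show ‖f x‖ ^ 2 = ‖g x‖ ^ 2
        rw [h x hx]
    · refine Finset.sum_congr rfl fun i _ => ih _ _ fun x hx => ?_
      unfold pd
      have : f =ᶠ[nhds x] g := by
        filter_upwards [hS.mem_nhds hx] with y hy
        exact h y hy
      rw [this.fderiv_eq]

omit [NormedSpace ℝ F] in
theorem norm_add_sq_le (a b : F) : ‖a + b‖ ^ 2 ≤ 2 * ‖a‖ ^ 2 + 2 * ‖b‖ ^ 2 := by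
  have h1 := norm_add_le a b
  have h2 := norm_nonneg (a + b)
  nlinarith [sq_nonneg (‖a‖ - ‖b‖), norm_nonneg a, norm_nonneg b]

theorem add_le {S : Set E} (k : ℕ) (f g : E → F)
    (hb : Bornology.IsBounded S ∨ (HasCompactSupport f ∧ HasCompactSupport g))
    (hf : Sm f) (hg : Sm g) :
    hs S k (fun x => f x + g x) ≤ 2 * hs S k f + 2 * hs S k g := by
  have h0 : ∀ f g : E → F, Sm f → Sm g →
      (Bornology.IsBounded S ∨ (HasCompactSupport f ∧ HasCompactSupport g)) →
      ∫ x in S, ‖f x + g x‖ ^ 2 ≤ 2 * (∫ x in S, ‖f x‖ ^ 2) + 2 * ∫ x in S, ‖g x‖ ^ 2 := by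
    intro f g hf hg hb
    have i1 := int_sq hf (hb.imp id fun h => h.1)
    have i2 := int_sq hg (hb.imp id fun h => h.2)
    have i3 : IntegrableOn (fun x => ‖f x + g x‖ ^ 2) S :=
      int_sq (hf.add hg) (hb.imp id fun h => h.1.add h.2)
    rw [← integral_const_mul, ← integral_const_mul,
      ← integral_add (i1.const_mul 2) (i2.const_mul 2)]
    exact integral_mono i3 ((i1.const_mul 2).add (i2.const_mul 2))
      fun x => norm_add_sq_le (f x) (g x)
  induction k generalizing f g with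
  | zero => exact h0 f g hf hg hb
  | succ k ih =>
    rw [succ_eq, succ_eq, succ_eq]
    have h1 := h0 f g hf hg hb
    have h2 : ∑ i, hs S k (pd i fun x => f x + g x) ≤
        ∑ i, (2 * hs S k (pd i f) + 2 * hs S k (pd i g)) := by
      refine Finset.sum_le_sum fun i _ => ?_
      have e : (pd i fun x => f x + g x) = fun x => pd i f x + pd i g x := by
        funext x
        exact PDC.pd_add (hf.differentiable x) (hg.differentiable x) i
      rw [e]
      exact ih (pd i f) (pd i g) (hb.imp id fun h => ⟨hcs_pd h.1 i, hcs_pd h.2 i⟩) (hf.pd i)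
        (hg.pd i)
    rw [Finset.sum_add_distrib, ← Finset.mul_sum, ← Finset.mul_sum] at h2
    linarith

theorem smul (S : Set E) (k : ℕ) (c : ℝ) (f : E → F) (hf : Sm f) :
    hs S k (fun x => c • f x) = c ^ 2 * hs S k f := by
  have h0 : ∀ f : E → F, ∫ x in S, ‖c • f x‖ ^ 2 = c ^ 2 * ∫ x in S, ‖f x‖ ^ 2 := by
    intro f
    rw [← integral_const_mul]
    congr 1
    funext x
    rw [norm_smul, mul_pow, Real.norm_eq_abs, sq_abs]
  induction k generalizing f with
  | zero => exact h0 f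
  | succ k ih =>
    rw [succ_eq, succ_eq, h0, mul_add, Finset.mul_sum]
    congr 1
    refine Finset.sum_congr rfl fun i _ => ?_
    have e : (pd i fun x => c • f x) = fun x => c • pd i f x := by
      funext x
      exact PDC.pd_const_smul c (hf.differentiable x) i
    rw [e]
    exact ih (pd i f) (hf.pd i)

theorem norm_sq_eq (v : E) : ‖v‖ ^ 2 = ∑ j, ‖v j‖ ^ 2 := EuclideanSpace.norm_sq_eq v

theorem comp {S : Set E} (k : ℕ) (w : E → E)
    (hb : Bornology.IsBounded S ∨ HasCompactSupport w) (hw : Sm w) :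
    hs S k w = ∑ j, hs S k (fun x => w x j) := by
  have hc : ∀ w : E → E, HasCompactSupport w → ∀ j, HasCompactSupport (fun x => w x j) := by
    intro w hw j
    exact hw.comp_left (g := fun v : E => v j) (by simp)
  have h0 : ∀ w : E → E, Sm w → (Bornology.IsBounded S ∨ HasCompactSupport w) →
      ∫ x in S, ‖w x‖ ^ 2 = ∑ j, ∫ x in S, ‖w x j‖ ^ 2 := by
    intro w hw hb
    rw [← integral_finsetSum]
    · congr 1
      funext x
      exact norm_sq_eq (w x)
    · intro j _
      exact int_sq (hw.comp_apply j) (hb.imp id fun h => hc w h j)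
  induction k generalizing w with
  | zero => exact h0 w hw hb
  | succ k ih =>
    rw [succ_eq, h0 w hw hb]
    simp only [succ_eq]
    rw [Finset.sum_add_distrib]
    congr 1
    rw [Finset.sum_comm]
    refine Finset.sum_congr rfl fun i _ => ?_
    rw [ih (pd i w) (hb.imp id fun h => hcs_pd h i) (hw.pd i)]
    refine Finset.sum_congr rfl fun j _ => ?_
    rw [PDC.pd_comp hw]

/-- the lists of partial derivatives in `hs` -/
def lists : ℕ → List (List (Fin 3))
  | 0 => [[]]
  | k + 1 => [] :: ((lists k).map (fun L => L ++ [0]) ++ (lists k).map (fun L => L ++ [1]) ++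
      (lists k).map (fun L => L ++ [2]))

theorem lists_length (k : ℕ) : ∀ L ∈ lists k, L.length ≤ k := by
  induction k with
  | zero => intro L hL; simp only [lists, List.mem_singleton] at hL; simp [hL]
  | succ k ih =>
    intro L hL
    simp only [lists, List.mem_cons, List.mem_append, List.mem_map] at hL
    rcases hL with rfl | (⟨L', hL', rfl⟩ | ⟨L', hL', rfl⟩) | ⟨L', hL', rfl⟩
    · simp
    all_goals
      have := ih L' hL'
      simp only [List.length_append, List.length_singleton]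
      omega

theorem pds_append_singleton (L : List (Fin 3)) (i : Fin 3) (f : E → F) :
    pds (L ++ [i]) f = pds L (pd i f) := by
  induction L with
  | nil => rfl
  | cons j L ih =>
    show pd j (pds (L ++ [i]) f) = pd j (pds L (pd i f))
    rw [ih]

theorem eq_lists (S : Set E) (k : ℕ) (f : E → F) :
    hs S k f = ((lists k).map fun L => ∫ x in S, ‖pds L f x‖ ^ 2).sum := by
  induction k generalizing f with
  | zero => simp [lists, zero_eq, pds]
  | succ k ih =>
    rw [succ_eq]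
    simp only [lists, List.map_cons, List.sum_cons, List.map_append, List.sum_append,
      List.map_map, Function.comp_def]
    have h1 : ∀ i : Fin 3, hs S k (pd i f) =
        ((lists k).map fun L => ∫ x in S, ‖pds (L ++ [i]) f x‖ ^ 2).sum := by
      intro i
      rw [ih]
      simp only [pds_append_singleton]
    rw [Fin.sum_univ_three, h1, h1, h1]
    rfl

/-! ### multiplication by smooth coefficients -/

theorem mul_le {S : Set E} (hS : MeasurableSet S) (hb : Bornology.IsBounded S) (a : E → ℝ)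
    (ha : Sm a) (k : ℕ) : ∃ C : ℝ, 0 ≤ C ∧
    ∀ (F : Type) [NormedAddCommGroup F] [NormedSpace ℝ F] (f : E → F), Sm f →
      hs S k (fun x => a x • f x) ≤ C * hs S k f := by
  -- order zero
  have h0 : ∀ a : E → ℝ, Sm a → ∃ C : ℝ, 0 ≤ C ∧
      ∀ (F : Type) [NormedAddCommGroup F] [NormedSpace ℝ F] (f : E → F), Sm f →
        ∫ x in S, ‖a x • f x‖ ^ 2 ≤ C * ∫ x in S, ‖f x‖ ^ 2 := by
    intro a ha
    obtain ⟨R, hR⟩ := hb.subset_closedBall 0
    obtain ⟨M, hM⟩ := (isCompact_closedBall (0 : E) R).exists_bound_of_continuousOn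
      ha.continuous.continuousOn
    refine ⟨M ^ 2, by positivity, ?_⟩
    intro F _ _ f hf
    rw [← integral_const_mul]
    refine setIntegral_mono_on (int_sq (ha.smul hf) (Or.inl hb))
      ((int_sq hf (Or.inl hb)).const_mul _) hS fun x hx => ?_
    rw [norm_smul, mul_pow]
    have h1 := hM x (hR hx)
    have h2 : ‖a x‖ ^ 2 ≤ M ^ 2 := pow_le_pow_left₀ (norm_nonneg _) h1 2
    exact mul_le_mul_of_nonneg_right h2 (by positivity)
  induction k generalizing a with
  | zero => exact h0 a ha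
  | succ k ih =>
    obtain ⟨C₀, hC₀, H₀⟩ := h0 a ha
    obtain ⟨C₁, hC₁, H₁⟩ := ih a ha
    have h2 : ∀ i : Fin 3, ∃ C : ℝ, 0 ≤ C ∧
        ∀ (F : Type) [NormedAddCommGroup F] [NormedSpace ℝ F] (f : E → F), Sm f →
          hs S k (fun x => pd i a x • f x) ≤ C * hs S k f := fun i => ih (pd i a) (ha.pd i)
    choose C₂ hC₂ H₂ using h2
    refine ⟨C₀ + 2 * C₁ + 2 * ∑ i, C₂ i, ?_, ?_⟩
    · have := Finset.sum_nonneg (s := Finset.univ) fun i _ => hC₂ i
      positivity
    · intro F _ _ f hf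
      have k1 : ∀ i : Fin 3, hs S k (pd i fun x => a x • f x) ≤
          2 * (C₁ * hs S k (pd i f)) + 2 * (C₂ i * hs S k f) := by
        intro i
        have e : (pd i fun x => a x • f x) = fun x => a x • pd i f x + pd i a x • f x := by
          funext x
          exact PDC.pd_smul (ha.differentiable x) (hf.differentiable x) i
        rw [e]
        have h3 := add_le k (fun x => a x • pd i f x) (fun x => pd i a x • f x) (Or.inl hb)
          (ha.smul (hf.pd i)) ((ha.pd i).smul hf)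
        have h4 := H₁ F (pd i f) (hf.pd i)
        have h5 := H₂ i F f hf
        linarith
      have k2 := H₀ F f hf
      have k3 := Finset.sum_le_sum fun i (_ : i ∈ Finset.univ) => k1 i
      rw [Finset.sum_add_distrib, ← Finset.mul_sum, ← Finset.mul_sum, ← Finset.mul_sum,
        ← Finset.sum_mul] at k3
      have k4 := mono_succ S k f
      rw [succ_eq S k f] at k4
      have k5 : 0 ≤ ∫ x in S, ‖f x‖ ^ 2 := integral_nonneg fun x => by positivity
      have k6 : 0 ≤ ∑ i, hs S k (pd i f) := Finset.sum_nonneg fun i _ => nonneg S k _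
      have k7 : 0 ≤ ∑ i, C₂ i := Finset.sum_nonneg fun i _ => hC₂ i
      have k8 := nonneg S k f
      rw [succ_eq, succ_eq]
      set A := ∫ x in S, ‖f x‖ ^ 2
      set B := ∑ i, hs S k (pd i f)
      set H := hs S k f
      set Cs := ∑ i, C₂ i
      have m1 : Cs * H ≤ Cs * (A + B) := mul_le_mul_of_nonneg_left k4 k7
      have m2 : 0 ≤ C₁ * A := mul_nonneg hC₁ k5
      have m3 : 0 ≤ C₀ * B := mul_nonneg hC₀ k6
      nlinarith

end HSB

/-- module HSB -/
theorem specHSB : SpecHSB where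
  nonneg _ _ _ S k f := HSB.nonneg S k f
  mono _ _ _ S _ _ f h := HSB.mono S f h
  pds_le _ _ _ S k L f _ := HSB.pds_le S k L f
  mono_set _ _ _ _ _ k f _ h hb hf := HSB.mono_set k f h hb hf
  congr _ _ _ _ k f g hS h := HSB.congr k f g hS h
  add_le _ _ _ _ k f g _ hb hf hg := HSB.add_le k f g hb hf hg
  smul _ _ _ S k c f hf := HSB.smul S k c f hf
  comp _ k w _ hb hw := HSB.comp k w hb hw
  upper k := ⟨HSB.lists k, HSB.lists_length k, fun _ _ _ S f _ => HSB.eq_lists S k f⟩

/-- module MULT -/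
theorem specMult : SpecMult := fun _ hS hb a ha k => HSB.mul_le hS hb a ha k

end MPfab
end

section
/-!
MP_fabde4_an, toolbox B, module RUNGE, first part (helper59): separation and representation of
functionals of finite order.
-/
set_option autoImplicit false
open MeasureTheory Set Filter Topology

namespace MPfab

namespace RungeA

variable {F : Type} [NormedAddCommGroup F] [NormedSpace ℝ F]

/-! ### a Riesz lemma -/

lemma riesz {T H : Type*} [AddCommGroup T] [Module ℝ T] [NormedAddCommGroup H]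
    [InnerProductSpace ℝ H] [CompleteSpace H] (A : T →ₗ[ℝ] H) (φ : T →ₗ[ℝ] ℝ) (C : ℝ)
    (h : ∀ η, |φ η| ≤ C * ‖A η‖) : ∃ w : H, ∀ η, φ η = inner ℝ w (A η) := by
  obtain ⟨s, hs⟩ := A.rangeRestrict.exists_rightInverse_of_surjective
    (LinearMap.range_rangeRestrict A)
  have hs' : ∀ v : LinearMap.range A, A (s v) = v := by
    intro v
    have := congrArg (fun L => (L v : H)) hs
    simpa using this
  let g : LinearMap.range A →ₗ[ℝ] ℝ := φ ∘ₗ s
  have hg : ∀ v, ‖g v‖ ≤ C * ‖v‖ := by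
    intro v
    have h1 := h (s v)
    rw [hs' v] at h1
    exact h1
  obtain ⟨G, hG, -⟩ := exists_extension_norm_eq (LinearMap.range A) (g.mkContinuous C hg)
  refine ⟨(InnerProductSpace.toDual ℝ H).symm G, fun η => ?_⟩
  rw [InnerProductSpace.toDual_symm_apply]
  have h1 := hG ⟨A η, LinearMap.mem_range_self A η⟩
  have h2 : (g.mkContinuous C hg) ⟨A η, LinearMap.mem_range_self A η⟩ =
      φ (s ⟨A η, LinearMap.mem_range_self A η⟩) := rfl
  have h3 := h (s ⟨A η, LinearMap.mem_range_self A η⟩ - η)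
  rw [map_sub, map_sub, hs' _, sub_self, norm_zero, mul_zero] at h3
  have h4 : φ (s ⟨A η, LinearMap.mem_range_self A η⟩) - φ η = 0 :=
    abs_eq_zero.1 (le_antisymm h3 (abs_nonneg _))
  calc φ η = φ (s ⟨A η, LinearMap.mem_range_self A η⟩) := by linarith
    _ = G (A η) := by rw [← h2, ← h1]

/-! ### jets as elements of a Hilbert space -/

/-- index set of the derivatives of order at most `K` -/
abbrev Ix (K : ℕ) := Fin (HSB.lists K).length

/-- the words -/
def wd {K : ℕ} (i : Ix K) : List (Fin 3) := (HSB.lists K)[i.1]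

lemma hs_eq_sum (S : Set E) (K : ℕ) (f : E → F) :
    hs S K f = ∑ i : Ix K, ∫ x in S, ‖pds (wd i) f x‖ ^ 2 := by
  rw [HSB.eq_lists]
  exact (Fin.sum_univ_fun_getElem (HSB.lists K) fun L => ∫ x in S, ‖pds L f x‖ ^ 2).symm

lemma pds_add {f g : E → F} (hf : Sm f) (hg : Sm g) (L : List (Fin 3)) :
    pds L (fun x => f x + g x) = fun x => pds L f x + pds L g x := by
  induction L with
  | nil => rfl
  | cons i L ih =>
    change pd i (pds L _) = _
    rw [ih]
    funext x
    exact PDC.pd_add (PDC.pds_smooth hf L).differentiable.differentiableAt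
      (PDC.pds_smooth hg L).differentiable.differentiableAt i

lemma pds_smul {f : E → F} (hf : Sm f) (c : ℝ) (L : List (Fin 3)) :
    pds L (fun x => c • f x) = fun x => c • pds L f x := by
  induction L with
  | nil => rfl
  | cons i L ih =>
    change pd i (pds L _) = _
    rw [ih]
    funext x
    exact PDC.pd_const_smul c (PDC.pds_smooth hf L).differentiable.differentiableAt i

section Hilbert

variable {ρ : E → ℝ}

omit [NormedSpace ℝ F] in
lemma memLp [SecondCountableTopology F] (h : Dom ρ) {f : E → F} (hf : Continuous f) :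
    MemLp f 2 (volume.restrict (D ρ)) := by
  have : IsFiniteMeasure (volume.restrict (D ρ)) :=
    ⟨by rw [Measure.restrict_apply_univ]; exact h.bdd.measure_lt_top⟩
  have hm : MeasurableSet (D ρ) := (isOpen_lt h.smooth.continuous continuous_const).measurableSet
  obtain ⟨C, hC⟩ := h.bdd.isCompact_closure.exists_bound_of_continuousOn hf.continuousOn
  refine MemLp.of_bound hf.aestronglyMeasurable C ?_
  rw [ae_restrict_iff' hm]
  exact Eventually.of_forall fun x hx => hC x (subset_closure hx)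

/-- the jet space -/
abbrev HH (F : Type) [NormedAddCommGroup F] (ρ : E → ℝ) (K : ℕ) :=
  PiLp 2 fun _ : Ix K => Lp F 2 (volume.restrict (D ρ))

lemma memJ [SecondCountableTopology F] (h : Dom ρ) {f : E → F} (hf : Sm f) (L : List (Fin 3)) :
    MemLp (pds L f) 2 (volume.restrict (D ρ)) :=
  memLp h (PDC.pds_smooth hf L).continuous

/-- the jet of a smooth function -/
noncomputable def J [SecondCountableTopology F] (h : Dom ρ) (K : ℕ) (f : E → F) (hf : Sm f) :
    HH F ρ K :=
  WithLp.toLp 2 fun i => (memJ h hf (wd i)).toLp (pds (wd i) f)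

lemma J_apply [SecondCountableTopology F] (h : Dom ρ) (K : ℕ) (f : E → F) (hf : Sm f)
    (i : Ix K) : J h K f hf i = (memJ h hf (wd i)).toLp (pds (wd i) f) := rfl

lemma J_ae [SecondCountableTopology F] (h : Dom ρ) (K : ℕ) (f : E → F) (hf : Sm f)
    (i : Ix K) : (J h K f hf i : E → F) =ᵐ[volume.restrict (D ρ)] pds (wd i) f :=
  (memJ h hf (wd i)).coeFn_toLp

lemma J_add [SecondCountableTopology F] (h : Dom ρ) (K : ℕ) {f g : E → F} (hf : Sm f)
    (hg : Sm g) (hfg : Sm fun x => f x + g x) :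
    J h K (fun x => f x + g x) hfg = J h K f hf + J h K g hg := by
  refine PiLp.ext fun i => Lp.ext ?_
  rw [PiLp.add_apply]
  filter_upwards [J_ae h K _ hfg i, J_ae h K f hf i, J_ae h K g hg i,
    Lp.coeFn_add (J h K f hf i) (J h K g hg i)] with x h1 h2 h3 h4
  rw [h1, h4, Pi.add_apply, h2, h3, pds_add hf hg]

lemma J_smul [SecondCountableTopology F] (h : Dom ρ) (K : ℕ) {f : E → F} (hf : Sm f) (c : ℝ)
    (hcf : Sm fun x => c • f x) : J h K (fun x => c • f x) hcf = c • J h K f hf := by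
  refine PiLp.ext fun i => Lp.ext ?_
  rw [PiLp.smul_apply]
  filter_upwards [J_ae h K _ hcf i, J_ae h K f hf i, Lp.coeFn_smul c (J h K f hf i)]
    with x h1 h2 h3
  rw [h1, h3, Pi.smul_apply, h2, pds_smul hf]

lemma norm_J [SecondCountableTopology F] (h : Dom ρ) (K : ℕ) {f : E → F} (hf : Sm f) :
    ‖J h K f hf‖ ^ 2 = hs (D ρ) K f := by
  rw [PiLp.norm_sq_eq_of_L2, hs_eq_sum]
  refine Finset.sum_congr rfl fun i _ => ?_
  rw [Lp.norm_def, J_apply]
  rw [eLpNorm_congr_ae (MemLp.coeFn_toLp _)]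
  have h1 := (memJ h hf (wd i)).eLpNorm_eq_integral_rpow_norm (by norm_num) (by norm_num)
  rw [h1, ENNReal.toReal_ofReal (by positivity)]
  have h2 : (0 : ℝ) ≤ ∫ x in D ρ, ‖pds (wd i) f x‖ ^ 2 :=
    integral_nonneg fun x => by positivity
  norm_num
  rw [← Real.sqrt_eq_rpow, Real.sq_sqrt h2]

end Hilbert

/-! ### separation -/

theorem sep {ρ : E → ℝ} (hρ : Dom ρ) (K : ℕ) (S : Set (E → E)) (hS : ∀ v ∈ S, Sm v)
    (hadd : ∀ v ∈ S, ∀ w ∈ S, (fun x => v x + w x) ∈ S)
    (hsmul : ∀ c : ℝ, ∀ v ∈ S, (fun x => c • v x) ∈ S) (h0 : S.Nonempty) {G : E → E} (hG : Sm G)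
    (h : ∀ Λ : (E → E) → ℝ,
      (∀ v w, Sm v → Sm w → Λ (fun x => v x + w x) = Λ v + Λ w) →
      (∀ (c : ℝ) v, Sm v → Λ (fun x => c • v x) = c * Λ v) →
      (∃ C : ℝ, 0 ≤ C ∧ ∀ v, Sm v → Λ v ^ 2 ≤ C * hs (D ρ) K v) →
      (∀ v w, Sm v → Sm w → (∀ x ∈ D ρ, v x = w x) → Λ v = Λ w) →
      (∀ v ∈ S, Λ v = 0) → Λ G = 0) {ε : ℝ} (hε : 0 < ε) :
    ∃ v ∈ S, hs (D ρ) K (fun x => G x - v x) < ε := by
  classical
  have hopen : IsOpen (D ρ) := isOpen_lt hρ.smooth.continuous continuous_const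
  let V : Submodule ℝ (HH E ρ K) :=
    { carrier := {z | ∃ (v : E → E) (hv : v ∈ S), z = J hρ K v (hS v hv)}
      add_mem' := by
        rintro _ _ ⟨v, hv, rfl⟩ ⟨w, hw, rfl⟩
        exact ⟨_, hadd v hv w hw, (J_add hρ K (hS v hv) (hS w hw) _).symm⟩
      zero_mem' := by
        obtain ⟨v, hv⟩ := h0
        refine ⟨_, hsmul 0 v hv, ?_⟩
        rw [J_smul hρ K (hS v hv) 0, zero_smul]
      smul_mem' := by
        rintro c _ ⟨v, hv, rfl⟩
        exact ⟨_, hsmul c v hv, (J_smul hρ K (hS v hv) c _).symm⟩ }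
  have hmem : J hρ K G hG ∈ V.topologicalClosure := by
    rw [← Submodule.orthogonal_orthogonal_eq_closure, Submodule.mem_orthogonal]
    intro w hw
    rw [Submodule.mem_orthogonal] at hw
    have key := h (fun v => if hv : Sm v then inner ℝ w (J hρ K v hv) else 0) ?_ ?_ ?_ ?_ ?_
    · simpa only [dif_pos hG] using key
    · intro v v' hv hv'
      have hs' : Sm fun x => v x + v' x := hv.add hv'
      simp only [dif_pos hv, dif_pos hv', dif_pos hs', J_add hρ K hv hv' hs', inner_add_right]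
    · intro c v hv
      have hs' : Sm fun x => c • v x := hv.const_smul c
      simp only [dif_pos hv, dif_pos hs', J_smul hρ K hv c hs', inner_smul_right]
    · refine ⟨‖w‖ ^ 2, by positivity, fun v hv => ?_⟩
      simp only [dif_pos hv]
      rw [← norm_J hρ K hv, ← mul_pow, ← sq_abs]
      exact pow_le_pow_left₀ (abs_nonneg _) (abs_real_inner_le_norm _ _) 2
    · intro v v' hv hv' heq
      simp only [dif_pos hv, dif_pos hv']
      have h1 : J hρ K v hv = J hρ K v' hv' := by
        have hs' : Sm fun x => v x + (-1 : ℝ) • v' x := hv.add (hv'.const_smul (-1))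
        have hs2 : Sm fun x => (-1 : ℝ) • v' x := hv'.const_smul (-1)
        have h2 : J hρ K v hv - J hρ K v' hv' = J hρ K _ hs' := by
          rw [J_add hρ K hv hs2 hs', J_smul hρ K hv' (-1) hs2]
          rw [neg_one_smul, sub_eq_add_neg]
        have h3 : ‖J hρ K v hv - J hρ K v' hv'‖ ^ 2 = 0 := by
          rw [h2, norm_J]
          have h4 : hs (D ρ) K (fun x => v x + (-1 : ℝ) • v' x) =
              hs (D ρ) K (fun x => (0 : ℝ) • v x) := by
            refine HSB.congr K _ _ hopen fun x hx => ?_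
            rw [heq x hx]
            simp
          rw [h4, HSB.smul _ _ _ _ hv]
          simp
        have h5 : ‖J hρ K v hv - J hρ K v' hv'‖ = 0 := by
          simpa using h3
        exact sub_eq_zero.1 (norm_eq_zero.1 h5)
      rw [h1]
    · intro v hv
      simp only [dif_pos (hS v hv)]
      rw [real_inner_comm]
      exact hw _ ⟨v, hv, rfl⟩
  have hmem' : J hρ K G hG ∈ closure (V : Set (HH E ρ K)) := hmem
  obtain ⟨_, ⟨v, hv, rfl⟩, hd⟩ := Metric.mem_closure_iff.1 hmem' (√ε) (Real.sqrt_pos.2 hε)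
  refine ⟨v, hv, ?_⟩
  have hs2 : Sm fun x => (-1 : ℝ) • v x := (hS v hv).const_smul (-1)
  have hs' : Sm fun x => G x + (-1 : ℝ) • v x := hG.add hs2
  have h2 : J hρ K G hG - J hρ K v (hS v hv) = J hρ K _ hs' := by
    rw [J_add hρ K hG hs2 hs', J_smul hρ K (hS v hv) (-1) hs2, neg_one_smul, sub_eq_add_neg]
  rw [dist_eq_norm, h2] at hd
  have h3 : (fun x => G x - v x) = fun x => G x + (-1 : ℝ) • v x := by
    funext x
    rw [neg_one_smul, sub_eq_add_neg]
  rw [h3, ← norm_J hρ K hs']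
  calc ‖J hρ K _ hs'‖ ^ 2 < √ε ^ 2 := pow_lt_pow_left₀ hd (norm_nonneg _) (by norm_num)
    _ = ε := Real.sq_sqrt hε.le

/-! ### representation -/

/-- the space of smooth functions -/
def SmS : Submodule ℝ (E → ℝ) where
  carrier := {f | Sm f}
  add_mem' := by
    intro f g hf hg
    have hf' : Sm f := hf
    have hg' : Sm g := hg
    exact hf'.add hg'
  zero_mem' := by
    have h : Sm fun _ : E => (0 : ℝ) := contDiff_const
    exact h
  smul_mem' := by
    intro c f hf
    have hf' : Sm f := hf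
    exact hf'.const_smul c

theorem repr {ρ : E → ℝ} (hρ : Dom ρ) (K : ℕ) (l : (E → ℝ) → ℝ)
    (hadd : ∀ v w, Sm v → Sm w → l (fun x => v x + w x) = l v + l w)
    (hsmul : ∀ (c : ℝ) v, Sm v → l (fun x => c * v x) = c * l v)
    (hb : ∃ C : ℝ, 0 ≤ C ∧ ∀ v, Sm v → l v ^ 2 ≤ C * hs (D ρ) K v) :
    ∃ (ι : Type) (_ : Fintype ι) (w : ι → E → ℝ) (α : ι → List (Fin 3)),
      (∀ i, LocallyIntegrableOn (w i) (D ρ)) ∧
      ∀ η : E → ℝ, Sm η → l η = ∑ i, ∫ x in D ρ, w i x * pds (α i) η x := by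
  obtain ⟨C, hC, hb⟩ := hb
  have : IsFiniteMeasure (volume.restrict (D ρ)) :=
    ⟨by rw [Measure.restrict_apply_univ]; exact hρ.bdd.measure_lt_top⟩
  let A : SmS →ₗ[ℝ] HH ℝ ρ K :=
    { toFun := fun f => J hρ K f.1 f.2
      map_add' := fun f g => J_add hρ K f.2 g.2 _
      map_smul' := fun c f => J_smul hρ K f.2 c _ }
  let φ : SmS →ₗ[ℝ] ℝ :=
    { toFun := fun f => l f.1
      map_add' := fun f g => hadd f.1 g.1 f.2 g.2
      map_smul' := fun c f => hsmul c f.1 f.2 }
  obtain ⟨w, hw⟩ := riesz A φ (√C) (fun η => by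
    have h1 := hb η.1 η.2
    have h2 := norm_J hρ K (f := η.1) η.2
    have h3 : |φ η| ^ 2 ≤ (√C * ‖A η‖) ^ 2 := by
      rw [sq_abs, mul_pow, Real.sq_sqrt hC]
      change l η.1 ^ 2 ≤ C * ‖J hρ K η.1 η.2‖ ^ 2
      rw [h2]
      exact h1
    exact (pow_le_pow_iff_left₀ (abs_nonneg _) (by positivity) (by norm_num)).1 h3)
  refine ⟨Ix K, inferInstance, fun i => (w i : E → ℝ), wd, fun i => ?_, fun η hη => ?_⟩
  · have h1 : Integrable (w i : E → ℝ) (volume.restrict (D ρ)) :=
      (Lp.memLp (w i)).integrable (by norm_num)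
    exact IntegrableOn.locallyIntegrableOn h1
  · have h1 := hw ⟨η, hη⟩
    change l η = inner ℝ w (J hρ K η hη) at h1
    rw [h1, PiLp.inner_apply]
    refine Finset.sum_congr rfl fun i _ => ?_
    rw [L2.inner_def]
    refine integral_congr_ae ?_
    filter_upwards [J_ae hρ K η hη i] with x hx
    rw [hx]
    simp [mul_comm]

end RungeA

end MPfab
end

section
/-!
MP_fabde4_an, part M: module LOP, and basic inequalities for functions supported in a ball.
-/
set_option autoImplicit false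
open MeasureTheory Set Filter Topology

namespace MPfab

namespace LopM

variable {F : Type*} [NormedAddCommGroup F] [NormedSpace ℝ F]

theorem hcs {R : ℝ} {f : E → F} (h : In R f) : HasCompactSupport f := by
  refine HasCompactSupport.of_support_subset_isCompact (isCompact_closedBall (0 : E) R) ?_
  intro x hx
  rw [mem_closedBall_zero_iff]
  by_contra hlt
  exact hx (h.supp x (not_le.1 hlt).le)

theorem in_add {R : ℝ} {f g : E → F} (hf : In R f) (hg : In R g) :
    In R (fun x => f x + g x) :=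
  ⟨hf.smooth.add hg.smooth, fun x hx => by rw [hf.supp x hx, hg.supp x hx, add_zero]⟩

theorem in_smul {R : ℝ} (c : ℝ) {f : E → F} (hf : In R f) : In R (fun x => c • f x) :=
  ⟨hf.smooth.const_smul c, fun x hx => by rw [hf.supp x hx, smul_zero]⟩

theorem in_sub {R : ℝ} {f g : E → F} (hf : In R f) (hg : In R g) :
    In R (fun x => f x - g x) :=
  ⟨hf.smooth.sub hg.smooth, fun x hx => by rw [hf.supp x hx, hg.supp x hx, sub_zero]⟩

theorem in_comp {R : ℝ} {w : E → E} (hw : In R w) (j : Fin 3) : In R (fun x => w x j) :=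
  ⟨hw.smooth.comp_apply j, fun x hx => by rw [hw.supp x hx]; rfl⟩

theorem in_mul {R : ℝ} {a : E → ℝ} {f : E → F} (ha : Sm a) (hf : In R f) :
    In R (fun x => a x • f x) :=
  ⟨ha.smul hf.smooth, fun x hx => by rw [hf.supp x hx, smul_zero]⟩

theorem curl_cpt {w : E → E} (hw : HasCompactSupport w) : HasCompactSupport (curl w) := by
  have h : ∀ i, HasCompactSupport (pd i w) := fun i => HSB.hcs_pd hw i
  refine HasCompactSupport.of_support_subset_isCompact (((h 0).union (h 1)).union (h 2)) ?_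
  intro x hx
  by_contra hn
  rw [mem_union, mem_union, not_or, not_or] at hn
  have e0 : pd 0 w x = 0 := image_eq_zero_of_notMem_tsupport hn.1.1
  have e1 : pd 1 w x = 0 := image_eq_zero_of_notMem_tsupport hn.1.2
  have e2 : pd 2 w x = 0 := image_eq_zero_of_notMem_tsupport hn.2
  apply hx
  ext i
  fin_cases i <;> simp [e0, e1, e2]

theorem comp_le {S : Set E} (k : ℕ) {w : E → E}
    (hb : Bornology.IsBounded S ∨ HasCompactSupport w) (hw : Sm w) (j : Fin 3) :
    hs S k (fun x => w x j) ≤ hs S k w := by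
  rw [HSB.comp k w hb hw]
  exact Finset.single_le_sum (f := fun j => hs S k (fun x => w x j))
    (fun i _ => HSB.nonneg S k _) (Finset.mem_univ j)

theorem sub_le {S : Set E} (k : ℕ) (f g : E → F)
    (hb : Bornology.IsBounded S ∨ (HasCompactSupport f ∧ HasCompactSupport g))
    (hf : Sm f) (hg : Sm g) :
    hs S k (fun x => f x - g x) ≤ 2 * hs S k f + 2 * hs S k g := by
  have e : (fun x => f x - g x) = fun x => f x + (-1 : ℝ) • g x := by
    funext x
    rw [neg_one_smul, sub_eq_add_neg]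
  have h1 := HSB.add_le (S := S) k f (fun x => (-1 : ℝ) • g x)
    (hb.imp id fun h => ⟨h.1, h.2.comp_left (g := fun v : F => (-1 : ℝ) • v) (by simp)⟩)
    hf (hg.const_smul (-1 : ℝ))
  have h2 := HSB.smul S k (-1) g hg
  rw [e]
  rw [h2] at h1
  linarith

/-- the curl costs one derivative -/
theorem curl_le {S : Set E} (k : ℕ) {w : E → E}
    (hb : Bornology.IsBounded S ∨ HasCompactSupport w) (hw : Sm w) :
    hs S k (curl w) ≤ 12 * hs S (k + 1) w := by
  have key : ∀ a b c d : Fin 3,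
      hs S k (fun x => pd a w x b - pd c w x d) ≤ 4 * hs S (k + 1) w := by
    intro a b c d
    have hc : ∀ a b : Fin 3, HasCompactSupport w → HasCompactSupport (fun x => pd a w x b) :=
      fun a b h => (HSB.hcs_pd h a).comp_left (g := fun v : E => v b) (by simp)
    have h1 := sub_le (S := S) k (fun x => pd a w x b) (fun x => pd c w x d)
      (hb.imp id fun h => ⟨hc a b h, hc c d h⟩) ((hw.pd a).comp_apply b) ((hw.pd c).comp_apply d)
    have h2 := comp_le (S := S) k (hb.imp id fun h => HSB.hcs_pd h a) (hw.pd a) b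
    have h3 := comp_le (S := S) k (hb.imp id fun h => HSB.hcs_pd h c) (hw.pd c) d
    have h4 := HSB.pd_le S k a w
    have h5 := HSB.pd_le S k c w
    linarith
  rw [HSB.comp k (curl w) (hb.imp id curl_cpt) hw.curl, Fin.sum_univ_three]
  have h0 := key 1 2 2 1
  have h1 := key 2 0 0 2
  have h2 := key 0 1 1 0
  have e0 : (fun x => curl w x 0) = fun x => pd 1 w x 2 - pd 2 w x 1 := rfl
  have e1 : (fun x => curl w x 1) = fun x => pd 2 w x 0 - pd 0 w x 2 := rfl
  have e2 : (fun x => curl w x 2) = fun x => pd 0 w x 1 - pd 1 w x 0 := rfl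
  rw [e0, e1, e2]
  linarith

theorem nq_nonneg (S : Set E) (k : ℕ) (w : E → E) : 0 ≤ nq S k w :=
  add_nonneg (HSB.nonneg _ _ _) (HSB.nonneg _ _ _)

theorem nq_le {S : Set E} (k : ℕ) {w : E → E}
    (hb : Bornology.IsBounded S ∨ HasCompactSupport w) (hw : Sm w) :
    nq S k w ≤ 13 * hs S (k + 1) w := by
  unfold nq
  have h1 := curl_le (S := S) k hb hw
  have h2 := HSB.mono S w (Nat.zero_le (k + 1))
  linarith

/-- `√` of the inequality `nq ≤ 13 hs` -/
theorem sqrt_nq_le {R : ℝ} (k : ℕ) {w : E → E} (hw : In R w) :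
    √(nq univ k w) ≤ 4 * √(hs univ (k + 1) w) := by
  have h1 := nq_le (S := univ) k (Or.inr (hcs hw)) hw.smooth
  have h0 := HSB.nonneg (univ : Set E) (k + 1) w
  calc √(nq univ k w) ≤ √(4 ^ 2 * hs univ (k + 1) w) := Real.sqrt_le_sqrt (by linarith)
    _ = 4 * √(hs univ (k + 1) w) := by
        rw [Real.sqrt_mul (by norm_num), Real.sqrt_sq (by norm_num)]

end LopM

open LopM in
/-- module LOP -/
theorem specLop : SpecLop := by
  intro ρ R P Q hρ hL
  have hnq : ∀ (k : ℕ) (m : E → E), In R m → nq (D ρ) k m ≤ nq univ k m := by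
    intro k m hm
    unfold nq
    have h1 := HSB.mono_set (S := D ρ) (S' := univ) k (curl m) (subset_univ _)
      (Or.inr (curl_cpt (hcs hm))) hm.smooth.curl
    have h2 := HSB.mono_set (S := D ρ) (S' := univ) 0 m (subset_univ _)
      (Or.inr (hcs hm)) hm.smooth
    linarith
  have hbd : ∀ k : ℕ, ∃ C : ℝ, 0 ≤ C ∧ ∀ m, In R m → hs univ (k + 1) (P m) ≤ C * nq univ k m := by
    intro k
    obtain ⟨C, hC⟩ := hL.bdP k
    refine ⟨max C 0, le_max_right _ _, fun m hm => ?_⟩
    calc hs univ (k + 1) (P m) ≤ C * nq (D ρ) k m := hC m hm.smooth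
      _ ≤ max C 0 * nq (D ρ) k m :=
          mul_le_mul_of_nonneg_right (le_max_left _ _) (nq_nonneg _ _ _)
      _ ≤ max C 0 * nq univ k m := mul_le_mul_of_nonneg_left (hnq k m hm) (le_max_right _ _)
  refine ⟨⟨?_, ?_, ?_, ?_⟩, ?_⟩
  · intro f g hf hg
    exact hL.addP f g hf.smooth hg.smooth
  · intro c f hf
    exact hL.smulP c f hf.smooth
  · intro f hf
    exact hL.inP f hf.smooth
  · intro k
    obtain ⟨C, hC0, hC⟩ := hbd k
    refine ⟨k + 1, C * 13, by positivity, fun f hf => ?_⟩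
    calc hs univ k (P f) ≤ hs univ (k + 1) (P f) := HSB.mono_succ _ _ _
      _ ≤ C * nq univ k f := hC f hf
      _ ≤ C * (13 * hs univ (k + 1) f) :=
          mul_le_mul_of_nonneg_left (nq_le k (Or.inr (hcs hf)) hf.smooth) hC0
      _ = _ := by ring
  · intro k
    obtain ⟨C, hC0, hC⟩ := hbd k
    refine ⟨√C, Real.sqrt_nonneg _, fun m hm => ?_⟩
    rw [← Real.sqrt_mul hC0]
    exact Real.sqrt_le_sqrt (hC m hm)

end MPfab
end
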