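import Pool.Agent.Lib.MP_fabde4_an.M.Lop
import Pool.Agent.Lib.MP_fabde4_an.Gauss
import Pool.Agent.Lib.MP_fabde4_an.SpecF
import Pool.Agent.Lib.MP_fabde4_an.F.EllD
import Pool.Agent.Lib.MP_fabde4_an.SpecM

section
/-!
MP_fabde4_an, part P: module INCSM (the classes `InC` and smoothness).
-/
set_option autoImplicit false
open MeasureTheory Set

namespace MPfab

namespace INC

variable {F : Type*} [NormedAddCommGroup F] [NormedSpace ℝ F]

/-- the derivative of a slice -/
theorem fderiv_sl (m : ℝ × E → F) (t : ℝ) (x : E) :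
    fderiv ℝ (sl m t) x = ∑ i, (EuclideanSpace.proj i : E →L[ℝ] ℝ).smulRight
      (pd i (sl m t) x) := by
  ext v
  rw [fderiv_eq_sum]
  simp

/-- continuous partial derivatives imply differentiability -/
theorem hasFDerivAt_total {m m' : ℝ × E → F} (hm : J0 m) (hm' : Continuous m')
    (hd : ∀ t x, HasDerivAt (fun s => m (s, x)) (m' (t, x)) t) (p : ℝ × E) :
    HasFDerivAt m ((ContinuousLinearMap.toSpanSingleton ℝ (m' p)).coprod
      (∑ i, (EuclideanSpace.proj i : E →L[ℝ] ℝ).smulRight (pd i (sl m p.1) p.2))) p := by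
  have h := hasStrictFDerivAt_uncurry_coprod (𝕜 := ℝ) (u := p) (f := fun t x => m (t, x))
    (f₁ := fun t x => ContinuousLinearMap.toSpanSingleton ℝ (m' (t, x)))
    (f₂ := fun t x => ∑ i, (EuclideanSpace.proj i : E →L[ℝ] ℝ).smulRight (pd i (sl m t) x))
    (Filter.Eventually.of_forall fun v => (hd v.1 v.2).hasFDerivAt)
    (Filter.Eventually.of_forall fun v => by
      have h1 := ((hm.1 v.1).differentiable v.2).hasFDerivAt
      rw [fderiv_sl] at h1
      exact h1)
    (by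
      have h2 : Continuous fun q : ℝ × E => ContinuousLinearMap.toSpanSingleton ℝ (m' q) :=
        (ContinuousLinearMap.toSpanSingletonCLE (𝕜 := ℝ) (E := F)).continuous.comp hm'
      exact h2.continuousAt)
    (by
      have h2 : Continuous fun q : ℝ × E => ∑ i,
          (EuclideanSpace.proj i : E →L[ℝ] ℝ).smulRight (pd i (sl m q.1) q.2) := by
        refine continuous_finsetSum _ fun i _ => ?_
        exact (ContinuousLinearMap.smulRightL ℝ E F (EuclideanSpace.proj i)).continuous.comp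
          (hm.2 [i])
      exact h2.continuousAt)
  exact h.hasFDerivAt

theorem contDiff_of_J (n : ℕ) : ∀ m : ℝ × E → F, (∀ j, J j m) → ContDiff ℝ n m := by
  induction n with
  | zero =>
    intro m h
    exact contDiff_zero.2 (h 0).cont
  | succ n ih =>
    intro m h
    obtain ⟨h0, m', h1, h2⟩ := h 1
    -- the time derivative is in all classes
    have hm' : ∀ j, J j m' := by
      intro j
      obtain ⟨_, m'', h3, h4⟩ := h (j + 1)
      have e : m' = m'' := by
        funext p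
        exact (h2 p.1 p.2).unique (h4 p.1 p.2)
      rw [e]
      exact h3
    have hpd : ∀ i j, J j (fun p : ℝ × E => pd i (sl m p.1) p.2) := fun i j => (h j).pd i
    rw [Nat.cast_succ, contDiff_succ_iff_hasFDerivAt]
    refine ⟨_, ?_, fun p => hasFDerivAt_total h0 (hm' 0).cont h2 p⟩
    have e1 : (fun p : ℝ × E => (ContinuousLinearMap.toSpanSingleton ℝ (m' p)).coprod
        (∑ i, (EuclideanSpace.proj i : E →L[ℝ] ℝ).smulRight (pd i (sl m p.1) p.2))) =
        fun p => (ContinuousLinearMap.smulRightL ℝ (ℝ × E) F (ContinuousLinearMap.fst ℝ ℝ E))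
            (m' p) + ∑ i, (ContinuousLinearMap.smulRightL ℝ (ℝ × E) F
              ((EuclideanSpace.proj i : E →L[ℝ] ℝ) ∘L ContinuousLinearMap.snd ℝ ℝ E))
              (pd i (sl m p.1) p.2) := by
      funext p
      ext v
      · simp
      · simp
    rw [e1]
    exact (((ContinuousLinearMap.smulRightL ℝ (ℝ × E) F
      (ContinuousLinearMap.fst ℝ ℝ E)).contDiff).comp (ih m' hm')).add
      (ContDiff.sum fun i _ => ((ContinuousLinearMap.smulRightL ℝ (ℝ × E) F
              ((EuclideanSpace.proj i : E →L[ℝ] ℝ) ∘L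
                ContinuousLinearMap.snd ℝ ℝ E)).contDiff).comp (ih _ (hpd i)))

end INC

open INC in
/-- module INCSM -/
theorem specIncSm : SpecIncSm where
  of_all F _ _ _ R m h := by
    have h' : ∀ j, J j m := fun j => (inC_iff.1 (h j)).1
    refine ⟨contDiff_infty.2 fun n => contDiff_of_J n m h', fun t x hx => ?_⟩
    exact (inC_iff.1 (h 0)).2 t x hx
  inc F _ _ R j m _ h := inC_iff.2 ⟨J.of_smooth h.smooth, h.supp⟩

end MPfab
end

section
/-!
MP_fabde4_an, part P: auxiliary facts for the modules ITM, ITDIFF, LIM, LIMEQ (helper87).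
-/
set_option autoImplicit false
open MeasureTheory Set

namespace MPfab

namespace PAux

variable {F : Type*} [NormedAddCommGroup F] [NormedSpace ℝ F]

theorem pds_sub {f g : E → F} (hf : Sm f) (hg : Sm g) (L : List (Fin 3)) :
    pds L (fun x => f x - g x) = fun x => pds L f x - pds L g x := by
  induction L with
  | nil => rfl
  | cons i L ih =>
    show pd i (pds L (fun x => f x - g x)) = fun x => pd i (pds L f) x - pd i (pds L g) x
    rw [ih]
    funext x
    exact PDC.pd_sub ((PDC.pds_smooth hf L).differentiable x)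
      ((PDC.pds_smooth hg L).differentiable x) i

theorem in_sub {R : ℝ} {f g : E → F} (hf : In R f) (hg : In R g) : In R (fun x => f x - g x) where
  smooth := hf.smooth.sub hg.smooth
  supp := by
    intro x hx
    rw [hf.supp x hx, hg.supp x hx, sub_zero]

theorem in_add {R : ℝ} {f g : E → F} (hf : In R f) (hg : In R g) : In R (fun x => f x + g x) where
  smooth := hf.smooth.add hg.smooth
  supp := by
    intro x hx
    rw [hf.supp x hx, hg.supp x hx, add_zero]

theorem in_neg {R : ℝ} {f : E → F} (hf : In R f) : In R (fun x => -f x) where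
  smooth := hf.smooth.neg
  supp := by
    intro x hx
    rw [hf.supp x hx, neg_zero]

theorem in_zero {R : ℝ} : In R (fun _ : E => (0 : F)) where
  smooth := contDiff_const
  supp := fun _ _ => rfl

theorem in_pds {R : ℝ} (hR : 0 < R) {f : E → F} (hf : In R f) (L : List (Fin 3)) :
    In R (pds L f) := INC.In.pds hR hf L

/-- functions supported in a ball have compact support -/
theorem hcs {R : ℝ} {f : E → F} (hf : In R f) : HasCompactSupport f := by
  refine HasCompactSupport.intro (isCompact_closedBall (0 : E) R) ?_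
  intro x hx
  refine hf.supp x ?_
  rw [mem_closedBall_zero_iff] at hx
  linarith [not_le.1 hx]

theorem in_sl {R : ℝ} {m : ℝ × E → F} (hm : InT R m) (t : ℝ) : In R (sl m t) where
  smooth := PDC.sl_smooth hm.smooth t
  supp := fun x hx => hm.supp t x hx

theorem in_curl {R : ℝ} (hR : 0 < R) {w : E → E} (hw : In R w) : In R (curl w) where
  smooth := hw.smooth.curl
  supp := by
    intro x hx
    have h : ∀ i, pd i w x = 0 := fun i => (INC.In.pd hR hw i).supp x hx
    ext j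
    fin_cases j
    · show curl w x 0 = 0
      rw [curl_apply0, h, h]
      simp
    · show curl w x 1 = 0
      rw [curl_apply1, h, h]
      simp
    · show curl w x 2 = 0
      rw [curl_apply2, h, h]
      simp

theorem in_cr {R : ℝ} {u v : E → E} (hu : In R u) (hv : In R v) :
    In R (fun x => cr (u x) (v x)) where
  smooth := hu.smooth.cr hv.smooth
  supp := by
    intro x hx
    rw [hu.supp x hx]
    ext j
    fin_cases j <;> simp [cr]

/-- the volume of the ball -/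
noncomputable def vb (R : ℝ) : ℝ := (volume (Metric.closedBall (0 : E) R)).toReal

theorem vb_nonneg (R : ℝ) : 0 ≤ vb R := ENNReal.toReal_nonneg

/-- `L²` norm of a function with support in a ball bounded by its sup norm -/
theorem int_le {R : ℝ} {f : E → F} (hf : In R f) {s : ℝ} (hs : ∀ x, ‖f x‖ ≤ s) :
    ∫ x in (univ : Set E), ‖f x‖ ^ 2 ≤ vb R * s ^ 2 := by
  have h0 : 0 ≤ s := le_trans (norm_nonneg _) (hs 0)
  rw [Measure.restrict_univ]
  have h1 : ∫ x, ‖f x‖ ^ 2 = ∫ x in Metric.closedBall (0 : E) R, ‖f x‖ ^ 2 := by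
    symm
    refine setIntegral_eq_integral_of_forall_compl_eq_zero ?_
    intro x hx
    rw [hf.supp x (by rw [mem_closedBall_zero_iff] at hx; linarith [not_le.1 hx])]
    simp
  rw [h1]
  have h2 := norm_setIntegral_le_of_norm_le_const (μ := (volume : Measure E))
    (s := Metric.closedBall (0 : E) R) (f := fun x => ‖f x‖ ^ 2) (C := s ^ 2)
    (measure_closedBall_lt_top) (fun x _ => by
      rw [Real.norm_eq_abs, abs_of_nonneg (by positivity)]
      exact pow_le_pow_left₀ (norm_nonneg _) (hs x) 2)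
  rw [Real.norm_eq_abs] at h2
  have h3 := le_trans (le_abs_self _) h2
  rw [mul_comm] at h3
  exact h3

/-- `hs univ k` bounded by the sup norms of the derivatives of order at most `k` -/
theorem hs_le_sup {R : ℝ} (hR : 0 < R) (k : ℕ) : ∃ N : ℝ, 0 ≤ N ∧
    ∀ (G : Type) [NormedAddCommGroup G] [NormedSpace ℝ G] (f : E → G), In R f → ∀ s : ℝ,
      (∀ L : List (Fin 3), L.length ≤ k → ∀ x, ‖pds L f x‖ ≤ s) → hs univ k f ≤ N * s ^ 2 := by
  obtain ⟨T, hT, hT'⟩ := specHSB.upper k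
  refine ⟨(T.length : ℝ) * vb R, by have := vb_nonneg R; positivity, ?_⟩
  intro G _ _ f hf s hs
  rw [hT' G univ f hf.smooth]
  have h1 : ∀ L ∈ T, ∫ x in (univ : Set E), ‖pds L f x‖ ^ 2 ≤ vb R * s ^ 2 := fun L hL =>
    int_le (in_pds hR hf L) (hs L (hT L hL))
  have h2 : (T.map fun L => ∫ x in (univ : Set E), ‖pds L f x‖ ^ 2).sum ≤
      (T.map fun _ => vb R * s ^ 2).sum := List.sum_le_sum h1
  refine h2.trans ?_
  rw [List.map_const', List.sum_replicate]
  simp only [nsmul_eq_mul]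
  linarith [mul_assoc (T.length : ℝ) (vb R) (s ^ 2)]

/-- constant outside `[-T0,T0]` -/
theorem norm_sub_le {T0 D : ℝ} (hT : 0 < T0) {φ φ' : ℝ → F} (h : ∀ t, HasDerivAt φ (φ' t) t)
    (hD : ∀ t, ‖φ' t‖ ≤ D) (h0 : ∀ t, T0 ≤ |t| → φ' t = 0) (t : ℝ) :
    ‖φ t - φ 0‖ ≤ D * T0 := by
  have hD0 : 0 ≤ D := le_trans (norm_nonneg _) (hD 0)
  have key : ∀ s, |s| ≤ T0 → ‖φ s - φ 0‖ ≤ D * T0 := by
    intro s hs
    have h1 := Convex.norm_image_sub_le_of_norm_hasDerivWithin_le (f := φ) (f' := φ') (C := D)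
      (s := univ) (x := 0) (y := s) (fun x _ => (h x).hasDerivWithinAt) (fun x _ => hD x)
      convex_univ (mem_univ _) (mem_univ _)
    refine h1.trans ?_
    rw [sub_zero, Real.norm_eq_abs]
    exact mul_le_mul_of_nonneg_left hs hD0
  rcases le_or_gt (|t|) T0 with ht | ht
  · exact key t ht
  · rcases le_or_gt 0 t with h2 | h2
    · rw [abs_of_nonneg h2] at ht
      have h1 := Convex.norm_image_sub_le_of_norm_hasDerivWithin_le (f := φ) (f' := φ') (C := 0)
        (s := Ici T0) (x := T0) (y := t) (fun x _ => (h x).hasDerivWithinAt) (fun x hx => by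
          rw [h0 x (le_trans hx (le_abs_self x)), norm_zero])
        (convex_Ici T0) (mem_Ici.2 le_rfl) (mem_Ici.2 ht.le)
      rw [zero_mul] at h1
      have h3 : φ t = φ T0 := sub_eq_zero.1 (norm_le_zero_iff.1 h1)
      rw [h3]
      exact key T0 (by rw [abs_of_pos hT])
    · rw [abs_of_neg h2] at ht
      have h1 := Convex.norm_image_sub_le_of_norm_hasDerivWithin_le (f := φ) (f' := φ') (C := 0)
        (s := Iic (-T0)) (x := -T0) (y := t) (fun x _ => (h x).hasDerivWithinAt) (fun x hx => by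
          have hx' : x ≤ -T0 := hx
          rw [h0 x (by rw [abs_of_nonpos (by linarith)]; linarith), norm_zero])
        (convex_Iic (-T0)) (mem_Iic.2 le_rfl) (mem_Iic.2 (by linarith))
      rw [zero_mul] at h1
      have h3 : φ t = φ (-T0) := sub_eq_zero.1 (norm_le_zero_iff.1 h1)
      rw [h3]
      exact key (-T0) (by rw [abs_neg, abs_of_pos hT])

/-! ### cross products -/

theorem cr_sub_left (a b c : E) : cr (a - b) c = cr a c - cr b c := by
  ext j
  fin_cases j <;> simp [cr] <;> ring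

theorem cr_sub_right (a b c : E) : cr a (b - c) = cr a b - cr a c := by
  ext j
  fin_cases j <;> simp [cr] <;> ring

theorem norm_cr_le (u v : E) : ‖cr u v‖ ≤ ‖u‖ * ‖v‖ := by
  have h : ‖cr u v‖ ^ 2 ≤ (‖u‖ * ‖v‖) ^ 2 := by
    rw [mul_pow, EuclideanSpace.norm_sq_eq, EuclideanSpace.norm_sq_eq, EuclideanSpace.norm_sq_eq]
    simp only [Fin.sum_univ_three, Real.norm_eq_abs, sq_abs, cr_apply0, cr_apply1, cr_apply2]
    nlinarith [sq_nonneg (u 0 * v 0 + u 1 * v 1 + u 2 * v 2)]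
  exact abs_le_of_sq_le_sq' h (by positivity) |>.2

/-! ### curl -/

theorem norm_apply_le (v : E) (i : Fin 3) : |v i| ≤ ‖v‖ := by
  have := EuclideanSpace.norm_eq v
  have h := PiLp.norm_apply_le v i
  rwa [Real.norm_eq_abs] at h

theorem norm_sq_curl_le (w : E → E) (x : E) : ‖curl w x‖ ^ 2 ≤ 4 * ∑ i, ‖pd i w x‖ ^ 2 := by
  have hc : ∀ a b : ℝ, (a - b) ^ 2 ≤ 2 * (a ^ 2 + b ^ 2) := fun a b => by
    nlinarith [sq_nonneg (a + b)]
  have hn : ∀ i j, (pd i w x j) ^ 2 ≤ ‖pd i w x‖ ^ 2 := by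
    intro i j
    have := norm_apply_le (pd i w x) j
    rw [← sq_abs]
    exact pow_le_pow_left₀ (abs_nonneg _) this 2
  rw [EuclideanSpace.norm_sq_eq]
  simp only [Fin.sum_univ_three, Real.norm_eq_abs, sq_abs, curl_apply0, curl_apply1, curl_apply2]
  have h0 := hc (pd 1 w x 2) (pd 2 w x 1)
  have h1 := hc (pd 2 w x 0) (pd 0 w x 2)
  have h2 := hc (pd 0 w x 1) (pd 1 w x 0)
  have a1 := hn 1 2
  have a2 := hn 2 1
  have a3 := hn 2 0
  have a4 := hn 0 2
  have a5 := hn 0 1
  have a6 := hn 1 0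
  linarith

theorem curl_pd {w : E → E} (hw : Sm w) (k : Fin 3) : curl (pd k w) = pd k (curl w) := by
  funext x
  obtain ⟨c0, c1, c2⟩ := PDC.pd_curl hw k x
  have hw0 : ∀ j, Sm (fun y => w y j) := fun j => hw.comp_apply j
  have e : ∀ i j, pd i (pd k w) x j = pd k (pd i (fun y => w y j)) x := by
    intro i j
    rw [PDC.pd_comp_apply (hw.pd k), PDC.pd_comp hw, PDC.pd_comm (hw0 j)]
  ext j
  fin_cases j
  · show curl (pd k w) x 0 = pd k (curl w) x 0
    rw [c0, curl_apply0, e, e]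
  · show curl (pd k w) x 1 = pd k (curl w) x 1
    rw [c1, curl_apply1, e, e]
  · show curl (pd k w) x 2 = pd k (curl w) x 2
    rw [c2, curl_apply2, e, e]

theorem curl_pds {w : E → E} (hw : Sm w) (L : List (Fin 3)) : pds L (curl w) = curl (pds L w) := by
  induction L with
  | nil => rfl
  | cons i L ih =>
    show pd i (pds L (curl w)) = curl (pd i (pds L w))
    rw [ih, curl_pd (PDC.pds_smooth hw L)]

theorem curl_sub {u w : E → E} (hu : Sm u) (hw : Sm w) :
    curl (fun x => u x - w x) = fun x => curl u x - curl w x := by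
  funext x
  have e : ∀ i, pd i (fun x => u x - w x) x = pd i u x - pd i w x := fun i =>
    PDC.pd_sub (hu.differentiable x) (hw.differentiable x) i
  ext j
  fin_cases j <;> simp [curl, e] <;> ring

/-- integrability of squares -/
theorem int_sq {R : ℝ} {f : E → F} (hf : In R f) : Integrable (fun x => ‖f x‖ ^ 2)
    (volume.restrict (univ : Set E)) := by
  rw [Measure.restrict_univ]
  have hc : Continuous fun x => ‖f x‖ ^ 2 := hf.smooth.continuous.norm.pow 2
  refine hc.integrable_of_hasCompactSupport ?_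
  refine HasCompactSupport.intro (isCompact_closedBall (0 : E) R) ?_
  intro x hx
  rw [mem_closedBall_zero_iff] at hx
  rw [hf.supp x (by linarith [not_le.1 hx])]
  simp

/-- the curl loses one derivative -/
theorem hs_curl {R : ℝ} (hR : 0 < R) (k : ℕ) : ∀ {w : E → E}, In R w →
    hs univ k (curl w) ≤ 4 * ((k : ℝ) + 1) * hs univ (k + 1) w := by
  have h0 : ∀ {w : E → E}, In R w → ∫ x in (univ : Set E), ‖curl w x‖ ^ 2 ≤
      4 * ∑ i, ∫ x in (univ : Set E), ‖pd i w x‖ ^ 2 := by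
    intro w hw
    have hi : ∀ i, Integrable (fun x => ‖pd i w x‖ ^ 2) (volume.restrict (univ : Set E)) :=
      fun i => int_sq (INC.In.pd hR hw i)
    rw [← integral_finsetSum _ (fun i _ => hi i), ← integral_const_mul]
    refine integral_mono (int_sq (in_curl hR hw)) ?_ (fun x => norm_sq_curl_le w x)
    exact (integrable_finsetSum _ fun i _ => hi i).const_mul 4
  induction k with
  | zero =>
    intro w hw
    have h1 := h0 hw
    show ∫ x in (univ : Set E), ‖curl w x‖ ^ 2 ≤ 4 * (((0 : ℕ) : ℝ) + 1) *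
      ((∫ x in (univ : Set E), ‖w x‖ ^ 2) + ∑ i, hs univ 0 (pd i w))
    have h2 : 0 ≤ ∫ x in (univ : Set E), ‖w x‖ ^ 2 := HSB.nonneg univ 0 w
    have h3 : ∑ i, hs univ 0 (pd i w) = ∑ i, ∫ x in (univ : Set E), ‖pd i w x‖ ^ 2 := rfl
    rw [h3]
    push_cast
    linarith
  | succ k ih =>
    intro w hw
    have h1 := h0 hw
    have h2 : ∀ i, hs univ k (pd i (curl w)) ≤ 4 * ((k : ℝ) + 1) * hs univ (k + 1) (pd i w) := by
      intro i
      rw [← curl_pd hw.smooth]
      exact ih (INC.In.pd hR hw i)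
    have h3 : ∀ i, ∫ x in (univ : Set E), ‖pd i w x‖ ^ 2 ≤ hs univ (k + 1) (pd i w) := fun i =>
      HSB.mono univ (pd i w) (Nat.zero_le (k + 1))
    show (∫ x in (univ : Set E), ‖curl w x‖ ^ 2) + ∑ i, hs univ k (pd i (curl w)) ≤
      4 * (((k + 1 : ℕ) : ℝ) + 1) *
      ((∫ x in (univ : Set E), ‖w x‖ ^ 2) + ∑ i, hs univ (k + 1) (pd i w))
    have h4 : 0 ≤ ∫ x in (univ : Set E), ‖w x‖ ^ 2 := HSB.nonneg univ 0 w
    have h5 : ∑ i, hs univ k (pd i (curl w)) ≤
        4 * ((k : ℝ) + 1) * ∑ i, hs univ (k + 1) (pd i w) := by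
      rw [Finset.mul_sum]
      exact Finset.sum_le_sum fun i _ => h2 i
    have h6 : ∑ i, ∫ x in (univ : Set E), ‖pd i w x‖ ^ 2 ≤ ∑ i, hs univ (k + 1) (pd i w) :=
      Finset.sum_le_sum fun i _ => h3 i
    push_cast
    have h7 : 0 ≤ 4 * ((k : ℝ) + 1 + 1) * ∫ x in (univ : Set E), ‖w x‖ ^ 2 := by positivity
    nlinarith

theorem nq_le {R : ℝ} (hR : 0 < R) (k : ℕ) {w : E → E} (hw : In R w) :
    nq univ k w ≤ (4 * ((k : ℝ) + 1) + 1) * hs univ (k + 1) w := by
  have h1 := hs_curl hR k hw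
  have h2 : hs univ 0 w ≤ hs univ (k + 1) w := HSB.mono univ w (Nat.zero_le _)
  unfold nq
  linarith

theorem nq_nonneg (k : ℕ) (w : E → E) : 0 ≤ nq univ k w :=
  add_nonneg (HSB.nonneg _ _ _) (HSB.nonneg _ _ _)

theorem nq_mono {j k : ℕ} (h : j ≤ k) (w : E → E) : nq univ j w ≤ nq univ k w :=
  add_le_add (HSB.mono _ _ h) le_rfl

/-- a velocity law maps into the fields supported in the ball -/
theorem law_in {R T0 : ℝ} {P : ℝ → (E → E) → (E → E)} {κ : ℕ → ℝ → ℝ} (h : VLaw R T0 P κ)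
    (t : ℝ) {f : E → E} (hf : In R f) : In R (P t f) := by
  have h1 : InC R 0 (fun p : ℝ × E => f p.2) := by
    refine ⟨fun t => hf, fun L => ?_⟩
    have h2 : (fun p : ℝ × E => pds L (sl (fun p : ℝ × E => f p.2) p.1) p.2) =
        fun p => pds L f p.2 := rfl
    rw [h2]
    exact (PDC.pds_smooth hf.smooth L).continuous.comp continuous_snd
  exact (h.inc 0 _ h1).1 t

end PAux

end MPfab
end

section
/-! MP_fabde4_an, part F, module CUTF (helper45). -/
set_option autoImplicit false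
open MeasureTheory Set Filter Topology

namespace MPfab

namespace FCut

/-- the cut-off function: `1` for `s² ≤ 2`, `0` for `s² ≥ 3` -/
noncomputable def β (s : ℝ) : ℝ := Real.smoothTransition (3 - s ^ 2)

lemma β_sm : Sm β :=
  Real.smoothTransition.contDiff.comp (contDiff_const.sub (contDiff_id.pow 2))

lemma β_one {s : ℝ} (h : s ^ 2 ≤ 2) : β s = 1 :=
  Real.smoothTransition.one_of_one_le (by linarith)

lemma β_zero {s : ℝ} (h : 3 ≤ s ^ 2) : β s = 0 :=
  Real.smoothTransition.zero_of_nonpos (by linarith)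

lemma β_hcs : HasCompactSupport β := by
  refine HasCompactSupport.of_support_subset_isCompact (isCompact_Icc (a := (-2 : ℝ)) (b := 2)) ?_
  intro s hs
  by_contra h
  apply hs
  apply β_zero
  rw [mem_Icc, not_and_or, not_le, not_le] at h
  rcases h with h | h <;> nlinarith

/-- bounded functions of compact support -/
lemma bound {b : ℝ → ℝ} (hb : Sm b) (hc : HasCompactSupport b) : ∃ C : ℝ, 0 ≤ C ∧ ∀ s, |b s| ≤ C := by
  obtain ⟨C, hC⟩ := hc.exists_bound_of_continuous hb.continuous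
  exact ⟨C, (norm_nonneg _).trans (hC 0), hC⟩

lemma bnd_D {ρ : E → ℝ} (h : Dom ρ) {F : Type*} [NormedAddCommGroup F] {f : E → F}
    (hf : Continuous f) : ∃ C : ℝ, 0 ≤ C ∧ ∀ x ∈ D ρ, ‖f x‖ ≤ C := by
  obtain ⟨C, hC⟩ := Neu.bdd_of_cont hf h.bdd
  exact ⟨max C 0, le_max_right _ _, fun x hx => (hC x hx).trans (le_max_left _ _)⟩

lemma comp_sm {ρ : E → ℝ} (h : Sm ρ) {b : ℝ → ℝ} (hb : Sm b) (δ : ℝ) :
    Sm fun x => b (ρ x / δ) := hb.comp (h.div_const δ)

lemma pd_comp {ρ : E → ℝ} (h : Sm ρ) {b : ℝ → ℝ} (hb : Sm b) (δ : ℝ) (i : Fin 3) (x : E) :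
    pd i (fun y => b (ρ y / δ)) x = deriv b (ρ x / δ) * (pd i ρ x / δ) := by
  unfold pd
  have h1 : HasFDerivAt (fun y => ρ y / δ) (δ⁻¹ • fderiv ℝ ρ x) x := by
    have := (h.differentiable x).hasFDerivAt.mul_const δ⁻¹
    simpa only [div_eq_mul_inv] using this
  have h2 : HasDerivAt b (deriv b (ρ x / δ)) (ρ x / δ) :=
    (hb.differentiable (ρ x / δ)).hasDerivAt
  have h3 : HasFDerivAt (fun y => b (ρ y / δ)) (deriv b (ρ x / δ) • δ⁻¹ • fderiv ℝ ρ x) x :=
    h2.comp_hasFDerivAt x h1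
  rw [h3.fderiv]
  simp only [smul_apply, smul_eq_mul]
  ring

lemma hs_bound {ρ : E → ℝ} (h : Dom ρ) (k : ℕ) : ∀ (b : ℝ → ℝ), Sm b → HasCompactSupport b →
    ∀ g : E → ℝ, Sm g → ∃ C : ℝ, 0 ≤ C ∧ ∀ δ : ℝ, 0 < δ → δ ≤ 1 →
      hs (D ρ) k (fun x => b (ρ x / δ) * g x) ≤ C / δ ^ (2 * k) := by
  have hlt := Neu.volume_D_lt h
  have hmeas := Neu.measurableSet_D h
  have hzero : ∀ (b : ℝ → ℝ), Sm b → HasCompactSupport b →
      ∀ g : E → ℝ, Sm g → ∃ C : ℝ, 0 ≤ C ∧ ∀ δ : ℝ, 0 < δ →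
      ∫ x in D ρ, ‖b (ρ x / δ) * g x‖ ^ 2 ≤ C := by
    intro b hb hbc g hg
    obtain ⟨C1, h1, h2⟩ := bound hb hbc
    obtain ⟨C2, h3, h4⟩ := bnd_D h hg.continuous
    refine ⟨(C1 * C2) ^ 2 * (volume (D ρ)).toReal, by positivity, fun δ hδ => ?_⟩
    have h5 : ∫ x in D ρ, ‖b (ρ x / δ) * g x‖ ^ 2 ≤ ∫ _ in D ρ, (C1 * C2) ^ 2 := by
      refine setIntegral_mono_on ?_ (integrableOn_const hlt.ne) hmeas fun x hx => ?_
      · exact HSB.integrableOn (HSB.sq_cont ((comp_sm h.smooth hb δ).mul hg)) (Or.inl h.bdd)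
      · rw [norm_mul]
        exact pow_le_pow_left₀ (by positivity)
          (mul_le_mul (h2 _) (h4 x hx) (norm_nonneg _) h1) 2
    rw [setIntegral_const] at h5
    simp only [smul_eq_mul, Measure.real] at h5
    linarith
  induction k with
  | zero =>
    intro b hb hbc g hg
    obtain ⟨C, h1, h2⟩ := hzero b hb hbc g hg
    refine ⟨C, h1, fun δ hδ _ => ?_⟩
    rw [mul_zero, pow_zero, div_one]
    exact h2 δ hδ
  | succ k ih =>
    intro b hb hbc g hg
    obtain ⟨C0, h01, h02⟩ := hzero b hb hbc g hg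
    have hb' : Sm (deriv b) := by
      have := (contDiff_infty_iff_deriv (f := b)).mp hb
      exact this.2
    have hbc' : HasCompactSupport (deriv b) := hbc.deriv
    choose C1 hC1 hC1' using fun i : Fin 3 => ih (deriv b) hb' hbc' (fun x => pd i ρ x * g x)
      ((h.smooth.pd i).mul hg)
    choose C2 hC2 hC2' using fun i : Fin 3 => ih b hb hbc (pd i g) (hg.pd i)
    refine ⟨C0 + ∑ i, (2 * C1 i + 2 * C2 i), ?_, fun δ hδ hδ1 => ?_⟩
    · exact add_nonneg h01 (Finset.sum_nonneg fun i _ => by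
        have := hC1 i; have := hC2 i; positivity)
    have e1 : δ ^ (2 * (k + 1)) = δ ^ (2 * k) * δ ^ 2 := by ring
    have hpos : 0 < δ ^ (2 * (k + 1)) := by positivity
    have hpos' : 0 < δ ^ (2 * k) := by positivity
    show (∫ x in D ρ, ‖b (ρ x / δ) * g x‖ ^ 2) +
      ∑ i, hs (D ρ) k (pd i fun x => b (ρ x / δ) * g x) ≤ _
    rw [add_div, Finset.sum_div]
    refine add_le_add ?_ (Finset.sum_le_sum fun i _ => ?_)
    · refine (h02 δ hδ).trans ?_
      rw [le_div_iff₀ hpos]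
      exact mul_le_of_le_one_right h01 (pow_le_one₀ hδ.le hδ1)
    · have h1 : (pd i fun x => b (ρ x / δ) * g x) = fun x =>
          (1 / δ) • (deriv b (ρ x / δ) * (pd i ρ x * g x)) + b (ρ x / δ) * pd i g x := by
        funext x
        rw [PDC.pd_mul ((comp_sm h.smooth hb δ).differentiable x) (hg.differentiable x),
          pd_comp h.smooth hb, smul_eq_mul]
        ring
      rw [h1]
      have s1 : Sm fun x => deriv b (ρ x / δ) * (pd i ρ x * g x) :=
        (comp_sm h.smooth hb' δ).mul ((h.smooth.pd i).mul hg)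
      have s2 : Sm fun x => b (ρ x / δ) * pd i g x := (comp_sm h.smooth hb δ).mul (hg.pd i)
      refine (HSB.add_le k _ _ (Or.inl h.bdd) (s1.const_smul (1 / δ)) s2).trans ?_
      rw [HSB.smul _ _ _ _ s1]
      have h3 := hC1' i δ hδ hδ1
      have h4 := hC2' i δ hδ hδ1
      rw [add_div]
      refine add_le_add ?_ ?_
      · have h5 : 2 * C1 i / δ ^ (2 * (k + 1)) = 2 * ((1 / δ) ^ 2 * (C1 i / δ ^ (2 * k))) := by
          rw [e1]; field_simp
        rw [h5]
        gcongr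
      · rw [mul_div_assoc]
        refine mul_le_mul_of_nonneg_left (h4.trans ?_) (by norm_num)
        refine div_le_div_of_nonneg_left (hC2 i) hpos ?_
        rw [e1]
        exact mul_le_of_le_one_right hpos'.le (pow_le_one₀ hδ.le hδ1)

lemma curl_smul {φ : E → ℝ} {v : E → E} (hφ : Sm φ) (hv : Sm v) (x : E) :
    curl (fun y => φ y • v y) x = φ x • curl v x + cr (gr φ x) (v x) := by
  have h : ∀ i, pd i (fun y => φ y • v y) x = φ x • pd i v x + pd i φ x • v x := fun i =>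
    PDC.pd_smul (hφ.differentiable x) (hv.differentiable x) i
  ext j
  fin_cases j <;> simp [h] <;> ring

/-- the cut field -/
noncomputable def cut (ρ : E → ℝ) (C V : E → E) (k : ℕ) (δ : ℝ) (x : E) : E :=
  curl (fun y => (β (ρ y / δ) * ρ y) • C y) x + β (ρ x / δ) • (ρ x ^ (k + 2) • V x)

lemma cut_sm {ρ : E → ℝ} (h : Sm ρ) {C V : E → E} (hC : Sm C) (hV : Sm V) (k : ℕ) (δ : ℝ) :
    Sm (cut ρ C V k δ) := by
  have h1 : Sm fun y => (β (ρ y / δ) * ρ y) • C y := ((comp_sm h β_sm δ).mul h).smul hC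
  exact h1.curl.add ((comp_sm h β_sm δ).smul ((h.pow _).smul hV))

lemma curl_congr {v w : E → E} {x : E} (h : v =ᶠ[𝓝 x] w) : curl v x = curl w x := by
  have h1 : ∀ i, pd i v x = pd i w x := fun i => by
    unfold pd
    rw [h.fderiv_eq]
  unfold curl
  simp only [h1]

lemma cut_near {ρ : E → ℝ} (h : Sm ρ) {C V : E → E} {k : ℕ} {δ : ℝ} (hδ : 0 < δ) {x : E}
    (hx : |ρ x| ≤ δ) :
    cut ρ C V k δ x = curl (fun y => ρ y • C y) x + ρ x ^ (k + 2) • V x := by
  have h1 : (ρ x / δ) ^ 2 < 2 := by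
    rw [div_pow, div_lt_iff₀ (by positivity), ← sq_abs (ρ x)]
    have := pow_le_pow_left₀ (abs_nonneg _) hx 2
    nlinarith
  have h2 : ∀ᶠ y in 𝓝 x, (ρ y / δ) ^ 2 < 2 :=
    ((h.continuous.div_const δ).pow 2).continuousAt.eventually (gt_mem_nhds h1)
  have h3 : (fun y => (β (ρ y / δ) * ρ y) • C y) =ᶠ[𝓝 x] fun y => ρ y • C y := by
    filter_upwards [h2] with y hy
    rw [β_one hy.le, one_mul]
  unfold cut
  rw [curl_congr h3, β_one h1.le, one_smul]

lemma curl_zero (x : E) : curl (fun _ => (0 : E)) x = 0 := by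
  ext j
  fin_cases j <;> simp [pd]

lemma cut_far {ρ : E → ℝ} (h : Sm ρ) {C V : E → E} {k : ℕ} {δ : ℝ} (hδ : 0 < δ) {x : E}
    (hx : 2 * δ ≤ |ρ x|) : cut ρ C V k δ x = 0 := by
  have h1 : 3 < (ρ x / δ) ^ 2 := by
    rw [div_pow, lt_div_iff₀ (by positivity), ← sq_abs (ρ x)]
    have := pow_le_pow_left₀ (by positivity) hx 2
    nlinarith [sq_pos_of_pos hδ]
  have h2 : ∀ᶠ y in 𝓝 x, 3 < (ρ y / δ) ^ 2 :=
    ((h.continuous.div_const δ).pow 2).continuousAt.eventually (lt_mem_nhds h1)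
  have h3 : (fun y => (β (ρ y / δ) * ρ y) • C y) =ᶠ[𝓝 x] fun _ => (0 : E) := by
    filter_upwards [h2] with y hy
    rw [β_zero hy.le, zero_mul, zero_smul]
  unfold cut
  rw [curl_congr h3, β_zero h1.le, zero_smul, add_zero, curl_zero]

lemma gr_cut {ρ : E → ℝ} (h : Sm ρ) {δ : ℝ} (hδ : 0 < δ) (x : E) :
    gr (fun y => β (ρ y / δ) * ρ y) x =
      (deriv β (ρ x / δ) * (ρ x / δ) + β (ρ x / δ)) • gr ρ x := by
  ext i
  rw [gr_apply, PDC.pd_mul ((comp_sm h β_sm δ).differentiable x) (h.differentiable x),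
    pd_comp h β_sm, PiLp.smul_apply, gr_apply, smul_eq_mul]
  field_simp
  ring

lemma deriv_sm {b : ℝ → ℝ} (hb : Sm b) : Sm (deriv b) := by
  have := (contDiff_infty_iff_deriv (f := b)).mp hb
  exact this.2

lemma dv_cut {ρ : E → ℝ} (h : Sm ρ) {C V : E → E} (hC : Sm C) (hV : Sm V) (k : ℕ) {δ : ℝ}
    (hδ : 0 < δ) {x : E} (hx : dv (fun y => ρ y ^ (k + 2) • V y) x = 0) :
    dv (cut ρ C V k δ) x = δ ^ (k + 1) •
      ((fun s => deriv β s * s ^ (k + 2)) (ρ x / δ) * inner ℝ (V x) (gr ρ x)) := by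
  have h1 : Sm fun y => (β (ρ y / δ) * ρ y) • C y := ((comp_sm h β_sm δ).mul h).smul hC
  have h2 : Sm fun y => ρ y ^ (k + 2) • V y := (h.pow _).smul hV
  have h3 : dv (fun x => curl (fun y => (β (ρ y / δ) * ρ y) • C y) x +
    β (ρ x / δ) • (ρ x ^ (k + 2) • V x)) x = dv (curl fun y => (β (ρ y / δ) * ρ y) • C y) x +
      dv (fun y => β (ρ y / δ) • (ρ y ^ (k + 2) • V y)) x :=
    Ler.dv_add h1.curl ((comp_sm h β_sm δ).smul h2) x
  have h4 := Ler.dv_mul (comp_sm h β_sm δ) h2 x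
  have h5 : gr (fun y => β (ρ y / δ)) x = (deriv β (ρ x / δ) / δ) • gr ρ x := by
    ext i
    rw [gr_apply, pd_comp h β_sm, PiLp.smul_apply, gr_apply, smul_eq_mul]
    ring
  show dv (fun x => curl (fun y => (β (ρ y / δ) * ρ y) • C y) x +
    β (ρ x / δ) • (ρ x ^ (k + 2) • V x)) x = _
  rw [h3, PDC.dv_curl h1, h4, hx, h5, inner_smul_left, inner_smul_right, smul_eq_mul]
  simp only [conj_trivial, div_pow]
  have h6 : δ ^ (k + 2) = δ * δ ^ (k + 1) := by ring
  rw [h6]
  field_simp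
  ring

end FCut

open FCut in
theorem specCutF (hH : SpecHad) (hCr : SpecCr) : SpecCutF := by
  intro ρ u hρ hu k
  obtain ⟨h0, hh0, hdv⟩ := specFlatD hH ρ (dv u) hρ hu.smooth.dv hu.dv0 (k + 1)
  obtain ⟨C, V, hC, hV, hdec⟩ := hCr ρ (k + 1) u h0 univ hρ hu.smooth hh0 hu.tan isOpen_univ
    (fun _ _ => mem_univ _) (fun x _ => hdv x)
  have hβ' : Sm (deriv β) := deriv_sm β_sm
  have hb1 : Sm fun s => deriv β s * s ^ (k + 2) := hβ'.mul (contDiff_id.pow _)
  have hb2 : HasCompactSupport fun s => deriv β s * s ^ (k + 2) := β_hcs.deriv.mul_right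
  have hg1 : Sm fun s => deriv β s * s + β s := (hβ'.mul contDiff_id).add β_sm
  have hg2 : HasCompactSupport fun s => deriv β s * s + β s :=
    (β_hcs.deriv.mul_right (f' := fun s => s)).add β_hcs
  obtain ⟨cβ, cβ0, cβ1⟩ := bound β_sm β_hcs
  obtain ⟨cγ, cγ0, cγ1⟩ := bound hg1 hg2
  obtain ⟨cρ, cρ0, cρ1⟩ := bnd_D hρ.toDom hρ.smooth.continuous
  obtain ⟨cN, cN0, cN1⟩ := bnd_D hρ.toDom hρ.smooth.gr.continuous
  obtain ⟨cC, cC0, cC1⟩ := bnd_D hρ.toDom hC.continuous
  obtain ⟨cK, cK0, cK1⟩ := bnd_D hρ.toDom hC.curl.continuous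
  obtain ⟨cV, cV0, cV1⟩ := bnd_D hρ.toDom hV.continuous
  obtain ⟨cH, cH0, cH1⟩ := hs_bound hρ.toDom k _ hb1 hb2 (fun x => inner ℝ (V x) (gr ρ x))
    (hV.inner ℝ hρ.smooth.gr)
  refine ⟨cβ * cρ * cK + cγ * cN * cC + cβ * (cρ ^ (k + 2) * cV) + cH, by positivity,
    fun δ hδ hδ1 => ⟨cut ρ C V k δ, cut_sm hρ.smooth hC hV k δ, fun x hx => ?_,
      fun x hx => cut_far hρ.smooth hδ hx, fun x hx => ?_, ?_⟩⟩
  · rw [cut_near hρ.smooth hδ hx, hdec x]
  · have h1 : Sm fun y => β (ρ y / δ) * ρ y := (comp_sm hρ.smooth β_sm δ).mul hρ.smooth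
    have e : cut ρ C V k δ x = (β (ρ x / δ) * ρ x) • curl C x +
        cr (gr (fun y => β (ρ y / δ) * ρ y) x) (C x) + β (ρ x / δ) • (ρ x ^ (k + 2) • V x) := by
      unfold cut
      rw [curl_smul h1 hC]
    rw [e, gr_cut hρ.smooth hδ]
    have n1 : ‖(β (ρ x / δ) * ρ x) • curl C x‖ ≤ cβ * cρ * cK := by
      rw [norm_smul, norm_mul]
      exact mul_le_mul (mul_le_mul (cβ1 _) (cρ1 x hx) (norm_nonneg _) cβ0) (cK1 x hx)
        (norm_nonneg _) (by positivity)
    have n2 : ‖cr ((deriv β (ρ x / δ) * (ρ x / δ) + β (ρ x / δ)) • gr ρ x) (C x)‖ ≤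
        cγ * cN * cC := by
      refine (PAux.norm_cr_le _ _).trans ?_
      rw [norm_smul]
      exact mul_le_mul (mul_le_mul (cγ1 _) (cN1 x hx) (norm_nonneg _) cγ0) (cC1 x hx)
        (norm_nonneg _) (by positivity)
    have n3 : ‖β (ρ x / δ) • (ρ x ^ (k + 2) • V x)‖ ≤ cβ * (cρ ^ (k + 2) * cV) := by
      rw [norm_smul, norm_smul, norm_pow]
      exact mul_le_mul (cβ1 _) (mul_le_mul (pow_le_pow_left₀ (norm_nonneg _) (cρ1 x hx) _)
        (cV1 x hx) (norm_nonneg _) (by positivity)) (by positivity) cβ0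
    have n4 := norm_add_le ((β (ρ x / δ) * ρ x) • curl C x +
      cr ((deriv β (ρ x / δ) * (ρ x / δ) + β (ρ x / δ)) • gr ρ x) (C x))
      (β (ρ x / δ) • (ρ x ^ (k + 2) • V x))
    have n5 := norm_add_le ((β (ρ x / δ) * ρ x) • curl C x)
      (cr ((deriv β (ρ x / δ) * (ρ x / δ) + β (ρ x / δ)) • gr ρ x) (C x))
    linarith
  · have hzero : ∀ x ∈ D ρ, dv (fun y => ρ y ^ (k + 2) • V y) x = 0 := by
      intro x hx
      have hx' : ρ x < 0 := hx
      have e1 : (fun y => ρ y ^ (k + 2) • V y) = fun y => u y - curl (fun z => ρ z • C z) y := by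
        funext y
        rw [hdec y]
        simp
      have e2 : Sm fun z => ρ z • C z := hρ.smooth.smul hC
      rw [e1, Ler.dv_sub hu.smooth e2.curl, PDC.dv_curl e2, hu.dv0 x hx'.le, sub_zero]
    rw [HSB.congr k _ (fun x => δ ^ (k + 1) •
      ((fun s => deriv β s * s ^ (k + 2)) (ρ x / δ) * inner ℝ (V x) (gr ρ x)))
      (Neu.isOpen_D hρ.toDom) (fun x hx => dv_cut hρ.smooth hC hV k hδ (hzero x hx)),
      HSB.smul _ _ _ _ ((comp_sm hρ.smooth hb1 δ).mul (hV.inner ℝ hρ.smooth.gr))]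
    have h1 := cH1 δ hδ hδ1
    have h2 : (δ ^ (k + 1)) ^ 2 * (cH / δ ^ (2 * k)) = cH * δ ^ 2 := by
      have : δ ^ (2 * k) ≠ 0 := by positivity
      field_simp
      ring
    have h3 : (δ ^ (k + 1)) ^ 2 * hs (D ρ) k (fun x =>
        (fun s => deriv β s * s ^ (k + 2)) (ρ x / δ) * inner ℝ (V x) (gr ρ x)) ≤
        (δ ^ (k + 1)) ^ 2 * (cH / δ ^ (2 * k)) := by gcongr
    have h4 : cH * δ ^ 2 ≤ cH * δ := by
      apply mul_le_mul_of_nonneg_left _ cH0
      nlinarith
    have h5 : 0 ≤ (cβ * cρ * cK + cγ * cN * cC + cβ * (cρ ^ (k + 2) * cV)) * δ := by positivity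
    nlinarith

end MPfab
end

section
/-!
MP_fabde4_an, part P: module LIMEQ (helper87): the limit satisfies the integrated equation.
-/
set_option autoImplicit false
open MeasureTheory Set Filter

namespace MPfab

namespace LimEqM

/-- continuity of the nonlinear term -/
theorem cont_term (hAlg : SpecIncAlg) {R T0 : ℝ} (hR : 0 < R) {P : ℝ → (E → E) → (E → E)}
    {κ : ℕ → ℝ → ℝ} (hP : VLaw R T0 P κ) {A B : ℝ × E → E} (hA : InC R 0 A) (hB : InC R 0 B) :
    Continuous fun p : ℝ × E => cr (curl (sl A p.1) p.2) (vel P B p) :=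
  (hAlg.crc R 0 A (vel P B) hR hA (hP.inc 0 B hB)).2 []

theorem norm_curl_le {w : E → E} {x : E} {c : ℝ} (h : ∀ i, ‖pd i w x‖ ^ 2 ≤ c) :
    ‖curl w x‖ ^ 2 ≤ 12 * c := by
  have h1 := PAux.norm_sq_curl_le w x
  rw [Fin.sum_univ_three] at h1
  linarith [h 0, h 1, h 2]

theorem cont_rhs (hAlg : SpecIncAlg) {R T0 : ℝ} (hR : 0 < R) {P : ℝ → (E → E) → (E → E)}
    {κ : ℕ → ℝ → ℝ} (hP : VLaw R T0 P κ) {F A A' : ℝ × E → E} (hF : InT R F) (hA : InC R 0 A)
    (hA' : InC R 0 A') (x : E) : Continuous fun s : ℝ =>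
      F (s, x) - cr (curl (sl A s) x) (P s (sl A' s) x) := by
  have hFc : Continuous fun s : ℝ => F (s, x) :=
    hF.smooth.continuous.comp (Continuous.prodMk continuous_id continuous_const)
  have h2 : Continuous fun s : ℝ => ((s, x) : ℝ × E) :=
    Continuous.prodMk continuous_id continuous_const
  have h3 := (cont_term hAlg hR hP hA hA').comp h2
  have h4 : Continuous fun s : ℝ => cr (curl (sl A s) x) (P s (sl A' s) x) := by
    simpa only [Function.comp_def, vel] using h3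
  exact hFc.sub h4

theorem dt_eq {R : ℝ} {P : ℝ → (E → E) → (E → E)} {V F : ℝ × E → E} {m : ℕ → ℝ × E → E}
    (hit : Iter R P V F m) (n : ℕ) (s : ℝ) (x : E) :
    dt (m (n + 1)) (s, x) = F (s, x) - cr (curl (sl (m (n + 1)) s) x) (P s (sl (m n) s) x) := by
  have h3 := hit.step n s x
  exact eq_sub_of_add_eq h3

theorem ftc (hAlg : SpecIncAlg) {R T0 : ℝ} {P : ℝ → (E → E) → (E → E)}
    {κ : ℕ → ℝ → ℝ} {V F g : ℝ × E → E} (hD : Data R T0 P κ V F g) {m : ℕ → ℝ × E → E}
    (hit : Iter R P V F m) (hmC : ∀ n, InC R 0 (m n)) (n : ℕ) (t : ℝ) (x : E) :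
    m (n + 1) (t, x) = V (0, x) +
      ∫ s in (0 : ℝ)..t, (F (s, x) - cr (curl (sl (m (n + 1)) s) x) (P s (sl (m n) s) x)) := by
  have h1 : ∀ s ∈ uIcc (0 : ℝ) t, HasDerivAt (fun s => m (n + 1) (s, x))
      (F (s, x) - cr (curl (sl (m (n + 1)) s) x) (P s (sl (m n) s) x)) s := by
    intro s _
    rw [← dt_eq hit n s x]
    exact PDC.hasDerivAt_dt (hit.smooth (n + 1)).smooth s x
  rw [intervalIntegral.integral_eq_sub_of_hasDerivAt h1
    ((cont_rhs hAlg hD.R_pos hD.law hD.F_in (hmC (n + 1)) (hmC n) x).intervalIntegrable 0 t)]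
  have h5 : m (n + 1) (0, x) = V (0, x) := congrFun (hit.init (n + 1)) x
  rw [h5]
  abel

end LimEqM

open LimEqM in
/-- module LIMEQ -/
theorem specLimEq (hSm : SpecIncSm) (hAlg : SpecIncAlg) (hSup : SpecSupU) : SpecLimEq := by
  intro R T0 P κ V F g hD m hit M hM hconv t x
  have hR := hD.R_pos
  have hP := hD.law
  obtain ⟨C, hC, hSupC⟩ := hSup R hR
  have hmC : ∀ n, InC R 0 (m n) := fun n => hSm.inc E R 0 (m n) hR (hit.smooth n)
  have hin : ∀ n s, In R (sl (m n) s) := fun n s => (hmC n).1 s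
  have hMin : ∀ s, In R (sl M s) := hM.1
  have hd : ∀ n s, In R (fun y => m n (s, y) - M (s, y)) := fun n s =>
    PAux.in_sub (hin n s) (hMin s)
  -- bound of `κ 2`
  obtain ⟨K0, hK0⟩ := hP.bdd 2
  have hKn : 0 ≤ K0 := le_trans (hP.nonneg 2 0) (hK0 0)
  obtain ⟨a4, ha4, ha4'⟩ := hconv 4
  obtain ⟨a3, ha3, ha3'⟩ := hconv 3
  -- squares
  have hsq : ∀ (k : ℕ) (a : ℕ → ℝ), (∀ n s, √(hs univ k (fun y => m n (s, y) - M (s, y))) ≤ a n) →
      ∀ n s, hs univ k (fun y => m n (s, y) - M (s, y)) ≤ a n ^ 2 := by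
    intro k a ha n s
    have h1 : 0 ≤ hs univ k (fun y => m n (s, y) - M (s, y)) := HSB.nonneg _ _ _
    rw [← Real.sq_sqrt h1]
    exact pow_le_pow_left₀ (Real.sqrt_nonneg _) (ha n s) 2
  -- difference of curls
  have hw : ∀ n s, ‖curl (sl (m n) s) x - curl (sl M s) x‖ ≤ √(12 * (C * a4 n ^ 2)) := by
    intro n s
    have h1 := congrFun (PAux.curl_sub (hin n s).smooth (hMin s).smooth) x
    have h2 : curl (sl (m n) s) x - curl (sl M s) x = curl (fun y => m n (s, y) - M (s, y)) x :=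
      h1.symm
    rw [h2]
    refine Real.le_sqrt_of_sq_le ?_
    refine norm_curl_le fun i => ?_
    have h3 := hSupC E _ (hd n s) [i] x
    refine h3.trans ?_
    exact mul_le_mul_of_nonneg_left (hsq 4 a4 ha4' n s) hC
  -- difference of velocities
  set b3 : ℕ → ℝ := fun n => √C * (K0 * √((4 * (2 + 1) + 1) * a3 n ^ 2)) with hb3
  have hb : ∀ n s, ‖P s (sl (m n) s) x - P s (sl M s) x‖ ≤ b3 n := by
    intro n s
    have h0 : P s (sl (m n) s) x - P s (sl M s) x =
        P s (fun y => m n (s, y) - M (s, y)) x := by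
      have h1 := hP.smul s (-1) (sl M s) (hMin s)
      have h2 := hP.add s (sl (m n) s) (fun y => (-1 : ℝ) • sl M s y) (hin n s) (by
        have := PAux.in_neg (hMin s)
        simpa using this)
      have h3 : (fun y => sl (m n) s y + (-1 : ℝ) • sl M s y) = fun y => m n (s, y) - M (s, y) := by
        funext y
        simp [sl, sub_eq_add_neg]
      rw [h3] at h2
      rw [h2]
      simp only
      rw [h1]
      simp [sub_eq_add_neg]
    rw [h0]
    have hin' := PAux.law_in hP s (hd n s)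
    have h1 := hSupC E _ hin' [] x
    have h2 : ‖P s (fun y => m n (s, y) - M (s, y)) x‖ ≤
        √(C * hs univ 3 (P s (fun y => m n (s, y) - M (s, y)))) := Real.le_sqrt_of_sq_le h1
    refine h2.trans ?_
    rw [Real.sqrt_mul hC]
    refine mul_le_mul_of_nonneg_left ?_ (Real.sqrt_nonneg _)
    refine (hP.bound s 2 _ (hd n s)).trans ?_
    refine mul_le_mul (hK0 s) ?_ (Real.sqrt_nonneg _) hKn
    refine Real.sqrt_le_sqrt ?_
    refine (PAux.nq_le hR 2 (hd n s)).trans ?_
    have := hsq 3 a3 ha3' n s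
    push_cast
    exact mul_le_mul_of_nonneg_left this (by norm_num)
  have hwt : Tendsto (fun n => √(12 * (C * a4 (n + 1) ^ 2))) atTop (nhds 0) := by
    have h1 := (((ha4.comp (tendsto_add_atTop_nat 1)).pow 2).const_mul C).const_mul 12
    have h2 := (Real.continuous_sqrt.tendsto _).comp h1
    have h3 : √(12 * (C * (0 : ℝ) ^ 2)) = 0 := by simp
    rw [h3] at h2
    exact h2
  have hbt : Tendsto b3 atTop (nhds 0) := by
    have h1 := ((ha3.pow 2).const_mul (4 * (2 + 1) + 1))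
    have h2 := (((Real.continuous_sqrt.tendsto _).comp h1).const_mul K0).const_mul (√C)
    simpa [hb3] using h2
  -- bounds of the limit
  have hwc : Continuous fun s : ℝ => curl (sl M s) x := by
    have hc : ∀ i j, Continuous fun s : ℝ => pd i (sl M s) x j := by
      intro i j
      have h1 : Continuous fun p : ℝ × E => pd i (sl M p.1) p.2 := hM.2 [i]
      have h2 : Continuous fun s : ℝ => pd i (sl M s) x :=
        h1.comp (Continuous.prodMk continuous_id continuous_const)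
      exact (EuclideanSpace.proj j : E →L[ℝ] ℝ).continuous.comp h2
    refine (PiLp.continuous_toLp 2 _).comp (continuous_pi fun j => ?_)
    fin_cases j
    · exact (hc 1 2).sub (hc 2 1)
    · exact (hc 2 0).sub (hc 0 2)
    · exact (hc 0 1).sub (hc 1 0)
  have hbc : Continuous fun s : ℝ => P s (sl M s) x :=
    ((hP.inc 0 M hM).2 []).comp (Continuous.prodMk continuous_id continuous_const)
  obtain ⟨W, hW⟩ := (isCompact_uIcc (a := (0 : ℝ)) (b := t)).exists_bound_of_continuousOn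
    hwc.continuousOn
  obtain ⟨B, hB⟩ := (isCompact_uIcc (a := (0 : ℝ)) (b := t)).exists_bound_of_continuousOn
    hbc.continuousOn
  -- the equation of the iterates
  have hGc : ∀ {A A' : ℝ × E → E}, InC R 0 A → InC R 0 A' → Continuous fun s : ℝ =>
      F (s, x) - cr (curl (sl A s) x) (P s (sl A' s) x) := fun hA hA' =>
    cont_rhs hAlg hR hP hD.F_in hA hA' x
  have hftc : ∀ n, m (n + 1) (t, x) = V (0, x) +
      ∫ s in (0 : ℝ)..t, (F (s, x) - cr (curl (sl (m (n + 1)) s) x) (P s (sl (m n) s) x)) :=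
    fun n => ftc hAlg hD hit hmC n t x
  -- convergence
  have hlim1 : Tendsto (fun n => m (n + 1) (t, x)) atTop (nhds (M (t, x))) := by
    rw [tendsto_iff_norm_sub_tendsto_zero]
    have h1 : ∀ n, ‖m (n + 1) (t, x) - M (t, x)‖ ≤ √(C * a3 (n + 1) ^ 2) := by
      intro n
      refine Real.le_sqrt_of_sq_le ?_
      have h3 := hSupC E _ (hd (n + 1) t) [] x
      refine h3.trans ?_
      exact mul_le_mul_of_nonneg_left (hsq 3 a3 ha3' (n + 1) t) hC
    have h2 : Tendsto (fun n => √(C * a3 (n + 1) ^ 2)) atTop (nhds 0) := by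
      have h1 := ((ha3.comp (tendsto_add_atTop_nat 1)).pow 2).const_mul C
      have h2 := (Real.continuous_sqrt.tendsto _).comp h1
      have h3 : √(C * (0 : ℝ) ^ 2) = 0 := by simp
      rw [h3] at h2
      exact h2
    exact squeeze_zero (fun n => norm_nonneg _) h1 h2
  have hlim2 : Tendsto (fun n => m (n + 1) (t, x)) atTop (nhds (V (0, x) +
      ∫ s in (0 : ℝ)..t, (F (s, x) - cr (curl (sl M s) x) (P s (sl M s) x)))) := by
    rw [tendsto_iff_norm_sub_tendsto_zero]
    have h1 : ∀ n, ‖m (n + 1) (t, x) - (V (0, x) +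
        ∫ s in (0 : ℝ)..t, (F (s, x) - cr (curl (sl M s) x) (P s (sl M s) x)))‖ ≤
        (√(12 * (C * a4 (n + 1) ^ 2)) * (|B| + b3 n) + |W| * b3 n) * |t| := by
      intro n
      rw [hftc n, add_sub_add_left_eq_sub, ← intervalIntegral.integral_sub
        ((hGc (hmC (n + 1)) (hmC n)).intervalIntegrable 0 t)
        ((hGc hM hM).intervalIntegrable 0 t)]
      have h2 := intervalIntegral.norm_integral_le_of_norm_le_const (a := (0 : ℝ)) (b := t)
        (f := fun s => (F (s, x) - cr (curl (sl (m (n + 1)) s) x) (P s (sl (m n) s) x)) -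
          (F (s, x) - cr (curl (sl M s) x) (P s (sl M s) x)))
        (C := √(12 * (C * a4 (n + 1) ^ 2)) * (|B| + b3 n) + |W| * b3 n) ?_
      · rw [sub_zero] at h2
        exact h2
      · intro s hs
        have hs' : s ∈ uIcc (0 : ℝ) t := uIoc_subset_uIcc hs
        have e : (F (s, x) - cr (curl (sl (m (n + 1)) s) x) (P s (sl (m n) s) x)) -
            (F (s, x) - cr (curl (sl M s) x) (P s (sl M s) x)) =
            -(cr (curl (sl (m (n + 1)) s) x - curl (sl M s) x) (P s (sl (m n) s) x) +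
              cr (curl (sl M s) x) (P s (sl (m n) s) x - P s (sl M s) x)) := by
          rw [PAux.cr_sub_left, PAux.cr_sub_right]
          abel
        rw [e, norm_neg]
        refine (norm_add_le _ _).trans ?_
        have hb0 : ‖P s (sl (m n) s) x‖ ≤ |B| + b3 n := by
          have h3 : P s (sl (m n) s) x = P s (sl M s) x +
              (P s (sl (m n) s) x - P s (sl M s) x) := by abel
          rw [h3]
          refine (norm_add_le _ _).trans (add_le_add ?_ (hb n s))
          exact (hB s hs').trans (le_abs_self B)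
        have hb3n : 0 ≤ b3 n := le_trans (norm_nonneg _) (hb n s)
        refine add_le_add ?_ ?_
        · refine (PAux.norm_cr_le _ _).trans ?_
          exact mul_le_mul (hw (n + 1) s) hb0 (norm_nonneg _) (Real.sqrt_nonneg _)
        · refine (PAux.norm_cr_le _ _).trans ?_
          exact mul_le_mul ((hW s hs').trans (le_abs_self W)) (hb n s) (norm_nonneg _)
            (abs_nonneg _)
    have h2 : Tendsto (fun n => (√(12 * (C * a4 (n + 1) ^ 2)) * (|B| + b3 n) + |W| * b3 n) * |t|)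
        atTop (nhds 0) := by
      have h3 := (hwt.mul (hbt.const_add |B|)).add (hbt.const_mul |W|)
      have h4 := h3.mul_const |t|
      simpa using h4
    exact squeeze_zero (fun n => norm_nonneg _) h1 h2
  exact tendsto_nhds_unique hlim1 hlim2

end MPfab
end

section
/-!
MP_fabde4_an, part P: auxiliary facts for the modules ITM, ITDIFF (helper87).
-/
set_option autoImplicit false
open MeasureTheory Set Filter

namespace MPfab

namespace ItAux

variable {F : Type*} [NormedAddCommGroup F] [NormedSpace ℝ F]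

theorem hs_zero (S : Set E) (k : ℕ) : hs S k (fun _ : E => (0 : F)) = 0 := by
  induction k with
  | zero => simp [hs]
  | succ k ih =>
    show (∫ x in S, ‖(0 : F)‖ ^ 2) + ∑ i, hs S k (pd i (fun _ : E => (0 : F))) = 0
    have h : ∀ i, pd i (fun _ : E => (0 : F)) = fun _ => 0 := by
      intro i
      funext x
      unfold pd
      simp
    simp only [h, ih]
    simp

theorem curl_zero : curl (fun _ : E => (0 : E)) = fun _ => 0 := by
  funext x
  have h : ∀ i, pd i (fun _ : E => (0 : E)) x = 0 := by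
    intro i
    unfold pd
    simp
  ext j
  fin_cases j <;> simp [curl, h]

theorem nq_zero (k : ℕ) : nq univ k (fun _ : E => (0 : E)) = 0 := by
  unfold nq
  rw [curl_zero, hs_zero, hs_zero, add_zero]

theorem hs_neg (k : ℕ) {f : E → F} (hf : Sm f) : hs univ k (fun x => -f x) = hs univ k f := by
  have h := HSB.smul univ k (-1) f hf
  have e : (fun x => (-1 : ℝ) • f x) = fun x => -f x := by
    funext x
    simp
  rw [e] at h
  rw [h]
  ring

theorem hs_add_le {R : ℝ} (k : ℕ) {f g : E → F} (hf : In R f) (hg : In R g) :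
    hs univ k (fun x => f x + g x) ≤ 2 * hs univ k f + 2 * hs univ k g :=
  HSB.add_le k f g (Or.inr ⟨PAux.hcs hf, PAux.hcs hg⟩) hf.smooth hg.smooth

theorem hs_sub_le {R : ℝ} (k : ℕ) {f g : E → F} (hf : In R f) (hg : In R g) :
    hs univ k (fun x => f x - g x) ≤ 2 * hs univ k f + 2 * hs univ k g := by
  have h := hs_add_le k hf (PAux.in_neg hg)
  rw [hs_neg k hg.smooth] at h
  simpa only [sub_eq_add_neg] using h

theorem nq_sub_le {R : ℝ} (hR : 0 < R) (k : ℕ) {f g : E → E} (hf : In R f) (hg : In R g) :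
    nq univ k (fun x => f x - g x) ≤ 2 * nq univ k f + 2 * nq univ k g := by
  unfold nq
  rw [PAux.curl_sub hf.smooth hg.smooth]
  have h1 := hs_sub_le k (PAux.in_curl hR hf) (PAux.in_curl hR hg)
  have h2 := hs_sub_le 0 hf hg
  linarith

theorem sqrt_add_le {a b : ℝ} : √(a + b) ≤ √a + √b := by
  rcases le_or_gt 0 a with ha | ha
  · rcases le_or_gt 0 b with hb | hb
    · rw [Real.sqrt_le_left (by positivity), add_sq, Real.sq_sqrt ha, Real.sq_sqrt hb]
      have := Real.sqrt_nonneg a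
      have := Real.sqrt_nonneg b
      nlinarith [mul_nonneg (Real.sqrt_nonneg a) (Real.sqrt_nonneg b)]
    · exact (Real.sqrt_le_sqrt (by linarith : a + b ≤ a)).trans (by linarith [Real.sqrt_nonneg b])
  · exact (Real.sqrt_le_sqrt (by linarith : a + b ≤ b)).trans (by linarith [Real.sqrt_nonneg a])

/-- sup norms of the derivatives -/
theorem sup_le (hSup : SpecSupU) {R : ℝ} (hR : 0 < R) : ∃ C : ℝ, 0 ≤ C ∧
    ∀ (G : Type) [NormedAddCommGroup G] [NormedSpace ℝ G] (k : ℕ) (f : E → G), In R f →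
      ∀ L : List (Fin 3), L.length ≤ k → ∀ x, ‖pds L f x‖ ≤ C * √(hs univ (k + 3) f) := by
  obtain ⟨C, hC, h⟩ := hSup R hR
  refine ⟨√C, Real.sqrt_nonneg _, ?_⟩
  intro G _ _ k f hf L hL x
  rw [← Real.sqrt_mul hC]
  refine Real.le_sqrt_of_sq_le ?_
  refine (h G f hf L x).trans ?_
  exact mul_le_mul_of_nonneg_left (HSB.mono univ f (by omega)) hC

/-- the velocity at every level -/
theorem vel_le {R T0 : ℝ} {P : ℝ → (E → E) → (E → E)} {κ : ℕ → ℝ → ℝ} (hP : VLaw R T0 P κ)
    (k : ℕ) (t : ℝ) {f : E → E} (hf : In R f) :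
    √(hs univ k (P t f)) ≤ κ k t * √(nq univ k f) :=
  (Real.sqrt_le_sqrt (HSB.mono univ _ (Nat.le_succ k))).trans (hP.bound t k f hf)

/-- the nonlinear term at every level -/
theorem term_le (hCrb : SpecCrb) {R T0 : ℝ} (hR : 0 < R) {P : ℝ → (E → E) → (E → E)}
    {κ : ℕ → ℝ → ℝ} (hP : VLaw R T0 P κ) (k : ℕ) : ∃ C : ℝ, 0 ≤ C ∧ ∀ (t : ℝ) (a b : E → E),
      In R a → In R b → √(hs univ k (fun x => cr (curl a x) (P t b x))) ≤
        C * √(nq univ (k + 3) a) * √(nq univ (k + 3) b) := by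
  obtain ⟨C, hC, h⟩ := hCrb.high R hR k
  obtain ⟨K, hK⟩ := hP.bdd (k + 3)
  have hK0 : 0 ≤ K := le_trans (hP.nonneg (k + 3) 0) (hK 0)
  refine ⟨C * K, mul_nonneg hC hK0, ?_⟩
  intro t a b ha hb
  have h1 := h (curl a) (P t b) (PAux.in_curl hR ha) (PAux.law_in hP t hb)
  refine h1.trans ?_
  have h2 : √(hs univ (k + 3) (P t b)) ≤ K * √(nq univ (k + 3) b) :=
    (vel_le hP (k + 3) t hb).trans (mul_le_mul_of_nonneg_right (hK t) (Real.sqrt_nonneg _))
  have h3 : √(hs univ (k + 3) (curl a)) ≤ √(nq univ (k + 3) a) :=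
    Real.sqrt_le_sqrt (le_add_of_nonneg_right (HSB.nonneg _ _ _))
  calc C * √(hs univ (k + 3) (P t b)) * √(hs univ (k + 3) (curl a))
      ≤ C * (K * √(nq univ (k + 3) b)) * √(nq univ (k + 3) a) := by
        refine mul_le_mul (mul_le_mul_of_nonneg_left h2 hC) h3 (Real.sqrt_nonneg _) ?_
        exact mul_nonneg hC (mul_nonneg hK0 (Real.sqrt_nonneg _))
    _ = C * K * √(nq univ (k + 3) a) * √(nq univ (k + 3) b) := by ring

/-- a function vanishing for large times has a vanishing time derivative a little later -/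
theorem dt_zero {T0 : ℝ} {f : ℝ × E → F} (h : ∀ t x, T0 ≤ |t| → f (t, x) = 0) (t : ℝ) (x : E)
    (ht : T0 + 1 ≤ |t|) : dt f (t, x) = 0 := by
  unfold dt
  have h1 : (fun s => f (s, (t, x).2)) =ᶠ[nhds (t, x).1] fun _ => 0 := by
    have h2 : {s : ℝ | T0 < |s|} ∈ nhds t :=
      (isOpen_lt continuous_const continuous_abs).mem_nhds (by show T0 < |t|; linarith)
    filter_upwards [h2] with s hs
    exact h s x (le_of_lt hs)
  rw [h1.deriv_eq]
  simp

/-- uniform bounds of all norms for smooth compactly supported functions -/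
theorem bdd_of_supp (hVlb : SpecVlb) {R T0 : ℝ} (hR : 0 < R) (hT : 0 < T0) {f : ℝ × E → E}
    (hf : InT R f) (h : ∀ t x, T0 ≤ |t| → f (t, x) = 0) (k : ℕ) :
    ∃ B, ∀ t, hs univ k (sl f t) ≤ B :=
  hVlb.const R (T0 + 1) hR (by linarith) f hf (fun t x ht => dt_zero h t x ht) k

/-- the time derivative of the iterates vanishes for large times -/
theorem dt_iter_zero (hVlb : SpecVlb) {R T0 : ℝ} {P : ℝ → (E → E) → (E → E)}
    {κ : ℕ → ℝ → ℝ} {V F g : ℝ × E → E} (hD : Data R T0 P κ V F g) {m : ℕ → ℝ × E → E}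
    (hit : Iter R P V F m) (n : ℕ) (t : ℝ) (x : E) (ht : T0 ≤ |t|) : dt (m n) (t, x) = 0 := by
  have hz : ∀ f : E → E, In R f → P t f x = 0 := fun f hf =>
    hVlb.zero R T0 P κ hD.R_pos hD.law t f x ht hf
  have hc : ∀ a : E, cr a 0 = 0 := by
    intro a
    ext j
    fin_cases j <;> simp [cr]
  cases n with
  | zero =>
    rw [hit.zero]
    have h1 := hD.eq t x
    have h2 : vel P V (t, x) = 0 := hz _ (PAux.in_sl hD.V_in t)
    rw [h2, hc, add_zero] at h1
    rw [h1]
    show F (t, x) + g (t, x) = 0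
    rw [hD.F_supp t x ht, hD.g_supp t x ht, add_zero]
  | succ n =>
    rw [LimEqM.dt_eq hit n t x, hz _ (PAux.in_sl (hit.smooth n) t), hc, sub_zero]
    exact hD.F_supp t x ht

/-- `curl` of the nonlinear term -/
theorem curl_term {m b : E → E} (hm : Sm m) (hb : Sm b) :
    curl (fun x => cr (curl m x) (b x)) = lie2 b (curl m) := by
  have hm0 : ∀ j, Sm (fun y => m y j) := fun j => hm.comp_apply j
  have hb0 : ∀ j, Sm (fun y => b y j) := fun j => hb.comp_apply j
  have hφ : Sm (fun y => ∑ j, b y j * m y j) := ContDiff.sum fun j _ => (hb0 j).mul (hm0 j)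
  have e : lie b m = fun x => cr (curl m x) (b x) + gr (fun y => ∑ j, b y j * m y j) x := by
    funext x
    have hg : ∀ i, pd i (fun y => ∑ j, b y j * m y j) x =
        ∑ j, (b x j * pd i m x j + pd i b x j * m x j) := by
      intro i
      rw [PDC.pd_sum (fun j _ => (((hb0 j).mul (hm0 j)).differentiable (by simp)) x)]
      refine Finset.sum_congr rfl fun j _ => ?_
      rw [PDC.pd_mul ((hb0 j).differentiable x) ((hm0 j).differentiable x),
        PDC.pd_comp_apply hm, PDC.pd_comp_apply hb]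
    ext i
    rw [lie_apply]
    show _ = cr (curl m x) (b x) i + gr (fun y => ∑ j, b y j * m y j) x i
    rw [gr_apply, hg]
    fin_cases i
    · simp [Fin.sum_univ_three, cr, curl]
      ring
    · simp [Fin.sum_univ_three, cr, curl]
      ring
    · simp [Fin.sum_univ_three, cr, curl]
      ring
  have e2 : (fun x => cr (curl m x) (b x)) =
      fun x => lie b m x - gr (fun y => ∑ j, b y j * m y j) x := by
    funext x
    rw [e]
    exact (add_sub_cancel_right _ _).symm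
  rw [e2, PAux.curl_sub (hb.lie hm) hφ.gr]
  funext x
  rw [PDC.curl_lie hb hm, PDC.curl_gr hφ, sub_zero]

end ItAux

end MPfab
end

section
/-!
MP_fabde4_an, part P: module ITM (helper87): uniform bounds for the full norms of the iterates.
-/
set_option autoImplicit false
open MeasureTheory Set Filter

namespace MPfab

namespace ItMM

theorem in_dt {F : Type*} [NormedAddCommGroup F] [NormedSpace ℝ F] {R : ℝ} {m : ℝ × E → F}
    (hm : InT R m) : InT R (dt m) where
  smooth := PDC.dt_smooth hm.smooth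
  supp := by
    intro t x hx
    unfold dt
    have h : (fun s => m (s, (t, x).2)) = fun _ => 0 := funext fun s => hm.supp s x hx
    rw [h]
    simp

end ItMM

/-- module ITM -/
theorem specItM (hSup : SpecSupU) (hCrb : SpecCrb) (hVlb : SpecVlb) : SpecItM := by
  intro R T0 P κ V F g hD m hit hnq k
  have hR := hD.R_pos
  have hT := hD.T_pos
  have hP := hD.law
  obtain ⟨Cs, hCs, hs⟩ := ItAux.sup_le hSup hR
  obtain ⟨Ct, hCt, hterm⟩ := ItAux.term_le hCrb hR hP (k + 3)
  obtain ⟨B6, hB6⟩ := hnq (k + 3 + 3)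
  obtain ⟨BF, hBF⟩ := ItAux.bdd_of_supp hVlb hR hT hD.F_in hD.F_supp (k + 3)
  obtain ⟨BV, hBV⟩ := hVlb.const R T0 hR hT V hD.V_in (fun t x h => by
    have := ItAux.dt_iter_zero hVlb hD hit 0 t x h
    rwa [hit.zero] at this) (k + 3)
  obtain ⟨N, hN, hsup⟩ := PAux.hs_le_sup hR k
  set D : ℝ := √(2 * BF + 2 * (Ct * √B6 * √B6) ^ 2) with hDdef
  have hin : ∀ n t, In R (sl (m n) t) := fun n t => PAux.in_sl (hit.smooth n) t
  have hdt : ∀ n t, √(MPfab.hs univ (k + 3) (sl (dt (m (n + 1))) t)) ≤ D := by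
    intro n t
    refine Real.sqrt_le_sqrt ?_
    have e : sl (dt (m (n + 1))) t = fun x => sl F t x -
        (fun x => cr (curl (sl (m (n + 1)) t) x) (P t (sl (m n) t) x)) x := by
      funext x
      exact LimEqM.dt_eq hit n t x
    rw [e]
    have hcr : In R (fun x => cr (curl (sl (m (n + 1)) t) x) (P t (sl (m n) t) x)) :=
      PAux.in_cr (PAux.in_curl hR (hin (n + 1) t)) (PAux.law_in hP t (hin n t))
    refine (ItAux.hs_sub_le (k + 3) (PAux.in_sl hD.F_in t) hcr).trans ?_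
    have h1 := hBF t
    have h2 := hterm t (sl (m (n + 1)) t) (sl (m n) t) (hin (n + 1) t) (hin n t)
    have h3 : √(MPfab.hs univ (k + 3) (fun x => cr (curl (sl (m (n + 1)) t) x)
        (P t (sl (m n) t) x))) ≤ Ct * √B6 * √B6 := by
      refine h2.trans ?_
      refine mul_le_mul (mul_le_mul_of_nonneg_left (Real.sqrt_le_sqrt (hB6 _ _)) hCt)
        (Real.sqrt_le_sqrt (hB6 _ _)) (Real.sqrt_nonneg _) (by positivity)
    have h4 : MPfab.hs univ (k + 3) (fun x => cr (curl (sl (m (n + 1)) t) x)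
        (P t (sl (m n) t) x)) ≤ (Ct * √B6 * √B6) ^ 2 := by
      rw [← Real.sq_sqrt (HSB.nonneg univ (k + 3) (fun x => cr (curl (sl (m (n + 1)) t) x)
        (P t (sl (m n) t) x)))]
      exact pow_le_pow_left₀ (Real.sqrt_nonneg _) h3 2
    linarith
  have hmain : ∀ n t, MPfab.hs univ k (sl (m (n + 1)) t) ≤
      N * (Cs * √BV + Cs * D * T0) ^ 2 := by
    intro n t
    refine hsup E _ (hin (n + 1) t) _ ?_
    intro L hL x
    have h1 := PAux.norm_sub_le (φ := fun s => pds L (sl (m (n + 1)) s) x)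
      (φ' := fun s => pds L (sl (dt (m (n + 1))) s) x) (D := Cs * D) hT
      (fun s => PDC.dt_pds (hit.smooth (n + 1)).smooth L s x)
      (fun s => by
        refine (hs E k _ (PAux.in_sl (ItMM.in_dt (hit.smooth (n + 1))) s) L hL x).trans ?_
        exact mul_le_mul_of_nonneg_left (hdt n s) hCs)
      (fun s hs' => by
        have h2 : sl (dt (m (n + 1))) s = fun _ => 0 :=
          funext fun y => ItAux.dt_iter_zero hVlb hD hit (n + 1) s y hs'
        simp only [h2]
        have h3 : ∀ L : List (Fin 3), pds L (fun _ : E => (0 : E)) = fun _ => 0 := by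
          intro L
          induction L with
          | nil => rfl
          | cons i L ih =>
            show pd i (pds L (fun _ : E => (0 : E))) = _
            rw [ih]
            funext y
            unfold pd
            simp
        rw [h3]) t
    have h2 : ‖pds L (sl (m (n + 1)) 0) x‖ ≤ Cs * √BV := by
      rw [hit.init (n + 1)]
      refine (hs E k _ (PAux.in_sl hD.V_in 0) L hL x).trans ?_
      exact mul_le_mul_of_nonneg_left (Real.sqrt_le_sqrt (hBV 0)) hCs
    have h3 : pds L (sl (m (n + 1)) t) x = pds L (sl (m (n + 1)) 0) x +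
        (pds L (sl (m (n + 1)) t) x - pds L (sl (m (n + 1)) 0) x) := by abel
    rw [h3]
    exact (norm_add_le _ _).trans (add_le_add h2 h1)
  refine ⟨max BV (N * (Cs * √BV + Cs * D * T0) ^ 2), ?_⟩
  intro n t
  cases n with
  | zero =>
    rw [hit.zero]
    refine le_trans ?_ (le_max_left _ _)
    exact (HSB.mono univ _ (by omega)).trans (hBV t)
  | succ n => exact (hmain n t).trans (le_max_right _ _)

end MPfab
end

section
/-!
MP_fabde4_an, part P: module ITDIFF (helper87): factorial decay of the differences of the iterates.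
-/
set_option autoImplicit false
open MeasureTheory Set Filter

namespace MPfab

namespace ItDiffM

/-- the difference of consecutive iterates -/
def dif (m : ℕ → ℝ × E → E) (n : ℕ) : ℝ × E → E := fun p => m (n + 1) p - m n p

theorem dif_in {R : ℝ} {P : ℝ → (E → E) → (E → E)} {V F : ℝ × E → E} {m : ℕ → ℝ × E → E}
    (hit : Iter R P V F m) (n : ℕ) : InT R (dif m n) where
  smooth := (hit.smooth (n + 1)).smooth.sub (hit.smooth n).smooth
  supp := by
    intro t x hx
    show m (n + 1) (t, x) - m n (t, x) = 0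
    rw [(hit.smooth (n + 1)).supp t x hx, (hit.smooth n).supp t x hx, sub_zero]

theorem dif_zero {R : ℝ} {P : ℝ → (E → E) → (E → E)} {V F : ℝ × E → E} {m : ℕ → ℝ × E → E}
    (hit : Iter R P V F m) (n : ℕ) : sl (dif m n) 0 = fun _ => 0 := by
  funext x
  show m (n + 1) (0, x) - m n (0, x) = 0
  have h1 : m (n + 1) (0, x) = V (0, x) := congrFun (hit.init (n + 1)) x
  have h2 : m n (0, x) = V (0, x) := congrFun (hit.init n) x
  rw [h1, h2, sub_self]

theorem dt_dif {R : ℝ} {P : ℝ → (E → E) → (E → E)} {V F : ℝ × E → E} {m : ℕ → ℝ × E → E}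
    (hit : Iter R P V F m) (n : ℕ) (t : ℝ) (x : E) :
    dt (dif m n) (t, x) = dt (m (n + 1)) (t, x) - dt (m n) (t, x) :=
  ((PDC.hasDerivAt_dt (hit.smooth (n + 1)).smooth t x).sub
    (PDC.hasDerivAt_dt (hit.smooth n).smooth t x)).deriv

/-- the equation of the differences -/
theorem dt_dif_eq (hVlb : SpecVlb) {R T0 : ℝ} {P : ℝ → (E → E) → (E → E)}
    {κ : ℕ → ℝ → ℝ} {V F g : ℝ × E → E} (hD : Data R T0 P κ V F g) {m : ℕ → ℝ × E → E}
    (hit : Iter R P V F m) (n : ℕ) (t : ℝ) (x : E) :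
    dt (dif m (n + 1)) (t, x) = -cr (curl (sl (dif m (n + 1)) t) x) (P t (sl (m (n + 1)) t) x) -
      cr (curl (sl (m (n + 1)) t) x) (P t (sl (dif m n) t) x) := by
  rw [dt_dif hit, LimEqM.dt_eq hit (n + 1), LimEqM.dt_eq hit n]
  have h1 : curl (sl (dif m (n + 1)) t) x = curl (sl (m (n + 2)) t) x -
      curl (sl (m (n + 1)) t) x :=
    congrFun (PAux.curl_sub (PAux.in_sl (hit.smooth (n + 2)) t).smooth
      (PAux.in_sl (hit.smooth (n + 1)) t).smooth) x
  have h2 : P t (sl (dif m n) t) x = P t (sl (m (n + 1)) t) x - P t (sl (m n) t) x :=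
    congrFun (hVlb.sub R T0 P κ hD.R_pos hD.law t _ _ (PAux.in_sl (hit.smooth (n + 1)) t)
      (PAux.in_sl (hit.smooth n) t)) x
  rw [h1, h2, PAux.cr_sub_left, PAux.cr_sub_right]
  abel

theorem term_inT (hSm : SpecIncSm) (hAlg : SpecIncAlg) {R T0 : ℝ} (hR : 0 < R)
    {P : ℝ → (E → E) → (E → E)} {κ : ℕ → ℝ → ℝ} (hP : VLaw R T0 P κ) {A B : ℝ × E → E}
    (hA : InT R A) (hB : InT R B) :
    InT R (fun p => -cr (curl (sl A p.1) p.2) (vel P B p)) := by
  refine hSm.of_all E R _ fun j => ?_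
  have h1 := hAlg.crc R j A (vel P B) hR (hSm.inc E R j A hR hA)
    (hP.inc j B (hSm.inc E R j B hR hB))
  have h2 := hAlg.smul E R j (fun _ => (-1 : ℝ)) _ contDiff_const h1
  simpa using h2

theorem sqrt_nq_le {k : ℕ} {w : E → E} {a b : ℝ} (h1 : √(hs univ k (curl w)) ≤ a)
    (h2 : √(hs univ 0 w) ≤ b) : √(nq univ k w) ≤ a + b :=
  ItAux.sqrt_add_le.trans (add_le_add h1 h2)

/-- the estimate of the source term -/
theorem src_le (hBil : SpecBil) (hCrb : SpecCrb) {R T0 : ℝ} (hR : 0 < R)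
    {P : ℝ → (E → E) → (E → E)} {κ : ℕ → ℝ → ℝ} (hP : VLaw R T0 P κ) (k : ℕ) (hk : 5 ≤ k) :
    ∃ C : ℝ, 0 ≤ C ∧ ∀ (t : ℝ) (a b : E → E), In R a → In R b →
      √(nq univ k (fun x => -cr (curl a x) (P t b x))) ≤
        C * √(nq univ (k + 1) a) * √(nq univ k b) := by
  obtain ⟨c, hc⟩ := PDC.lie2_trc
  obtain ⟨C1, hC1, h1⟩ := hBil R hR c k (by omega)
  obtain ⟨C2, hC2, h2⟩ := hCrb.low R hR
  obtain ⟨K, hK⟩ := hP.bdd k
  have hK0 : 0 ≤ K := le_trans (hP.nonneg k 0) (hK 0)
  refine ⟨C1 * K + C2 * K, by positivity, ?_⟩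
  intro t a b ha hb
  have hPb : In R (P t b) := PAux.law_in hP t hb
  have hca : In R (curl a) := PAux.in_curl hR ha
  have hcr : In R (fun x => cr (curl a x) (P t b x)) := PAux.in_cr hca hPb
  have hbk : √(hs univ (k + 1) (P t b)) ≤ K * √(nq univ k b) :=
    (hP.bound t k b hb).trans (mul_le_mul_of_nonneg_right (hK t) (Real.sqrt_nonneg _))
  have hb0 : √(hs univ 0 (P t b)) ≤ K * √(nq univ k b) :=
    (Real.sqrt_le_sqrt (HSB.mono univ _ (Nat.zero_le _))).trans hbk
  have ha1 : √(hs univ (k + 1) (curl a)) ≤ √(nq univ (k + 1) a) :=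
    Real.sqrt_le_sqrt (le_add_of_nonneg_right (HSB.nonneg _ _ _))
  have ha3 : √(hs univ 3 (curl a)) ≤ √(nq univ (k + 1) a) :=
    (Real.sqrt_le_sqrt (HSB.mono univ _ (by omega))).trans ha1
  have e1 : √(hs univ k (curl (fun x => -cr (curl a x) (P t b x)))) ≤
      C1 * (K * √(nq univ k b)) * √(nq univ (k + 1) a) := by
    have h3 : curl (fun x => -cr (curl a x) (P t b x)) = fun x => -(trc c (P t b) (curl a) x) := by
      have h4 := PAux.curl_sub (u := fun _ => (0 : E)) contDiff_const hcr.smooth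
      have h5 : (fun x => (fun _ : E => (0 : E)) x - (fun x => cr (curl a x) (P t b x)) x) =
          fun x => -cr (curl a x) (P t b x) := by
        funext x
        simp
      rw [h5] at h4
      rw [h4, ItAux.curl_zero, ItAux.curl_term ha.smooth hPb.smooth, hc]
      funext x
      simp
    have h6 : Sm (trc c (P t b) (curl a)) := by
      rw [← hc]
      exact hPb.smooth.lie2 hca.smooth
    rw [h3, ItAux.hs_neg k h6]
    refine (h1 (P t b) (curl a) hPb hca).trans ?_
    exact mul_le_mul (mul_le_mul_of_nonneg_left hbk hC1) ha1 (Real.sqrt_nonneg _) (by positivity)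
  have e2 : √(hs univ 0 (fun x => -cr (curl a x) (P t b x))) ≤
      C2 * (K * √(nq univ k b)) * √(nq univ (k + 1) a) := by
    rw [ItAux.hs_neg 0 hcr.smooth]
    refine ((h2 (curl a) (P t b) hca hPb).2).trans ?_
    exact mul_le_mul (mul_le_mul_of_nonneg_left hb0 hC2) ha3 (Real.sqrt_nonneg _) (by positivity)
  refine (sqrt_nq_le e1 e2).trans (le_of_eq ?_)
  ring

theorem pds_zero (L : List (Fin 3)) : pds L (fun _ : E => (0 : E)) = fun _ => 0 := by
  induction L with
  | nil => rfl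
  | cons i L ih =>
    show pd i (pds L (fun _ : E => (0 : E))) = _
    rw [ih]
    funext y
    unfold pd
    simp

theorem summable_fac {B : ℝ} (hB : 0 ≤ B) :
    Summable (fun n : ℕ => √(B * (B ^ n / (n.factorial : ℝ)))) := by
  have h1 : ∀ n : ℕ, √(B * (B ^ n / (n.factorial : ℝ))) ≤
      √(B * Real.exp (4 * B)) * (1 / 2 : ℝ) ^ n := by
    intro n
    have h2 : B ^ n / (n.factorial : ℝ) ≤ Real.exp (4 * B) * ((1 / 2 : ℝ) ^ n) ^ 2 := by
      have h3 := Real.pow_div_factorial_le_exp (4 * B) (by positivity) n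
      have h4 : B ^ n / (n.factorial : ℝ) = (4 * B) ^ n / (n.factorial : ℝ) *
          ((1 / 2 : ℝ) ^ n) ^ 2 := by
        have h5 : ((1 / 2 : ℝ) ^ n) ^ 2 = (1 / 4 : ℝ) ^ n := by
          rw [← pow_mul, mul_comm n 2, pow_mul]
          norm_num
        rw [h5, mul_pow, div_mul_eq_mul_div, mul_right_comm, ← mul_pow]
        norm_num
      rw [h4]
      exact mul_le_mul_of_nonneg_right h3 (by positivity)
    have h6 : B * (B ^ n / (n.factorial : ℝ)) ≤
        B * Real.exp (4 * B) * ((1 / 2 : ℝ) ^ n) ^ 2 := by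
      rw [mul_assoc]
      exact mul_le_mul_of_nonneg_left h2 hB
    refine (Real.sqrt_le_sqrt h6).trans (le_of_eq ?_)
    rw [Real.sqrt_mul (by positivity), Real.sqrt_sq (by positivity)]
  exact Summable.of_nonneg_of_le (fun n => Real.sqrt_nonneg _) h1
    ((summable_geometric_of_lt_one (by norm_num) (by norm_num)).mul_left _)

theorem nq_part (hSm : SpecIncSm) (hAlg : SpecIncAlg) (hBil : SpecBil) (hCrb : SpecCrb)
    (hAen : SpecAen) (hGron : SpecGron3) (hVlb : SpecVlb) {R T0 : ℝ}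
    {P : ℝ → (E → E) → (E → E)} {κ : ℕ → ℝ → ℝ} {V F g : ℝ × E → E} (hD : Data R T0 P κ V F g)
    {m : ℕ → ℝ × E → E} (hit : Iter R P V F m)
    (hnq : ∀ k, ∃ B, ∀ n t, MPfab.nq univ k (sl (m n) t) ≤ B) (k : ℕ) (hk : 5 ≤ k) :
    ∃ B : ℝ, 0 ≤ B ∧ ∀ n t, MPfab.nq univ k (sl (dif m n) t) ≤
      B * (B ^ n / (n.factorial : ℝ)) := by
  have hR := hD.R_pos
  have hT := hD.T_pos
  have hP := hD.law
  obtain ⟨CA, hCA, hA⟩ := hAen R hR k hk
  obtain ⟨CS, hCS, hS⟩ := src_le hBil hCrb hR hP k hk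
  obtain ⟨K, hK⟩ := hP.bdd k
  have hK0 : 0 ≤ K := le_trans (hP.nonneg k 0) (hK 0)
  obtain ⟨B, hB⟩ := hnq k
  obtain ⟨B1, hB1⟩ := hnq (k + 1)
  have hB0 : 0 ≤ B := le_trans (PAux.nq_nonneg _ _) (hB 0 0)
  have hin : ∀ n t, In R (sl (m n) t) := fun n t => PAux.in_sl (hit.smooth n) t
  have hdin : ∀ n t, In R (sl (dif m n) t) := fun n t => PAux.in_sl (dif_in hit n) t
  have hbin : ∀ n, InT R (vel P (m n)) := fun n => hVlb.smooth R T0 P κ hR hP (m n) (hit.smooth n)
  -- the energy inequality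
  have hen := fun (n : ℕ) (t : ℝ) => hA (vel P (m (n + 1))) (dif m (n + 1))
    (fun p => -cr (curl (sl (m (n + 1)) p.1) p.2) (vel P (dif m n) p)) (hbin (n + 1))
    (dif_in hit (n + 1)) (term_inT hSm hAlg hR hP (hit.smooth (n + 1)) (dif_in hit n)) t
    (fun x => by
      rw [dt_dif_eq hVlb hD hit n t x]
      show -cr (curl (sl (dif m (n + 1)) t) x) (P t (sl (m (n + 1)) t) x) -
        cr (curl (sl (m (n + 1)) t) x) (P t (sl (dif m n) t) x) +
        cr (curl (sl (dif m (n + 1)) t) x) (P t (sl (m (n + 1)) t) x) =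
        -cr (curl (sl (m (n + 1)) t) x) (P t (sl (dif m n) t) x)
      abel)
  have hmax : max (k - 1) 5 ≤ k := max_le (Nat.sub_le k 1) hk
  have hβ : ∀ n t, √(hs univ (k + 1) (sl (vel P (m (n + 1))) t)) ≤ K * √B := by
    intro n t
    refine (hP.bound t k _ (hin (n + 1) t)).trans ?_
    exact mul_le_mul (hK t) (Real.sqrt_le_sqrt (hB _ _)) (Real.sqrt_nonneg _) hK0
  refine hGron T0 (CA * (2 * (K * √B) + CS * √B1) + 4 * B)
    (fun n t => MPfab.nq univ k (sl (dif m n) t)) hT (by positivity)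
    (fun n t => PAux.nq_nonneg _ _) ?_ ?_ ?_ ?_
  · intro t
    have h1 := ItAux.nq_sub_le hR k (hin 1 t) (hin 0 t)
    have h2 : MPfab.nq univ k (sl (dif m 0) t) ≤ 2 * MPfab.nq univ k (sl (m 1) t) +
        2 * MPfab.nq univ k (sl (m 0) t) := h1
    have h3 := hB 1 t
    have h4 := hB 0 t
    have h5 : 0 ≤ CA * (2 * (K * √B) + CS * √B1) := by positivity
    show MPfab.nq univ k (sl (dif m 0) t) ≤ _
    linarith
  · intro n
    show MPfab.nq univ k (sl (dif m n) 0) = 0
    rw [dif_zero hit n, ItAux.nq_zero]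
  · intro n t
    obtain ⟨y', hy', hle⟩ := hen n t
    refine ⟨y', hy', hle.trans ?_⟩
    set Y1 := MPfab.nq univ k (sl (dif m (n + 1)) t) with hY1
    set Y0 := MPfab.nq univ k (sl (dif m n) t) with hY0
    have hY1n : 0 ≤ Y1 := PAux.nq_nonneg _ _
    have hY0n : 0 ≤ Y0 := PAux.nq_nonneg _ _
    have e1 : √(hs univ (max (k - 1) 5 + 1) (sl (vel P (m (n + 1))) t)) ≤ K * √B :=
      (Real.sqrt_le_sqrt (HSB.mono univ _ (by omega))).trans (hβ n t)
    have e2 : √(hs univ (max (k - 1) 5) (curl (sl (dif m (n + 1)) t))) ≤ √Y1 :=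
      Real.sqrt_le_sqrt ((HSB.mono univ _ hmax).trans
        (le_add_of_nonneg_right (HSB.nonneg _ _ _)))
    have e3 : √(MPfab.nq univ k (sl (fun p => -cr (curl (sl (m (n + 1)) p.1) p.2)
        (vel P (dif m n) p)) t)) ≤ CS * √B1 * √Y0 := by
      have h1 := hS t (sl (m (n + 1)) t) (sl (dif m n) t) (hin (n + 1) t) (hdin n t)
      refine h1.trans ?_
      refine mul_le_mul_of_nonneg_right ?_ (Real.sqrt_nonneg _)
      exact mul_le_mul_of_nonneg_left (Real.sqrt_le_sqrt (hB1 _ _)) hCS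
    have e4 : √Y1 * √Y1 = Y1 := Real.mul_self_sqrt hY1n
    have e5 : √Y1 * √Y0 ≤ Y1 + Y0 := by
      have h1 := Real.mul_self_sqrt hY0n
      nlinarith [sq_nonneg (√Y1 - √Y0), Real.sqrt_nonneg Y1, Real.sqrt_nonneg Y0]
    have f1 : √(hs univ (max (k - 1) 5 + 1) (sl (vel P (m (n + 1))) t)) * Y1 ≤ K * √B * Y1 :=
      mul_le_mul_of_nonneg_right e1 hY1n
    have f2 : √(hs univ (k + 1) (sl (vel P (m (n + 1))) t)) *
        √(hs univ (max (k - 1) 5) (curl (sl (dif m (n + 1)) t))) * √Y1 ≤ K * √B * Y1 := by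
      calc _ ≤ (K * √B * √Y1) * √Y1 := by
            refine mul_le_mul_of_nonneg_right ?_ (Real.sqrt_nonneg _)
            exact mul_le_mul (hβ n t) e2 (Real.sqrt_nonneg _) (by positivity)
        _ = K * √B * (√Y1 * √Y1) := by ring
        _ = K * √B * Y1 := by rw [e4]
    have f3 : √Y1 * √(MPfab.nq univ k (sl (fun p => -cr (curl (sl (m (n + 1)) p.1) p.2)
        (vel P (dif m n) p)) t)) ≤ CS * √B1 * (Y1 + Y0) := by
      calc _ ≤ √Y1 * (CS * √B1 * √Y0) := mul_le_mul_of_nonneg_left e3 (Real.sqrt_nonneg _)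
        _ = CS * √B1 * (√Y1 * √Y0) := by ring
        _ ≤ CS * √B1 * (Y1 + Y0) := mul_le_mul_of_nonneg_left e5 (by positivity)
    have g1 : 0 ≤ K * √B := by positivity
    have g2 : CA * (√(hs univ (max (k - 1) 5 + 1) (sl (vel P (m (n + 1))) t)) * Y1 +
        √(hs univ (k + 1) (sl (vel P (m (n + 1))) t)) *
        √(hs univ (max (k - 1) 5) (curl (sl (dif m (n + 1)) t))) * √Y1 +
        √Y1 * √(MPfab.nq univ k (sl (fun p => -cr (curl (sl (m (n + 1)) p.1) p.2)
        (vel P (dif m n) p)) t))) ≤ CA * ((2 * (K * √B) + CS * √B1) * (Y1 + Y0)) := by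
      refine mul_le_mul_of_nonneg_left ?_ hCA
      have g3 : 0 ≤ K * √B * Y0 := by positivity
      linarith
    refine g2.trans ?_
    have g4 : 0 ≤ 4 * B * (Y1 + Y0) := by positivity
    show _ ≤ (CA * (2 * (K * √B) + CS * √B1) + 4 * B) * (Y1 + Y0)
    linarith
  · intro n t ht
    obtain ⟨y', hy', hle⟩ := hen n t
    have hz : ∀ f : E → E, In R f → P t f = fun _ => 0 := fun f hf =>
      funext fun x => hVlb.zero R T0 P κ hR hP t f x ht hf
    have z1 : sl (vel P (m (n + 1))) t = fun _ => 0 := hz _ (hin (n + 1) t)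
    have z2 : sl (fun p => -cr (curl (sl (m (n + 1)) p.1) p.2) (vel P (dif m n) p)) t =
        fun _ => 0 := by
      funext x
      show -cr (curl (sl (m (n + 1)) t) x) (P t (sl (dif m n) t) x) = 0
      rw [hz _ (hdin n t)]
      ext j
      fin_cases j <;> simp [cr]
    rw [z1, z2] at hle
    rw [ItAux.hs_zero, ItAux.hs_zero, ItAux.nq_zero, Real.sqrt_zero] at hle
    have h0 : |y'| ≤ 0 := by
      refine hle.trans (le_of_eq ?_)
      ring
    have h1 : y' = 0 := abs_nonpos_iff.1 h0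
    rw [h1] at hy'
    exact hy'

theorem hs_part (hSup : SpecSupU) (hCrb : SpecCrb) (hVlb : SpecVlb) (hItM : SpecItM) {R T0 : ℝ}
    {P : ℝ → (E → E) → (E → E)} {κ : ℕ → ℝ → ℝ} {V F g : ℝ × E → E} (hD : Data R T0 P κ V F g)
    {m : ℕ → ℝ × E → E} (hit : Iter R P V F m)
    (hnq : ∀ k, ∃ B, ∀ n t, MPfab.nq univ k (sl (m n) t) ≤ B)
    (hdn : ∀ k, ∃ B : ℝ, 0 ≤ B ∧ ∀ n t, MPfab.nq univ k (sl (dif m n) t) ≤
      B * (B ^ n / (n.factorial : ℝ))) (k : ℕ) :
    ∃ a : ℕ → ℝ, Summable a ∧ ∀ n t, √(MPfab.hs univ k (sl (dif m n) t)) ≤ a n := by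
  have hR := hD.R_pos
  have hT := hD.T_pos
  have hP := hD.law
  obtain ⟨Cs, hCs, hs⟩ := ItAux.sup_le hSup hR
  obtain ⟨Ct, hCt, hterm⟩ := ItAux.term_le hCrb hR hP (k + 3)
  obtain ⟨B6, hB6⟩ := hnq (k + 3 + 3)
  obtain ⟨B, hB, hBd⟩ := hdn (k + 3 + 3)
  obtain ⟨BM, hBM⟩ := hItM R T0 P κ V F g hD m hit hnq k
  obtain ⟨N, hN, hsup⟩ := PAux.hs_le_sup hR k
  have hin : ∀ n t, In R (sl (m n) t) := fun n t => PAux.in_sl (hit.smooth n) t
  have hdin : ∀ n t, In R (sl (dif m n) t) := fun n t => PAux.in_sl (dif_in hit n) t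
  set q : ℕ → ℝ := fun n => √(B * (B ^ n / (n.factorial : ℝ))) with hq
  have hqn : ∀ n t, √(MPfab.nq univ (k + 3 + 3) (sl (dif m n) t)) ≤ q n := fun n t =>
    Real.sqrt_le_sqrt (hBd n t)
  have hq0 : ∀ n, 0 ≤ q n := fun n => Real.sqrt_nonneg _
  -- the time derivative
  have hdt : ∀ n t, √(MPfab.hs univ (k + 3) (sl (dt (dif m (n + 1))) t)) ≤
      2 * (Ct * √B6 * (q (n + 1) + q n)) := by
    intro n t
    have hc1 : In R (fun x => cr (curl (sl (dif m (n + 1)) t) x) (P t (sl (m (n + 1)) t) x)) :=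
      PAux.in_cr (PAux.in_curl hR (hdin (n + 1) t)) (PAux.law_in hP t (hin (n + 1) t))
    have hc2 : In R (fun x => cr (curl (sl (m (n + 1)) t) x) (P t (sl (dif m n) t) x)) :=
      PAux.in_cr (PAux.in_curl hR (hin (n + 1) t)) (PAux.law_in hP t (hdin n t))
    have e : sl (dt (dif m (n + 1))) t = fun x =>
        (fun x => -cr (curl (sl (dif m (n + 1)) t) x) (P t (sl (m (n + 1)) t) x)) x -
        (fun x => cr (curl (sl (m (n + 1)) t) x) (P t (sl (dif m n) t) x)) x := by
      funext x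
      exact dt_dif_eq hVlb hD hit n t x
    rw [e]
    have h1 := ItAux.hs_sub_le (k + 3) (PAux.in_neg hc1) hc2
    rw [ItAux.hs_neg (k + 3) hc1.smooth] at h1
    refine (Real.sqrt_le_sqrt h1).trans ?_
    refine ItAux.sqrt_add_le.trans ?_
    have h2 : ∀ y : ℝ, √(2 * y) ≤ 2 * √y := by
      intro y
      rw [Real.sqrt_mul (by norm_num)]
      refine mul_le_mul_of_nonneg_right ?_ (Real.sqrt_nonneg _)
      rw [Real.sqrt_le_left (by norm_num)]
      norm_num
    have h3 := hterm t _ _ (hdin (n + 1) t) (hin (n + 1) t)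
    have h4 := hterm t _ _ (hin (n + 1) t) (hdin n t)
    have h5 : √(MPfab.hs univ (k + 3) (fun x => cr (curl (sl (dif m (n + 1)) t) x)
        (P t (sl (m (n + 1)) t) x))) ≤ Ct * √B6 * q (n + 1) := by
      refine h3.trans ?_
      calc _ ≤ Ct * q (n + 1) * √B6 := by
            refine mul_le_mul (mul_le_mul_of_nonneg_left (hqn _ _) hCt)
              (Real.sqrt_le_sqrt (hB6 _ _)) (Real.sqrt_nonneg _) (mul_nonneg hCt (hq0 _))
        _ = Ct * √B6 * q (n + 1) := by ring
    have h6 : √(MPfab.hs univ (k + 3) (fun x => cr (curl (sl (m (n + 1)) t) x)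
        (P t (sl (dif m n) t) x))) ≤ Ct * √B6 * q n := by
      refine h4.trans ?_
      refine mul_le_mul (mul_le_mul_of_nonneg_left (Real.sqrt_le_sqrt (hB6 _ _)) hCt)
        (hqn _ _) (Real.sqrt_nonneg _) (by positivity)
    have h7 := h2 (MPfab.hs univ (k + 3) (fun x => cr (curl (sl (dif m (n + 1)) t) x)
        (P t (sl (m (n + 1)) t) x)))
    have h8 := h2 (MPfab.hs univ (k + 3) (fun x => cr (curl (sl (m (n + 1)) t) x)
        (P t (sl (dif m n) t) x)))
    linarith
  have hmain : ∀ n t, √(MPfab.hs univ k (sl (dif m (n + 1)) t)) ≤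
      √N * (Cs * (2 * (Ct * √B6 * (q (n + 1) + q n))) * T0) := by
    intro n t
    have hs0 : 0 ≤ Cs * (2 * (Ct * √B6 * (q (n + 1) + q n))) * T0 := by
      have := hq0 (n + 1)
      have := hq0 n
      positivity
    have h1 := hsup E _ (hdin (n + 1) t) (Cs * (2 * (Ct * √B6 * (q (n + 1) + q n))) * T0) (by
      intro L hL x
      have h1 := PAux.norm_sub_le (φ := fun s => pds L (sl (dif m (n + 1)) s) x)
        (φ' := fun s => pds L (sl (dt (dif m (n + 1))) s) x)
        (D := Cs * (2 * (Ct * √B6 * (q (n + 1) + q n)))) hT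
        (fun s => PDC.dt_pds (dif_in hit (n + 1)).smooth L s x)
        (fun s => by
          refine (hs E k _ (PAux.in_sl (ItMM.in_dt (dif_in hit (n + 1))) s) L hL x).trans ?_
          exact mul_le_mul_of_nonneg_left (hdt n s) hCs)
        (fun s hs' => by
          have h2 : sl (dt (dif m (n + 1))) s = fun _ => 0 := by
            funext y
            show dt (dif m (n + 1)) (s, y) = 0
            rw [dt_dif hit, ItAux.dt_iter_zero hVlb hD hit (n + 1 + 1) s y hs',
              ItAux.dt_iter_zero hVlb hD hit (n + 1) s y hs', sub_zero]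
          show pds L (sl (dt (dif m (n + 1))) s) x = 0
          rw [h2]
          exact congrFun (pds_zero L) x) t
      have h3 : pds L (sl (dif m (n + 1)) 0) x = 0 := by
        rw [dif_zero hit (n + 1)]
        exact congrFun (pds_zero L) x
      simp only [h3, sub_zero] at h1
      exact h1)
    refine (Real.sqrt_le_sqrt h1).trans (le_of_eq ?_)
    rw [Real.sqrt_mul hN, Real.sqrt_sq hs0]
  refine ⟨fun n => Nat.casesOn n (√(4 * BM)) fun n =>
    √N * (Cs * (2 * (Ct * √B6 * (q (n + 1) + q n))) * T0), ?_, ?_⟩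
  · rw [← summable_nat_add_iff 1]
    have h1 : Summable q := summable_fac hB
    have h2 : Summable fun n => q (n + 1) := (summable_nat_add_iff 1).2 h1
    have h3 := ((((((h2.add h1).mul_left (Ct * √B6)).mul_left 2).mul_left Cs).mul_right
      T0).mul_left (√N))
    exact h3
  · intro n t
    cases n with
    | zero =>
      show √(MPfab.hs univ k (sl (dif m 0) t)) ≤ √(4 * BM)
      refine Real.sqrt_le_sqrt ?_
      have h1 : MPfab.hs univ k (sl (dif m 0) t) ≤ 2 * MPfab.hs univ k (sl (m 1) t) +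
        2 * MPfab.hs univ k (sl (m 0) t) := ItAux.hs_sub_le k (hin 1 t) (hin 0 t)
      have h2 := hBM 1 t
      have h3 := hBM 0 t
      linarith
    | succ n => exact hmain n t

end ItDiffM

/-- module ITDIFF -/
theorem specItDiff (hSm : SpecIncSm) (hAlg : SpecIncAlg) (hSup : SpecSupU) (hBil : SpecBil)
    (hCrb : SpecCrb) (hAen : SpecAen) (hGron : SpecGron3) (hVlb : SpecVlb)
    (hItM : SpecItM) : SpecItDiff := by
  have key : ∀ R T0 P κ V F g, Data R T0 P κ V F g → ∀ m, Iter R P V F m →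
      (∀ k, ∃ B, ∀ n t, MPfab.nq univ k (sl (m n) t) ≤ B) → ∀ k, ∃ B : ℝ, 0 ≤ B ∧ ∀ n t,
      MPfab.nq univ k (sl (ItDiffM.dif m n) t) ≤ B * (B ^ n / (n.factorial : ℝ)) := by
    intro R T0 P κ V F g hD m hit hnq k
    obtain ⟨B, hB, h⟩ := ItDiffM.nq_part hSm hAlg hBil hCrb hAen hGron hVlb hD hit hnq
      (max k 5) (le_max_right _ _)
    exact ⟨B, hB, fun n t => (PAux.nq_mono (le_max_left _ _) _).trans (h n t)⟩
  refine ⟨key, ?_⟩
  intro R T0 P κ V F g hD m hit hnq k
  exact ItDiffM.hs_part hSup hCrb hVlb hItM hD hit hnq (key R T0 P κ V F g hD m hit hnq) k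

end MPfab
end

section
/-!
MP_fabde4_an, part P: module LIM (helper87): limits of sequences with summable differences.
-/
set_option autoImplicit false
open MeasureTheory Set Filter

namespace MPfab

namespace LimM

theorem tail_tendsto (b : ℕ → ℝ) : Tendsto (fun n => ∑' j, b (n + j)) atTop (nhds 0) := by
  have h := tendsto_sum_nat_add b
  refine h.congr fun n => ?_
  exact tsum_congr fun j => by rw [add_comm]

theorem sl_fderiv (f : E → E) (hf : Sm f) (x : E) :
    HasFDerivAt f (∑ i, (EuclideanSpace.proj i : E →L[ℝ] ℝ).smulRight (pd i f x)) x := by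
  have h := (hf.differentiable x).hasFDerivAt
  have h2 : fderiv ℝ f x = ∑ i, (EuclideanSpace.proj i : E →L[ℝ] ℝ).smulRight (pd i f x) := by
    ext1 v
    rw [fderiv_eq_sum]
    simp
  rwa [h2] at h

end LimM

open LimM in
/-- module LIM -/
theorem specLimC (hSup : SpecSupU) : SpecLimC := by
  intro R hR m hm hsum
  obtain ⟨C, hC, hSupC⟩ := hSup R hR
  have hin : ∀ n t, In R (sl (m n) t) := fun n t => (hm n).1 t
  have hsm : ∀ n t, Sm (sl (m n) t) := fun n t => (hin n t).smooth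
  -- distances of the derivatives
  have h1 : ∀ L : List (Fin 3), ∃ b : ℕ → ℝ, Summable b ∧ ∀ n (p : ℝ × E),
      dist (pds L (sl (m n) p.1) p.2) (pds L (sl (m (n + 1)) p.1) p.2) ≤ b n := by
    intro L
    obtain ⟨a, ha, ha'⟩ := hsum (L.length + 3)
    refine ⟨fun n => √C * a n, ha.mul_left _, ?_⟩
    intro n p
    rw [dist_comm, dist_eq_norm]
    have h2 := congrFun (PAux.pds_sub (hsm (n + 1) p.1) (hsm n p.1) L) p.2
    rw [← h2]
    have h3 := hSupC E (fun x => sl (m (n + 1)) p.1 x - sl (m n) p.1 x)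
      (PAux.in_sub (hin (n + 1) p.1) (hin n p.1)) L p.2
    have h4 : ‖pds L (fun x => sl (m (n + 1)) p.1 x - sl (m n) p.1 x) p.2‖ ≤
        √(C * hs univ (L.length + 3) (fun x => sl (m (n + 1)) p.1 x - sl (m n) p.1 x)) := by
      rw [← Real.sqrt_sq (norm_nonneg _)]
      exact Real.sqrt_le_sqrt h3
    refine h4.trans ?_
    rw [Real.sqrt_mul hC]
    exact mul_le_mul_of_nonneg_left (ha' n p.1) (Real.sqrt_nonneg _)
  choose b hb hb' using h1
  -- the limits
  have h2 : ∀ (L : List (Fin 3)) (p : ℝ × E), ∃ y : E,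
      Tendsto (fun n => pds L (sl (m n) p.1) p.2) atTop (nhds y) := by
    intro L p
    have := cauchySeq_of_dist_le_of_summable (b L) (fun n => hb' L n p) (hb L)
    exact cauchySeq_tendsto_of_complete this
  choose g hg using h2
  have htail : ∀ L n p, dist (pds L (sl (m n) p.1) p.2) (g L p) ≤ ∑' j, b L (n + j) := by
    intro L n p
    exact dist_le_tsum_of_dist_le_of_tendsto (b L) (fun n => hb' L n p) (hb L) (hg L p) n
  have hunif : ∀ L : List (Fin 3), TendstoUniformly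
      (fun n (p : ℝ × E) => pds L (sl (m n) p.1) p.2) (g L) atTop := by
    intro L
    rw [Metric.tendstoUniformly_iff]
    intro ε hε
    have h3 := (tail_tendsto (b L)).eventually (gt_mem_nhds hε)
    filter_upwards [h3] with n hn p
    rw [dist_comm]
    exact lt_of_le_of_lt (htail L n p) hn
  have hcont : ∀ L, Continuous (g L) := fun L =>
    (hunif L).continuous (Frequently.of_forall fun n => (hm n).2 L)
  -- differentiability in `x`
  have hder : ∀ L t x, HasFDerivAt (fun x => g L (t, x))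
      (∑ i, (EuclideanSpace.proj i : E →L[ℝ] ℝ).smulRight (g (i :: L) (t, x))) x := by
    intro L t x
    have hu : ∀ L : List (Fin 3), TendstoUniformly
        (fun n (x : E) => pds L (sl (m n) t) x) (fun x => g L (t, x)) atTop := by
      intro L
      exact (hunif L).comp (fun x => ((t, x) : ℝ × E))
    have hu2 : ∀ i : Fin 3, TendstoUniformly
        (fun n (x : E) => (EuclideanSpace.proj i : E →L[ℝ] ℝ).smulRight
          (pds (i :: L) (sl (m n) t) x))
        (fun x => (EuclideanSpace.proj i : E →L[ℝ] ℝ).smulRight (g (i :: L) (t, x))) atTop := by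
      intro i
      exact (ContinuousLinearMap.smulRightL ℝ E E
        (EuclideanSpace.proj i)).uniformContinuous.comp_tendstoUniformly (hu (i :: L))
    refine hasFDerivAt_of_tendstoUniformly (l := atTop)
      (f := fun n x => pds L (sl (m n) t) x)
      (f' := fun n x => ∑ i, (EuclideanSpace.proj i : E →L[ℝ] ℝ).smulRight
        (pds (i :: L) (sl (m n) t) x))
      (g' := fun x => ∑ i, (EuclideanSpace.proj i : E →L[ℝ] ℝ).smulRight (g (i :: L) (t, x)))
      ?_ (fun n x => sl_fderiv _ (PDC.pds_smooth (hsm n t) L) x)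
      (fun x => hg L (t, x)) x
    simp only [Fin.sum_univ_three]
    exact ((hu2 0).add (hu2 1)).add (hu2 2)
  have hpd : ∀ L t i, pd i (fun x => g L (t, x)) = fun x => g (i :: L) (t, x) := by
    intro L t i
    funext x
    unfold pd
    rw [(hder L t x).fderiv]
    simp [Fin.sum_univ_three, eb]
    fin_cases i <;> simp
  have hpds : ∀ t (L : List (Fin 3)), pds L (fun x => g [] (t, x)) = fun x => g L (t, x) := by
    intro t L
    induction L with
    | nil => rfl
    | cons i L ih =>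
      show pd i (pds L (fun x => g [] (t, x))) = _
      rw [ih, hpd]
  have hsmooth : ∀ (n : ℕ) L t, ContDiff ℝ n (fun x => g L (t, x)) := by
    intro n
    induction n with
    | zero =>
      intro L t
      exact contDiff_zero.2 ((hcont L).comp (Continuous.prodMk continuous_const continuous_id))
    | succ n ih =>
      intro L t
      have hc : ((n + 1 : ℕ) : WithTop ENat) = (n : WithTop ENat) + 1 := by push_cast; rfl
      rw [hc, contDiff_succ_iff_hasFDerivAt]
      refine ⟨fun x => ∑ i, (EuclideanSpace.proj i : E →L[ℝ] ℝ).smulRight (g (i :: L) (t, x)),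
        ?_, hder L t⟩
      refine ContDiff.sum fun i _ => ?_
      exact (ContinuousLinearMap.smulRightL ℝ E E (EuclideanSpace.proj i)).contDiff.comp
        (ih (i :: L) t)
  have hsmM : ∀ L t, Sm (fun x => g L (t, x)) := by
    intro L t
    exact contDiff_infty.2 fun n => hsmooth n L t
  have hMin : ∀ t, In R (sl (g []) t) := by
    intro t
    refine ⟨hsmM [] t, ?_⟩
    intro x hx
    have h3 := hg [] (t, x)
    have h4 : (fun n => pds [] (sl (m n) (t, x).1) (t, x).2) = fun _ => (0 : E) := by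
      funext n
      exact (hin n t).supp x hx
    rw [h4] at h3
    exact tendsto_nhds_unique h3 tendsto_const_nhds
  have hpM : ∀ L (p : ℝ × E), pds L (sl (g []) p.1) p.2 = g L p := by
    intro L p
    have := congrFun (hpds p.1 L) p.2
    exact this
  refine ⟨g [], ⟨hMin, ?_⟩, ?_, ?_⟩
  · intro L
    have : (fun p : ℝ × E => pds L (sl (g []) p.1) p.2) = g L := funext (hpM L)
    rw [this]
    exact hcont L
  · intro L
    have : (fun p : ℝ × E => pds L (sl (g []) p.1) p.2) = g L := funext (hpM L)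
    rw [this]
    exact hunif L
  · intro k
    obtain ⟨T, hT, hT'⟩ := specHSB.upper k
    refine ⟨fun n => √((T.map fun L => PAux.vb R * (∑' j, b L (n + j)) ^ 2).sum), ?_, ?_⟩
    · have h3 : Tendsto (fun n => (T.map fun L => PAux.vb R * (∑' j, b L (n + j)) ^ 2).sum) atTop
          (nhds ((T.map fun _ => PAux.vb R * (0 : ℝ) ^ 2).sum)) := by
        refine tendsto_list_sum T fun L _ => ?_
        exact ((tail_tendsto (b L)).pow 2).const_mul _
      have h4 : ((T.map fun _ : List (Fin 3) => PAux.vb R * (0 : ℝ) ^ 2).sum) = 0 := by simp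
      rw [h4] at h3
      have h5 := (Real.continuous_sqrt.tendsto 0).comp h3
      rw [Real.sqrt_zero] at h5
      exact h5
    · intro n t
      refine Real.sqrt_le_sqrt ?_
      have hd : In R (fun x => m n (t, x) - g [] (t, x)) := PAux.in_sub (hin n t) (hMin t)
      rw [hT' E univ _ hd.smooth]
      refine List.sum_le_sum fun L hL => ?_
      refine PAux.int_le (PAux.in_pds hR hd L) fun x => ?_
      have h3 := congrFun (PAux.pds_sub (hsm n t) (hMin t).smooth L) x
      have h4 : pds L (fun x => m n (t, x) - g [] (t, x)) x =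
          pds L (sl (m n) t) x - pds L (sl (g []) t) x := h3
      rw [h4]
      have h5 := htail L n (t, x)
      rw [dist_eq_norm] at h5
      have h6 : pds L (sl (g []) t) x = g L (t, x) := hpM L (t, x)
      rw [h6]
      exact h5

end MPfab
end

section
/-!
MP_fabde4_an, part M: module INCPULL (pull-backs preserve the classes `InC`).
-/
set_option autoImplicit false
open MeasureTheory Set Filter Topology

namespace MPfab

namespace IncPullM

open INC

variable {F : Type*} [NormedAddCommGroup F] [NormedSpace ℝ F]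

/-- the chain rule for partial derivatives -/
theorem pd_comp {f : E → F} {Φ : E → E} (hf : Sm f) (hΦ : Sm Φ) (i : Fin 3) (x : E) :
    pd i (fun y => f (Φ y)) x = ∑ k, pd i Φ x k • pd k f (Φ x) := by
  unfold pd
  have h1 : HasFDerivAt (fun y => f (Φ y)) (fderiv ℝ f (Φ x) ∘L fderiv ℝ Φ x) x :=
    (hf.differentiable (Φ x)).hasFDerivAt.comp x (hΦ.differentiable x).hasFDerivAt
  rw [h1.fderiv, ContinuousLinearMap.comp_apply, fderiv_eq_sum]
  rfl

theorem sum_mem {n : ℕ} {a : Fin 3 → ℝ × E → F}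
    (h : ∀ k, (∀ t, Sm (sl (a k) t)) ∧ ∀ L : List (Fin 3), L.length ≤ n →
      Continuous fun p : ℝ × E => pds L (sl (a k) p.1) p.2) :
    (∀ t, Sm (sl (fun p => ∑ k, a k p) t)) ∧ ∀ L : List (Fin 3), L.length ≤ n →
      Continuous fun p : ℝ × E => pds L (sl (fun p => ∑ k, a k p) p.1) p.2 := by
  refine ⟨fun t => ContDiff.sum fun k _ => (h k).1 t, fun L hL => ?_⟩
  have e : (fun p : ℝ × E => pds L (sl (fun p => ∑ k, a k p) p.1) p.2) =
      fun p => ∑ k, pds L (sl (a k) p.1) p.2 := by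
    funext p
    have h1 : sl (fun p => ∑ k, a k p) p.1 = fun x => (fun x => (fun x => sl (a 0) p.1 x +
        sl (a 1) p.1 x) x + sl (a 2) p.1 x) x := by
      funext x
      exact Fin.sum_univ_three _
    have h2 := pds_add (((h 0).1 p.1).add ((h 1).1 p.1)) ((h 2).1 p.1) L
    have h3 := pds_add ((h 0).1 p.1) ((h 1).1 p.1) L
    rw [h1, Fin.sum_univ_three]
    have h4 := congrFun h2 p.2
    have h5 := congrFun h3 p.2
    rw [← h5]
    exact h4
  rw [e]
  exact continuous_finsetSum _ fun k _ => (h k).2 L hL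

/-- multiplication by a smooth function -/
theorem smul_mem (n : ℕ) : ∀ {c : ℝ × E → ℝ} {a : ℝ × E → F}, Sm c → (∀ t, Sm (sl a t)) →
    (∀ L : List (Fin 3), L.length ≤ n → Continuous fun p : ℝ × E => pds L (sl a p.1) p.2) →
    ∀ L : List (Fin 3), L.length ≤ n →
      Continuous fun p : ℝ × E => pds L (sl (fun p => c p • a p) p.1) p.2 := by
  induction n with
  | zero =>
    intro c a hc ha h L hL
    have : L = [] := List.length_eq_zero_iff.1 (by omega)
    subst this
    exact hc.continuous.smul (h [] le_rfl)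
  | succ n ih =>
    intro c a hc ha h L hL
    rcases List.eq_nil_or_concat' L with rfl | ⟨L, i, rfl⟩
    · exact hc.continuous.smul (h [] (by simp))
    · rw [List.length_append, List.length_singleton] at hL
      have hc' : Sm (fun p : ℝ × E => MPfab.pd i (sl c p.1) p.2) := PDC.pds_sl hc [i]
      have h1 := ih hc' ha (fun L hL => h L (by omega)) L (by omega)
      have h2 := ih hc (fun t => (ha t).pd i) (a := fun p : ℝ × E => MPfab.pd i (sl a p.1) p.2)
        (fun L hL => by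
          have h3 := h (L ++ [i]) (by rw [List.length_append, List.length_singleton]; omega)
          have e : (fun p : ℝ × E => pds L (sl (fun p : ℝ × E => MPfab.pd i (sl a p.1) p.2) p.1)
              p.2) = fun p => pds (L ++ [i]) (sl a p.1) p.2 := by
            funext p
            rw [pds_append_single]
            rfl
          rw [e]
          exact h3) L (by omega)
      have e : (fun p : ℝ × E => pds (L ++ [i]) (sl (fun p => c p • a p) p.1) p.2) =
          fun p => pds L (sl (fun p : ℝ × E => c p • MPfab.pd i (sl a p.1) p.2) p.1) p.2 +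
            pds L (sl (fun p : ℝ × E => MPfab.pd i (sl c p.1) p.2 • a p) p.1) p.2 := by
        funext p
        rw [pds_append_single]
        have hcs : Sm (sl c p.1) := PDC.sl_smooth hc p.1
        have e1 : MPfab.pd i (sl (fun p => c p • a p) p.1) = fun x =>
            (sl (fun p : ℝ × E => c p • MPfab.pd i (sl a p.1) p.2) p.1) x +
            (sl (fun p : ℝ × E => MPfab.pd i (sl c p.1) p.2 • a p) p.1) x := by
          funext x
          exact PDC.pd_smul (hcs.differentiable x) ((ha p.1).differentiable x) i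
        rw [e1]
        exact congrFun (pds_add (hcs.smul ((ha p.1).pd i)) ((hcs.pd i).smul (ha p.1)) L) p.2
      rw [e]
      exact h2.add h1

/-- composition with a smooth family of maps -/
theorem J0.comp {m : ℝ × E → F} {Φ : ℝ × E → E} (hm : J0 m) (hΦ : Sm Φ) :
    J0 (fun p => m (p.1, Φ p)) := by
  have hsm : ∀ {m : ℝ × E → F}, J0 m → ∀ t, Sm (sl (fun p => m (p.1, Φ p)) t) := by
    intro m hm t
    exact (hm.1 t).comp (PDC.sl_smooth hΦ t)
  have key : ∀ (n : ℕ) {m : ℝ × E → F}, J0 m → ∀ L : List (Fin 3), L.length ≤ n →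
      Continuous fun p : ℝ × E => pds L (sl (fun p => m (p.1, Φ p)) p.1) p.2 := by
    intro n
    induction n with
    | zero =>
      intro m hm L hL
      have : L = [] := List.length_eq_zero_iff.1 (by omega)
      subst this
      exact hm.cont.comp (continuous_fst.prodMk hΦ.continuous)
    | succ n ih =>
      intro m hm L hL
      rcases List.eq_nil_or_concat' L with rfl | ⟨L, i, rfl⟩
      · exact hm.cont.comp (continuous_fst.prodMk hΦ.continuous)
      · rw [List.length_append, List.length_singleton] at hL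
        have hc : ∀ k, Sm (fun p : ℝ × E => MPfab.pd i (sl Φ p.1) p.2 k) := fun k =>
          contDiff_euclidean.mp (PDC.pds_sl hΦ [i]) k
        have h1 := (sum_mem (n := n) (a := fun k p => MPfab.pd i (sl Φ p.1) p.2 k •
          (fun p : ℝ × E => MPfab.pd k (sl m p.1) p.2) (p.1, Φ p)) fun k =>
            ⟨fun t => (PDC.sl_smooth (hc k) t).smul (hsm (hm.pd k) t),
              smul_mem n (hc k) (hsm (hm.pd k)) (fun L hL => ih (hm.pd k) L hL)⟩).2 L (by omega)
        have e : (fun p : ℝ × E => pds (L ++ [i]) (sl (fun p => m (p.1, Φ p)) p.1) p.2) =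
            fun p => pds L (sl (fun p => ∑ k, MPfab.pd i (sl Φ p.1) p.2 k •
              (fun p : ℝ × E => MPfab.pd k (sl m p.1) p.2) (p.1, Φ p)) p.1) p.2 := by
          funext p
          rw [pds_append_single]
          congr 1
          funext x
          exact pd_comp (hm.1 p.1) (PDC.sl_smooth hΦ p.1) i x
        rw [e]
        exact h1
  exact ⟨hsm hm, fun L => key L.length hm L le_rfl⟩

/-- the time derivative of a composition -/
theorem hasDerivAt_comp {m m' : ℝ × E → F} (hm : J0 m) (hm' : Continuous m')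
    (hd : ∀ t x, HasDerivAt (fun s => m (s, x)) (m' (t, x)) t) {Φ : ℝ × E → E} (hΦ : Sm Φ)
    (t : ℝ) (x : E) :
    HasDerivAt (fun s => m (s, Φ (s, x))) (m' (t, Φ (t, x)) +
      ∑ k, dt Φ (t, x) k • pd k (sl m t) (Φ (t, x))) t := by
  have h1 := hasFDerivAt_total hm hm' hd (t, Φ (t, x))
  have h2 : HasDerivAt (fun s : ℝ => (s, Φ (s, x))) ((1 : ℝ), dt Φ (t, x)) t :=
    (hasDerivAt_id t).prodMk (PDC.hasDerivAt_dt hΦ t x)
  have h3 := h1.comp_hasDerivAt t h2
  refine h3.congr_deriv ?_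
  simp [ContinuousLinearMap.coprod_apply]

theorem J.comp {j : ℕ} : ∀ {m : ℝ × E → F} {Φ : ℝ × E → E}, J j m → Sm Φ →
    J j (fun p => m (p.1, Φ p)) := by
  induction j with
  | zero => exact fun hm hΦ => J0.comp hm hΦ
  | succ j ih =>
    intro m Φ hm hΦ
    have hmj : J j m := INC.J.mono hm
    obtain ⟨hm0, m', hm', hd⟩ := hm
    refine ⟨J0.comp hm0 hΦ, fun p => m' (p.1, Φ p) + ∑ k, dt Φ p k • pd k (sl m p.1) (Φ p),
      ?_, fun t x => hasDerivAt_comp hm0 hm'.zero.cont hd hΦ t x⟩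
    refine (ih hm' hΦ).add (INC.J.sum _ fun k _ => ?_)
    have hc : Sm (fun p : ℝ × E => dt Φ p k) := contDiff_euclidean.mp (PDC.dt_smooth hΦ) k
    exact (INC.J.of_smooth hc).bil (ContinuousLinearMap.lsmul ℝ ℝ) (ih (hmj.pd k) hΦ)

theorem dif_symm {R : ℝ} {Φ Ψ : E → E} (h : Dif R Φ Ψ) : Dif R Ψ Φ := by
  refine ⟨h.smoothi, h.smooth, h.right, h.left, fun x hx => ?_⟩
  have h1 := h.left x
  rw [h.out x hx] at h1
  exact h1

end IncPullM

open INC IncPullM in
/-- module INCPULL -/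
theorem specIncPull : SpecIncPull where
  comp F _ _ R j Φ m hR hΦ hout hm := by
    rw [inC_iff] at hm ⊢
    refine ⟨IncPullM.J.comp hm.1 hΦ, fun t x hx => ?_⟩
    show m (t, Φ (t, x)) = 0
    rw [hout t x hx]
    exact hm.2 t x hx
  pb R j Φ Ψ m hR hΦ hΨ hdif hm := by
    rw [inC_iff] at hm ⊢
    refine ⟨J.comp_iff.2 fun i => ?_, fun t x hx => ?_⟩
    · show J j (fun p : ℝ × E => ∑ k, MPfab.pd i (sl Φ p.1) p.2 k * m (p.1, Φ p) k)
      refine INC.J.sum _ fun k _ => ?_
      have hc : Sm (fun p : ℝ × E => MPfab.pd i (sl Φ p.1) p.2 k) :=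
        contDiff_euclidean.mp (PDC.pds_sl hΦ [i]) k
      exact (INC.J.of_smooth hc).bil (ContinuousLinearMap.lsmul ℝ ℝ)
        (J.comp_iff.1 (IncPullM.J.comp hm.1 hΦ) k)
    · ext i
      show ∑ k, MPfab.pd i (sl Φ t) x k * m (t, Φ (t, x)) k = 0
      have h1 : Φ (t, x) = x := (hdif t).out x hx
      rw [h1, hm.2 t x hx]
      simp
  pv R j Φ Ψ b hR hΦ hΨ hdif hb := by
    rw [inC_iff] at hb ⊢
    have hg : J j (fun p : ℝ × E => ∑ k, b p k • MPfab.pd k (sl Ψ p.1) p.2) := by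
      refine INC.J.sum _ fun k _ => ?_
      exact (J.comp_iff.1 hb.1 k).bil (ContinuousLinearMap.lsmul ℝ ℝ)
        (INC.J.of_smooth (PDC.pds_sl hΨ [k]))
    have e : (fun p : ℝ × E => MPfab.pv (sl Φ p.1) (sl Ψ p.1) (sl b p.1) p.2) =
        fun p => (fun p : ℝ × E => ∑ k, b p k • MPfab.pd k (sl Ψ p.1) p.2) (p.1, Φ p) := by
      funext p
      exact fderiv_eq_sum _ _ _
    rw [e]
    refine ⟨IncPullM.J.comp hg hΦ, fun t x hx => ?_⟩
    have h1 : Φ (t, x) = x := (hdif t).out x hx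
    have h2 : sl b t (sl Φ t x) = 0 := by
      show b (t, Φ (t, x)) = 0
      rw [h1, hb.2 t x hx]
    show fderiv ℝ (sl Ψ t) (sl Φ t x) (sl b t (sl Φ t x)) = 0
    rw [h2, map_zero]

end MPfab
end

section
/-!
MP_fabde4_an, part M: module MOV (the law in the moving frame).
-/
set_option autoImplicit false
open MeasureTheory Set Filter Topology

namespace MPfab

namespace MovM

open LopM IncPullM

/-! ### linearity -/

theorem pb_add (Φ f g : E → E) : pb Φ (fun x => f x + g x) = fun x => pb Φ f x + pb Φ g x := by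
  funext x
  ext i
  show ∑ j, pd i Φ x j * (f (Φ x) j + g (Φ x) j) =
    ∑ j, pd i Φ x j * f (Φ x) j + ∑ j, pd i Φ x j * g (Φ x) j
  rw [← Finset.sum_add_distrib]
  exact Finset.sum_congr rfl fun j _ => by ring

theorem pb_smul (Φ f : E → E) (c : ℝ) : pb Φ (fun x => c • f x) = fun x => c • pb Φ f x := by
  funext x
  ext i
  show ∑ j, pd i Φ x j * (c * f (Φ x) j) = c * ∑ j, pd i Φ x j * f (Φ x) j
  rw [Finset.mul_sum]
  exact Finset.sum_congr rfl fun j _ => by ring

theorem pv_add (Φ Ψ f g : E → E) :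
    pv Φ Ψ (fun x => f x + g x) = fun x => pv Φ Ψ f x + pv Φ Ψ g x := by
  funext x
  exact map_add _ _ _

theorem pv_smul (Φ Ψ f : E → E) (c : ℝ) :
    pv Φ Ψ (fun x => c • f x) = fun x => c • pv Φ Ψ f x := by
  funext x
  exact map_smul _ _ _

theorem mix_add {R : ℝ} {P1 P2 : (E → E) → E → E} (h1 : COp R P1) (h2 : COp R P2) (a : ℝ)
    {f g : E → E} (hf : In R f) (hg : In R g) :
    mix P1 P2 a (fun x => f x + g x) = fun x => mix P1 P2 a f x + mix P1 P2 a g x := by
  funext x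
  unfold mix
  rw [h1.add f g hf hg, h2.add f g hf hg]
  simp only [smul_add]
  abel

theorem mix_smul {R : ℝ} {P1 P2 : (E → E) → E → E} (h1 : COp R P1) (h2 : COp R P2) (a c : ℝ)
    {f : E → E} (hf : In R f) :
    mix P1 P2 a (fun x => c • f x) = fun x => c • mix P1 P2 a f x := by
  funext x
  unfold mix
  rw [h1.smul c f hf, h2.smul c f hf]
  simp only [smul_add]
  rw [smul_comm _ c, smul_comm _ c]

theorem mix_in {R : ℝ} {P1 P2 : (E → E) → E → E} (h1 : COp R P1) (h2 : COp R P2) (a : ℝ)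
    {f : E → E} (hf : In R f) : In R (mix P1 P2 a f) :=
  in_add (in_smul (1 - a) (h1.maps f hf)) (in_smul a (h2.maps f hf))

/-! ### bounds -/

theorem sqrt_mix_le {R : ℝ} (k : ℕ) {f g : E → E} (hf : In R f) (hg : In R g) {a : ℝ}
    (ha : 0 ≤ a) (ha1 : a ≤ 1) :
    √(hs univ k (fun x => (1 - a) • f x + a • g x)) ≤
      2 * (√(hs univ k f) + √(hs univ k g)) := by
  have h1 := HSB.add_le (S := univ) k (fun x => (1 - a) • f x) (fun x => a • g x)
    (Or.inr ⟨hcs (in_smul (1 - a) hf), hcs (in_smul a hg)⟩) (in_smul (1 - a) hf).smooth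
    (in_smul a hg).smooth
  rw [HSB.smul _ _ _ _ hf.smooth, HSB.smul _ _ _ _ hg.smooth] at h1
  have hF := HSB.nonneg (univ : Set E) k f
  have hG := HSB.nonneg (univ : Set E) k g
  have e1 : (1 - a) ^ 2 * hs univ k f ≤ hs univ k f :=
    mul_le_of_le_one_left hF (by nlinarith)
  have e2 : a ^ 2 * hs univ k g ≤ hs univ k g :=
    mul_le_of_le_one_left hG (by nlinarith)
  refine Real.sqrt_le_iff.2 ⟨by positivity, ?_⟩
  have s1 := Real.sq_sqrt hF
  have s2 := Real.sq_sqrt hG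
  have n1 := Real.sqrt_nonneg (hs univ k f)
  have n2 := Real.sqrt_nonneg (hs univ k g)
  nlinarith [mul_nonneg n1 n2]

/-- the constant of the bound of the law -/
theorem law_le (hB : SpecPbb) (hA : SpecPbAlg) (R : ℝ) {P1 P2 : (E → E) → E → E}
    (h1 : LOp R P1) (h2 : LOp R P2) (k : ℕ) (K : ℝ) : ∃ C : ℝ, 0 ≤ C ∧
    ∀ Φ Ψ : E → E, Dif R Φ Ψ → DB (k + 2) K Φ → DB (k + 2) K Ψ → ∀ a : ℝ, 0 ≤ a → a ≤ 1 →
      ∀ M, In R M → √(hs univ (k + 1) (pv Φ Ψ (mix P1 P2 a (pb Ψ M)))) ≤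
        C * √(nq univ k M) := by
  obtain ⟨C, hC, hCb⟩ := hB R k K
  obtain ⟨G1, hG1, hg1⟩ := h1.gain k
  obtain ⟨G2, hG2, hg2⟩ := h2.gain k
  refine ⟨C * (2 * (G1 + G2)) * C, by positivity, ?_⟩
  intro Φ Ψ hd hΦ hΨ a ha ha1 M hM
  have hd' := dif_symm hd
  have hpb : In R (pb Ψ M) := hA.inp R Ψ Φ M hd' hM
  have b1 := (hCb Ψ Φ hd' hΨ hΦ).1 M hM
  have b2 := (hCb Φ Ψ hd hΦ hΨ).2 (mix P1 P2 a (pb Ψ M)) (mix_in h1.cop h2.cop a hpb)
  have b3 := sqrt_mix_le (k + 1) (h1.cop.maps _ hpb) (h2.cop.maps _ hpb) ha ha1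
  have b4 := hg1 _ hpb
  have b5 := hg2 _ hpb
  have hn := Real.sqrt_nonneg (nq univ k (pb Ψ M))
  calc √(hs univ (k + 1) (pv Φ Ψ (mix P1 P2 a (pb Ψ M)))) ≤
        C * √(hs univ (k + 1) (mix P1 P2 a (pb Ψ M))) := b2
    _ ≤ C * (2 * (G1 * √(nq univ k (pb Ψ M)) + G2 * √(nq univ k (pb Ψ M)))) := by
        refine mul_le_mul_of_nonneg_left (b3.trans ?_) hC
        linarith
    _ = C * (2 * (G1 + G2)) * √(nq univ k (pb Ψ M)) := by ring
    _ ≤ C * (2 * (G1 + G2)) * (C * √(nq univ k M)) :=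
        mul_le_mul_of_nonneg_left b1 (by positivity)
    _ = _ := by ring

/-- the set of the constants -/
def CS (R : ℝ) (k : ℕ) (Q : (E → E) → E → E) : Set ℝ :=
  {C | 0 ≤ C ∧ ∀ f, In R f → √(hs univ (k + 1) (Q f)) ≤ C * √(nq univ k f)}

theorem sInf_mem {R : ℝ} {k : ℕ} {Q : (E → E) → E → E} (h : (CS R k Q).Nonempty) :
    sInf (CS R k Q) ∈ CS R k Q := by
  refine ⟨le_csInf h fun C hC => hC.1, fun f hf => ?_⟩
  rcases (Real.sqrt_nonneg (nq univ k f)).eq_or_lt with h0 | h0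
  · obtain ⟨C, hC⟩ := h
    have := hC.2 f hf
    rw [← h0, mul_zero] at this ⊢
    exact this
  · rw [← div_le_iff₀ h0]
    refine le_csInf h fun C hC => ?_
    rw [div_le_iff₀ h0]
    exact hC.2 f hf

theorem sInf_le' {R : ℝ} {k : ℕ} {Q : (E → E) → E → E} {C : ℝ} (h : C ∈ CS R k Q) :
    sInf (CS R k Q) ≤ C := csInf_le ⟨0, fun _ hx => hx.1⟩ h

end MovM

open LopM IncPullM MovM in
/-- module MOV -/
theorem specMov (hA : SpecPbAlg) (hB : SpecPbb) (hO : SpecIncOp) (hC : SpecCpt) : SpecMov := by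
  intro R P1 P2 hR h1 h2
  choose CC hCC0 hCC using fun K : ℝ => law_le hB hA R h1 h2 5 K
  refine ⟨CC, ?_⟩
  intro T0 κ a Φ Ψ hT0 hκ ha hκ0 ha01 hΦ hΨ hdif
  -- bounds of the law
  have hbound : ∀ (k : ℕ) (t K C : ℝ), 0 ≤ C →
      (∀ Φ Ψ : E → E, Dif R Φ Ψ → DB (k + 2) K Φ → DB (k + 2) K Ψ → ∀ a : ℝ, 0 ≤ a → a ≤ 1 →
      ∀ M, In R M → √(hs univ (k + 1) (pv Φ Ψ (mix P1 P2 a (pb Ψ M)))) ≤ C * √(nq univ k M)) →
      DB (k + 2) K (sl Φ t) → DB (k + 2) K (sl Ψ t) →
      C * |κ t| ∈ CS R k (mlaw P1 P2 Φ Ψ κ a t) := by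
    intro k t K C hC0 hCb hΦt hΨt
    refine ⟨by positivity, fun f hf => ?_⟩
    have b1 := hCb (sl Φ t) (sl Ψ t) (hdif t) hΦt hΨt (a t) (ha01 t).1 (ha01 t).2 f hf
    have hpb : In R (pb (sl Ψ t) f) := hA.inp R _ _ f (dif_symm (hdif t)) hf
    have hsm : Sm (pv (sl Φ t) (sl Ψ t) (mix P1 P2 (a t) (pb (sl Ψ t) f))) :=
      (hA.inv R _ _ _ (hdif t) (mix_in h1.cop h2.cop (a t) hpb)).smooth
    have e : mlaw P1 P2 Φ Ψ κ a t f = fun x =>
      κ t • pv (sl Φ t) (sl Ψ t) (mix P1 P2 (a t) (pb (sl Ψ t) f)) x := rfl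
    rw [e, HSB.smul _ _ _ _ hsm, Real.sqrt_mul (sq_nonneg _), Real.sqrt_sq_eq_abs]
    calc |κ t| * √(hs univ (k + 1) (pv (sl Φ t) (sl Ψ t) (mix P1 P2 (a t) (pb (sl Ψ t) f)))) ≤
          |κ t| * (C * √(nq univ k f)) := mul_le_mul_of_nonneg_left b1 (abs_nonneg _)
      _ = _ := by ring
  -- bounds of the derivatives of `Φ` and `Ψ`
  have hDB : ∀ k : ℕ, ∃ K : ℝ, ∀ t ∈ Icc (-T0) T0, DB k K (sl Φ t) ∧ DB k K (sl Ψ t) := by
    intro k
    obtain ⟨c1, hc1⟩ := hC.db ℝ R Φ hΦ (fun t x hx => (hdif t).out x hx) (Icc (-T0) T0)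
      isCompact_Icc k
    obtain ⟨c2, hc2⟩ := hC.db ℝ R Ψ hΨ (fun t x hx => (dif_symm (hdif t)).out x hx)
      (Icc (-T0) T0) isCompact_Icc k
    refine ⟨max c1 c2, fun t ht => ⟨fun L hL1 hL2 x => ?_, fun L hL1 hL2 x => ?_⟩⟩
    · exact (hc1 t ht L hL1 hL2 x).trans (le_max_left _ _)
    · exact (hc2 t ht L hL1 hL2 x).trans (le_max_right _ _)
  have hzero : ∀ (k : ℕ) (t : ℝ), κ t = 0 → (0 : ℝ) ∈ CS R k (mlaw P1 P2 Φ Ψ κ a t) := by
    intro k t ht
    refine ⟨le_rfl, fun f hf => ?_⟩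
    have e : mlaw P1 P2 Φ Ψ κ a t f = fun x => (0 : ℝ) • f x := by
      funext x
      show κ t • pv (sl Φ t) (sl Ψ t) (mix P1 P2 (a t) (pb (sl Ψ t) f)) x = _
      rw [ht, zero_smul, zero_smul]
    rw [e, HSB.smul _ _ _ _ hf.smooth]
    simp
  obtain ⟨Bκ, hBκ⟩ := (isCompact_Icc (a := -T0) (b := T0)).exists_bound_of_continuousOn
    hκ.continuous.continuousOn
  have hBκ0 : 0 ≤ |Bκ| := abs_nonneg _
  -- for every `k` one constant for all times
  have hall : ∀ k : ℕ, ∃ C : ℝ, 0 ≤ C ∧ ∀ t, ∃ c ∈ CS R k (mlaw P1 P2 Φ Ψ κ a t), c ≤ C := by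
    intro k
    obtain ⟨K, hK⟩ := hDB (k + 2)
    obtain ⟨C, hC0, hCb⟩ := law_le hB hA R h1 h2 k K
    refine ⟨C * |Bκ|, by positivity, fun t => ?_⟩
    by_cases ht : |t| ≤ T0
    · have ht' : t ∈ Icc (-T0) T0 := by rwa [mem_Icc, ← abs_le]
      refine ⟨C * |κ t|, hbound k t K C hC0 hCb (hK t ht').1 (hK t ht').2, ?_⟩
      have := hBκ t ht'
      rw [Real.norm_eq_abs] at this
      exact mul_le_mul_of_nonneg_left (this.trans (le_abs_self _)) hC0
    · exact ⟨0, hzero k t (hκ0 t (not_le.1 ht).le), by positivity⟩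
  refine ⟨fun k t => sInf (CS R k (mlaw P1 P2 Φ Ψ κ a t)), ?_, ?_⟩
  · refine ⟨?_, ?_, ?_, ?_, ?_, ?_, ?_⟩
    · -- add
      intro t f g hf hg
      have hpf : In R (pb (sl Ψ t) f) := hA.inp R _ _ f (dif_symm (hdif t)) hf
      have hpg : In R (pb (sl Ψ t) g) := hA.inp R _ _ g (dif_symm (hdif t)) hg
      funext x
      show κ t • pv (sl Φ t) (sl Ψ t) (mix P1 P2 (a t) (pb (sl Ψ t) fun x => f x + g x)) x =
        κ t • pv (sl Φ t) (sl Ψ t) (mix P1 P2 (a t) (pb (sl Ψ t) f)) x +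
        κ t • pv (sl Φ t) (sl Ψ t) (mix P1 P2 (a t) (pb (sl Ψ t) g)) x
      rw [pb_add, mix_add h1.cop h2.cop (a t) hpf hpg, pv_add, smul_add]
    · -- smul
      intro t c f hf
      have hpf : In R (pb (sl Ψ t) f) := hA.inp R _ _ f (dif_symm (hdif t)) hf
      funext x
      show κ t • pv (sl Φ t) (sl Ψ t) (mix P1 P2 (a t) (pb (sl Ψ t) fun x => c • f x)) x =
        c • κ t • pv (sl Φ t) (sl Ψ t) (mix P1 P2 (a t) (pb (sl Ψ t) f)) x
      rw [pb_smul, mix_smul h1.cop h2.cop (a t) c hpf, pv_smul, smul_comm]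
    · -- inc
      intro j m hm
      have hI := specIncPull
      have s1 : InC R j (fun p : ℝ × E => pb (sl Ψ p.1) (sl m p.1) p.2) :=
        hI.pb R j Ψ Φ m hR hΨ hΦ (fun t => dif_symm (hdif t)) hm
      have s2 := hO E E R P1 hR h1.cop j _ s1
      have s3 := hO E E R P2 hR h2.cop j _ s1
      have hA' := specIncAlg
      have ha1 : Sm (fun p : ℝ × E => 1 - a p.1) :=
        contDiff_const.sub (ha.comp contDiff_fst)
      have ha2 : Sm (fun p : ℝ × E => a p.1) := ha.comp contDiff_fst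
      have hk : Sm (fun p : ℝ × E => κ p.1) := hκ.comp contDiff_fst
      have s4 := hA'.add E R j _ _ (hA'.smul E R j _ _ ha1 s2) (hA'.smul E R j _ _ ha2 s3)
      have s5 := hI.pv R j Φ Ψ _ hR hΦ hΨ hdif s4
      exact hA'.smul E R j _ _ hk s5
    · -- bound
      intro t k f hf
      obtain ⟨C, -, hC⟩ := hall k
      obtain ⟨c, hc, -⟩ := hC t
      exact (sInf_mem ⟨c, hc⟩).2 f hf
    · -- nonneg
      intro k t
      obtain ⟨C, -, hC⟩ := hall k
      obtain ⟨c, hc, -⟩ := hC t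
      exact (sInf_mem ⟨c, hc⟩).1
    · -- bdd
      intro k
      obtain ⟨C, -, hC⟩ := hall k
      refine ⟨C, fun t => ?_⟩
      obtain ⟨c, hc, hcC⟩ := hC t
      exact (sInf_le' hc).trans hcC
    · -- supp
      intro k t ht
      refine le_antisymm (sInf_le' (hzero k t (hκ0 t ht))) ?_
      exact (sInf_mem ⟨0, hzero k t (hκ0 t ht)⟩).1
  · intro t K hΦt hΨt
    exact sInf_le' (hbound 5 t K (CC K) (hCC0 K) (hCC K) hΦt hΨt)

end MPfab
end

section
/-!
MP_fabde4_an, part M: module FASTB (crude bound of the nonlinear term).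
-/
set_option autoImplicit false
open MeasureTheory Set Filter Topology

namespace MPfab

namespace FastBM

open LopM IncPullM MovM

variable {F : Type*} [NormedAddCommGroup F] [NormedSpace ℝ F]

theorem bd_mono {S : Set E} {j k : ℕ} {f : E → F} {c : ℝ} (h : Bd S k f c) (hjk : j ≤ k) :
    Bd S j f c := fun L hL x hx => h L (hL.trans hjk) x hx

theorem bd_le {S : Set E} {k : ℕ} {f : E → F} {c c' : ℝ} (h : Bd S k f c) (hc : c ≤ c') :
    Bd S k f c' := fun L hL x hx => (h L hL x hx).trans hc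

theorem db_mono {j k : ℕ} {K : ℝ} {Φ : E → E} (h : DB k K Φ) (hjk : j ≤ k) : DB j K Φ :=
  fun L h1 h2 x => h L h1 (h2.trans hjk) x

theorem bd_nonneg {k : ℕ} {f : E → F} {c : ℝ} (h : Bd univ k f c) : 0 ≤ c :=
  (norm_nonneg _).trans (h [] (Nat.zero_le _) 0 (mem_univ _))

theorem bd_comp {k : ℕ} {w : E → E} {c : ℝ} (hw : Sm w) (h : Bd univ k w c) (j : Fin 3) :
    Bd univ k (fun x => w x j) c := by
  intro L hL x hx
  have e := INC.pds_clm (EuclideanSpace.proj j : E →L[ℝ] ℝ) hw L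
  have e' : pds L (fun x => w x j) x = pds L w x j := congrFun e x
  rw [e']
  exact (PiLp.norm_apply_le _ j).trans (h L hL x hx)

/-- components of the curl -/
theorem bd_curl {k : ℕ} {w : E → E} {c : ℝ} (hw : Sm w) (h : Bd univ (k + 1) w c) (j : Fin 3) :
    Bd univ k (fun x => curl w x j) (2 * c) := by
  have key : ∀ a b e d : Fin 3, Bd univ k (fun x => pd a w x b - pd e w x d) (2 * c) := by
    intro a b e d L hL x hx
    have h1 := INC.pds_clm (EuclideanSpace.proj b : E →L[ℝ] ℝ) (hw.pd a) L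
    have h2 := INC.pds_clm (-(EuclideanSpace.proj d : E →L[ℝ] ℝ)) (hw.pd e) L
    have h3 := INC.pds_add (INC.sm_clm (EuclideanSpace.proj b : E →L[ℝ] ℝ) (hw.pd a))
      (INC.sm_clm (-(EuclideanSpace.proj d : E →L[ℝ] ℝ)) (hw.pd e)) L
    have e1 : (fun x => pd a w x b - pd e w x d) = fun x =>
        (EuclideanSpace.proj b : E →L[ℝ] ℝ) (pd a w x) +
        (-(EuclideanSpace.proj d : E →L[ℝ] ℝ)) (pd e w x) := by
      funext x
      simp [sub_eq_add_neg]
    rw [e1, h3, h1, h2]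
    have n1 : ‖pds L (pd a w) x b‖ ≤ c := by
      refine (PiLp.norm_apply_le _ b).trans ?_
      rw [← INC.pds_append_single]
      exact h _ (by rw [List.length_append, List.length_singleton]; omega) x hx
    have n2 : ‖pds L (pd e w) x d‖ ≤ c := by
      refine (PiLp.norm_apply_le _ d).trans ?_
      rw [← INC.pds_append_single]
      exact h _ (by rw [List.length_append, List.length_singleton]; omega) x hx
    have n3 : ‖(EuclideanSpace.proj b : E →L[ℝ] ℝ) (pds L (pd a w) x) +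
        (-(EuclideanSpace.proj d : E →L[ℝ] ℝ)) (pds L (pd e w) x)‖ ≤
        ‖pds L (pd a w) x b‖ + ‖pds L (pd e w) x d‖ := by
      refine (norm_add_le _ _).trans ?_
      simp
    linarith
  fin_cases j
  · exact key 1 2 2 1
  · exact key 2 0 0 2
  · exact key 0 1 1 0

theorem in_cr {R : ℝ} {w b : E → E} (hw : Sm w) (hb : In R b) :
    In R (fun x => cr (w x) (b x)) := by
  refine ⟨hw.cr hb.smooth, fun x hx => ?_⟩
  rw [hb.supp x hx]
  ext i
  fin_cases i <;> simp

/-- the cross product with a bounded field -/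
theorem cr_le (hH : SpecHmul) (k : ℕ) : ∃ C : ℝ, 0 ≤ C ∧ ∀ (R : ℝ) (w b : E → E) (c : ℝ),
    Sm w → (∀ j, Bd univ k (fun x => w x j) c) → In R b →
    √(hs univ k (fun x => cr (w x) (b x))) ≤ C * c * √(hs univ k b) := by
  obtain ⟨C, hC0, hC⟩ := hH k
  refine ⟨4 * C, by positivity, fun R w b c hw hbd hb => ?_⟩
  have hc : 0 ≤ c := bd_nonneg (hbd 0)
  have hcr := in_cr hw hb
  have hb0 := HSB.nonneg (univ : Set E) k b
  -- one product
  have key : ∀ i j : Fin 3, hs univ k (fun x => w x i • b x j) ≤ (C * c) ^ 2 * hs univ k b := by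
    intro i j
    have h1 := hC ℝ R (fun x => w x i) (fun x => b x j) c (hw.comp_apply i) (hbd i)
      (in_comp hb j)
    have h2 := comp_le (S := univ) k (Or.inr (hcs hb)) hb.smooth j
    have h3 : 0 ≤ hs univ k (fun x => w x i • b x j) := HSB.nonneg _ _ _
    have h4 : √(hs univ k (fun x => w x i • b x j)) ≤ C * c * √(hs univ k b) :=
      h1.trans (mul_le_mul_of_nonneg_left (Real.sqrt_le_sqrt h2) (by positivity))
    have h5 := pow_le_pow_left₀ (Real.sqrt_nonneg _) h4 2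
    rw [Real.sq_sqrt h3, mul_pow, Real.sq_sqrt hb0] at h5
    exact h5
  have hin : ∀ i j : Fin 3, In R (fun x => w x i • b x j) := fun i j =>
    in_mul (hw.comp_apply i) (in_comp hb j)
  have key2 : ∀ i j i' j' : Fin 3, hs univ k (fun x => w x i • b x j - w x i' • b x j') ≤
      4 * ((C * c) ^ 2 * hs univ k b) := by
    intro i j i' j'
    have h1 := sub_le (S := univ) k (fun x => w x i • b x j) (fun x => w x i' • b x j')
      (Or.inr ⟨hcs (hin i j), hcs (hin i' j')⟩) (hin i j).smooth (hin i' j').smooth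
    have h2 := key i j
    have h3 := key i' j'
    linarith
  have h1 : hs univ k (fun x => cr (w x) (b x)) ≤ (4 * C * c) ^ 2 * hs univ k b := by
    rw [HSB.comp k _ (Or.inr (hcs hcr)) hcr.smooth, Fin.sum_univ_three]
    have e0 := key2 1 2 2 1
    have e1 := key2 2 0 0 2
    have e2 := key2 0 1 1 0
    have f0 : (fun x => cr (w x) (b x) 0) = fun x => w x 1 • b x 2 - w x 2 • b x 1 := rfl
    have f1 : (fun x => cr (w x) (b x) 1) = fun x => w x 2 • b x 0 - w x 0 • b x 2 := rfl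
    have f2 : (fun x => cr (w x) (b x) 2) = fun x => w x 0 • b x 1 - w x 1 • b x 0 := rfl
    rw [f0, f1, f2]
    have : 0 ≤ (C * c) ^ 2 * hs univ k b := by positivity
    nlinarith
  calc √(hs univ k (fun x => cr (w x) (b x))) ≤ √((4 * C * c) ^ 2 * hs univ k b) :=
        Real.sqrt_le_sqrt h1
    _ = 4 * C * c * √(hs univ k b) := by
        rw [Real.sqrt_mul (sq_nonneg _), Real.sqrt_sq (by positivity)]

theorem nq_mono (S : Set E) {j k : ℕ} (w : E → E) (h : j ≤ k) : nq S j w ≤ nq S k w :=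
  add_le_add (HSB.mono S _ h) le_rfl

end FastBM

open LopM IncPullM MovM FastBM in
/-- module FASTB -/
theorem specFastB (hA : SpecPbAlg) (hB : SpecPbb) (hH : SpecHmul) (hS : SpecChs) :
    SpecFastB := by
  intro R P1 P2 hR h1 h2 K
  obtain ⟨C1, hC1, hlaw⟩ := law_le hB hA R h1 h2 5 K
  obtain ⟨C2, hC2, hcr⟩ := cr_le hH 6
  obtain ⟨C3, hC3, hchs⟩ := hS R 7
  refine ⟨max (4 * (C3 * K)) (4 * (C2 * (2 * K) * (C1 * (4 * (C3 * K))))), ?_⟩
  intro Φ Ψ M a hd hΦ hΨ hM hMK ha ha1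
  have hK : 0 ≤ K := bd_nonneg hMK
  have b1 : √(nq univ 6 M) ≤ 4 * (C3 * K) :=
    (sqrt_nq_le 6 hM).trans (mul_le_mul_of_nonneg_left
      (hchs E M K hM (bd_mono hMK (by norm_num))) (by norm_num))
  refine ⟨b1.trans (le_max_left _ _), le_trans ?_ (le_max_right _ _)⟩
  have hpb : In R (pb Ψ M) := hA.inp R Ψ Φ M (dif_symm hd) hM
  have hb : In R (pv Φ Ψ (mix P1 P2 a (pb Ψ M))) :=
    hA.inv R Φ Ψ _ hd (mix_in h1.cop h2.cop a hpb)
  have b2 := hlaw Φ Ψ hd (db_mono hΦ (by norm_num)) (db_mono hΨ (by norm_num)) a ha ha1 M hM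
  have b3 : √(nq univ 5 M) ≤ 4 * (C3 * K) :=
    (Real.sqrt_le_sqrt (nq_mono univ M (by norm_num))).trans b1
  have b4 := hcr R (curl M) _ (2 * K) hM.smooth.curl
    (fun j => bd_curl hM.smooth (bd_mono hMK (by norm_num)) j) hb
  have b5 := sqrt_nq_le 5 (in_cr hM.smooth.curl hb)
  refine b5.trans (mul_le_mul_of_nonneg_left ?_ (by norm_num))
  refine b4.trans (mul_le_mul_of_nonneg_left ?_ (by positivity))
  exact b2.trans (mul_le_mul_of_nonneg_left b3 hC1)

end MPfab
end

section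
/-!
MP_fabde4_an, part M: module CONT (continuity of the nonlinear term in the moving frame).
-/
set_option autoImplicit false
open MeasureTheory Set Filter Topology

namespace MPfab

namespace ContM

open LopM IncPullM MovM FastBM

variable {F : Type*} [NormedAddCommGroup F] [NormedSpace ℝ F]

theorem sqrt_add_le {R : ℝ} (k : ℕ) {f g : E → F} (hf : In R f) (hg : In R g) :
    √(hs univ k (fun x => f x + g x)) ≤ 2 * (√(hs univ k f) + √(hs univ k g)) := by
  have h1 := HSB.add_le (S := univ) k f g (Or.inr ⟨hcs hf, hcs hg⟩) hf.smooth hg.smooth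
  have hF := HSB.nonneg (univ : Set E) k f
  have hG := HSB.nonneg (univ : Set E) k g
  refine Real.sqrt_le_iff.2 ⟨by positivity, ?_⟩
  have s1 := Real.sq_sqrt hF
  have s2 := Real.sq_sqrt hG
  have n1 := Real.sqrt_nonneg (hs univ k f)
  have n2 := Real.sqrt_nonneg (hs univ k g)
  nlinarith [mul_nonneg n1 n2]

theorem bd_add {S : Set E} {k : ℕ} {f g : E → F} {c c' : ℝ} (hf : Sm f) (hg : Sm g)
    (h : Bd S k f c) (h' : Bd S k g c') : Bd S k (fun x => f x + g x) (c + c') := by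
  intro L hL x hx
  rw [INC.pds_add hf hg]
  exact (norm_add_le _ _).trans (add_le_add (h L hL x hx) (h' L hL x hx))

theorem db_of_close {k : ℕ} {c δ : ℝ} {Φ Φ' : E → E} (hΦ : Sm Φ) (hΦ' : Sm Φ')
    (h : DB k c Φ') (hc : Bd univ k (fun x => Φ x - Φ' x) δ) : DB k (c + δ) Φ := by
  intro L h1 h2 x
  have e : Φ = fun x => Φ' x + (Φ x - Φ' x) := by
    funext x
    abel
  rw [e, INC.pds_add hΦ' (hΦ.sub hΦ')]
  exact (norm_add_le _ _).trans (add_le_add (h L h1 h2 x) (hc L h2 x (mem_univ x)))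

theorem curl_add {f g : E → E} (hf : Sm f) (hg : Sm g) (x : E) :
    curl (fun y => f y + g y) x = curl f x + curl g x := by
  have h : ∀ i, pd i (fun y => f y + g y) x = pd i f x + pd i g x := fun i =>
    PDC.pd_add (hf.differentiable x) (hg.differentiable x) i
  ext j
  fin_cases j
  · show pd 1 (fun y => f y + g y) x 2 - pd 2 (fun y => f y + g y) x 1 =
      (pd 1 f x 2 - pd 2 f x 1) + (pd 1 g x 2 - pd 2 g x 1)
    rw [h, h]
    show (pd 1 f x 2 + pd 1 g x 2) - (pd 2 f x 1 + pd 2 g x 1) = _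
    ring
  · show pd 2 (fun y => f y + g y) x 0 - pd 0 (fun y => f y + g y) x 2 =
      (pd 2 f x 0 - pd 0 f x 2) + (pd 2 g x 0 - pd 0 g x 2)
    rw [h, h]
    show (pd 2 f x 0 + pd 2 g x 0) - (pd 0 f x 2 + pd 0 g x 2) = _
    ring
  · show pd 0 (fun y => f y + g y) x 1 - pd 1 (fun y => f y + g y) x 0 =
      (pd 0 f x 1 - pd 1 f x 0) + (pd 0 g x 1 - pd 1 g x 0)
    rw [h, h]
    show (pd 0 f x 1 + pd 0 g x 1) - (pd 1 f x 0 + pd 1 g x 0) = _
    ring

theorem dif_flow {R : ℝ} {B : E → E} {FB : ℝ × E → E} (hF : IsFlow B FB)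
    (hout : ∀ s x, R ≤ ‖x‖ → FB (s, x) = x) (t : ℝ) : Dif R (sl FB t) (sl FB (-t)) := by
  refine ⟨PDC.sl_smooth hF.smooth t, PDC.sl_smooth hF.smooth (-t), fun x => ?_, fun x => ?_,
    fun x hx => hout t x hx⟩
  · show FB (-t, FB (t, x)) = x
    rw [hF.group, neg_add_cancel, hF.zero]
  · show FB (t, FB (-t, x)) = x
    rw [hF.group, add_neg_cancel, hF.zero]

theorem cr_split (a b v v0 : E) : cr (a + b) v - cr a v0 = cr b v + cr a (v - v0) := by
  ext i
  fin_cases i
  · show ((a 1 + b 1) * v 2 - (a 2 + b 2) * v 1) - (a 1 * v0 2 - a 2 * v0 1) =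
      (b 1 * v 2 - b 2 * v 1) + (a 1 * (v 2 - v0 2) - a 2 * (v 1 - v0 1))
    ring
  · show ((a 2 + b 2) * v 0 - (a 0 + b 0) * v 2) - (a 2 * v0 0 - a 0 * v0 2) =
      (b 2 * v 0 - b 0 * v 2) + (a 2 * (v 0 - v0 0) - a 0 * (v 2 - v0 2))
    ring
  · show ((a 0 + b 0) * v 1 - (a 1 + b 1) * v 0) - (a 0 * v0 1 - a 1 * v0 0) =
      (b 0 * v 1 - b 1 * v 0) + (a 0 * (v 1 - v0 1) - a 1 * (v 0 - v0 0))
    ring

end ContM

open LopM IncPullM MovM FastBM ContM in
/-- module CONT -/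
theorem specCont (hA : SpecPbAlg) (hB : SpecPbb) (hPC : SpecPbc) (hSm : SpecPbSm)
    (hC : SpecCpt) (hH : SpecHmul) (hS : SpecChs) (hO : SpecIncOp) : SpecCont := by
  intro R T P B FB u hR hP hBin hFl hout hu η hη
  have hdif := fun t => dif_flow hFl hout t
  have hut : ∀ t, In R (sl u t) := fun t =>
    ⟨PDC.sl_smooth hu.smooth t, fun x hx => hu.supp t x hx⟩
  have hM0 : ∀ t, In R (pb (sl FB t) (sl u t)) := fun t => hA.inp R _ _ _ (hdif t) (hut t)
  -- the constants
  obtain ⟨c, hc⟩ := hC.db ℝ R FB hFl.smooth (fun t x hx => hout t x hx) (Icc (-T) T)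
    isCompact_Icc 8
  obtain ⟨CB, hCB, hCBb⟩ := hB R 5 (c + 1)
  obtain ⟨CC, hCC, hCCb⟩ := hPC 6 (c + 1)
  obtain ⟨G, hG, hgain⟩ := hP.gain 5
  obtain ⟨Ch, hCh, hchs⟩ := hS R 6
  obtain ⟨Cr, hCr, hcr⟩ := cr_le hH 6
  obtain ⟨cM, hcM⟩ := hC.bd ℝ E R (fun p : ℝ × E => pb (sl FB p.1) (sl u p.1) p.2)
    (hSm.pb ℝ FB u hFl.smooth hu.smooth) (fun t x hx => (hM0 t).supp x hx) (Icc (-T) T)
    isCompact_Icc 8
  have hPin : InT R (fun p : ℝ × E => P (sl u p.1) p.2) :=
    specIncSm.of_all E R _ fun j => hO E E R P hR hP.cop j u (specIncSm.inc E R j u hR hu)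
  obtain ⟨cP, hcP⟩ := hC.bd ℝ E R (fun p : ℝ × E => P (sl u p.1) p.2) hPin.smooth
    (fun t x hx => hPin.supp t x hx) (Icc (-T) T) isCompact_Icc 7
  set V : ℝ := CB * (G * (CB * (4 * (Ch * (|cM| + 1))))) with hV
  have hV0 : 0 ≤ V := by positivity
  set W : ℝ := CB * (G * (4 * (Ch * (CC * |cM|)))) + CB * (G * (CB * (4 * Ch))) +
    Ch * (CC * |cP|) with hW
  have hW0 : 0 ≤ W := by positivity
  set N : ℝ := 8 * (Cr * 2 * V + Cr * (2 * |cM|) * (4 * W)) with hN
  have hN0 : 0 ≤ N := by positivity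
  refine ⟨min 1 (η / (N + 1)), lt_min one_pos (by positivity), ?_⟩
  intro t ht0 htT Φ Ψ S hd hΦ8 hΨ8 hSin hS8
  set δ : ℝ := min 1 (η / (N + 1)) with hδ
  have hδ0 : 0 ≤ δ := bd_nonneg hS8
  have hδ1 : δ ≤ 1 := min_le_left _ _
  have hδN : N * δ ≤ η := by
    have h1 : δ ≤ η / (N + 1) := min_le_right _ _
    rw [le_div_iff₀ (by positivity)] at h1
    nlinarith
  have ht : t ∈ Icc (-T) T := ⟨by linarith, htT⟩
  have ht' : -t ∈ Icc (-T) T := ⟨by linarith, by linarith⟩
  have hdt : Dif R (sl FB t) (sl FB (-t)) := hdif t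
  -- derivative bounds
  have hFt : DB 8 (c + 1) (sl FB t) := fun L h1 h2 x => (hc t ht L h1 h2 x).trans (by linarith)
  have hFt' : DB 8 (c + 1) (sl FB (-t)) := fun L h1 h2 x =>
    (hc (-t) ht' L h1 h2 x).trans (by linarith)
  have hΦd : DB 8 (c + 1) Φ := fun L h1 h2 x =>
    (db_of_close hd.smooth hdt.smooth (hc t ht) hΦ8 L h1 h2 x).trans (by linarith)
  have hΨd : DB 8 (c + 1) Ψ := fun L h1 h2 x =>
    (db_of_close hd.smoothi hdt.smoothi (hc (-t) ht') hΨ8 L h1 h2 x).trans (by linarith)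
  -- the fields
  set M0 : E → E := pb (sl FB t) (sl u t) with hM0def
  have hM0in : In R M0 := hM0 t
  have hM0bd : Bd univ 8 M0 |cM| := bd_le (hcM t ht) (le_abs_self _)
  have hPu : In R (P (sl u t)) := hP.cop.maps _ (hut t)
  have hPubd : Bd univ 7 (P (sl u t)) |cP| := bd_le (hcP t ht) (le_abs_self _)
  have hMin : In R (fun y => M0 y + S y) := in_add hM0in hSin
  have hd' := dif_symm hd
  have hpbM : In R (pb Ψ (fun y => M0 y + S y)) := hA.inp R Ψ Φ _ hd' hMin
  have hpbS : In R (pb Ψ S) := hA.inp R Ψ Φ _ hd' hSin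
  have hpbM0 : In R (pb Ψ M0) := hA.inp R Ψ Φ _ hd' hM0in
  have hpbM0' : In R (pb (sl FB (-t)) M0) := hA.inp R _ _ _ (dif_symm hdt) hM0in
  have hue : pb (sl FB (-t)) M0 = sl u t := by
    funext x
    rw [hM0def, hA.comp _ _ _ hdt.smoothi hdt.smooth]
    have e : (fun y => sl FB t (sl FB (-t) y)) = fun y => y := funext hdt.right
    rw [e, hA.id]
  set D1 : E → E := fun x => pb Ψ M0 x - pb (sl FB (-t)) M0 x with hD1
  have hD1in : In R D1 := in_sub hpbM0 hpbM0'
  -- the velocity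
  have hv : pv Φ Ψ (P (pb Ψ (fun y => M0 y + S y))) = fun x =>
      (pv Φ Ψ (P (sl u t)) x + pv Φ Ψ (P D1) x) + pv Φ Ψ (P (pb Ψ S)) x := by
    have e1 : pb Ψ (fun y => M0 y + S y) = fun y => (fun y => sl u t y + D1 y) y + pb Ψ S y := by
      rw [pb_add]
      funext y
      show pb Ψ M0 y + pb Ψ S y = (sl u t y + (pb Ψ M0 y - pb (sl FB (-t)) M0 y)) + pb Ψ S y
      rw [hue]
      abel
    rw [e1, hP.cop.add _ _ (in_add (hut t) hD1in) hpbS, hP.cop.add _ _ (hut t) hD1in, pv_add,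
      pv_add]
  have hvin : In R (pv Φ Ψ (P (pb Ψ (fun y => M0 y + S y)))) :=
    hA.inv R Φ Ψ _ hd (hP.cop.maps _ hpbM)
  have hv0in : In R (pv (sl FB t) (sl FB (-t)) (P (sl u t))) := hA.inv R _ _ _ hdt hPu
  -- bounds
  have hDB7 : ∀ {Θ : E → E}, DB 8 (c + 1) Θ → DB (5 + 2) (c + 1) Θ := fun h =>
    db_mono h (by norm_num)
  have bpv : ∀ b, In R b → √(hs univ 6 (pv Φ Ψ b)) ≤ CB * √(hs univ 6 b) :=
    (hCBb Φ Ψ hd (hDB7 hΦd) (hDB7 hΨd)).2
  have bpb : ∀ m, In R m → √(nq univ 5 (pb Ψ m)) ≤ CB * √(nq univ 5 m) :=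
    (hCBb Ψ Φ hd' (hDB7 hΨd) (hDB7 hΦd)).1
  have bV : √(hs univ 6 (pv Φ Ψ (P (pb Ψ (fun y => M0 y + S y))))) ≤ V := by
    refine (bpv _ (hP.cop.maps _ hpbM)).trans (mul_le_mul_of_nonneg_left ?_ hCB)
    refine (hgain _ hpbM).trans (mul_le_mul_of_nonneg_left ?_ hG)
    refine (bpb _ hMin).trans (mul_le_mul_of_nonneg_left ?_ hCB)
    refine (sqrt_nq_le 5 hMin).trans (mul_le_mul_of_nonneg_left ?_ (by norm_num))
    refine hchs E _ _ hMin ?_
    exact bd_le (bd_add hM0in.smooth hSin.smooth (bd_mono hM0bd (by norm_num))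
      (bd_mono hS8 (by norm_num))) (by linarith)
  have bw1 : √(hs univ 6 (pv Φ Ψ (P D1))) ≤ CB * (G * (4 * (Ch * (CC * |cM| * δ)))) := by
    refine (bpv _ (hP.cop.maps _ hD1in)).trans (mul_le_mul_of_nonneg_left ?_ hCB)
    refine (hgain _ hD1in).trans (mul_le_mul_of_nonneg_left ?_ hG)
    refine (sqrt_nq_le 5 hD1in).trans (mul_le_mul_of_nonneg_left ?_ (by norm_num))
    refine hchs E _ _ hD1in ?_
    exact (hCCb R Ψ Φ (sl FB (-t)) (sl FB t) δ hd' (dif_symm hdt) hΨd hΦd hFt' hFt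
      (bd_mono hΨ8 (by norm_num)) (bd_mono hΦ8 (by norm_num))).1 M0 |cM| hM0in.smooth
      (bd_mono hM0bd (by norm_num))
  have bw2 : √(hs univ 6 (pv Φ Ψ (P (pb Ψ S)))) ≤ CB * (G * (CB * (4 * (Ch * δ)))) := by
    refine (bpv _ (hP.cop.maps _ hpbS)).trans (mul_le_mul_of_nonneg_left ?_ hCB)
    refine (hgain _ hpbS).trans (mul_le_mul_of_nonneg_left ?_ hG)
    refine (bpb _ hSin).trans (mul_le_mul_of_nonneg_left ?_ hCB)
    refine (sqrt_nq_le 5 hSin).trans (mul_le_mul_of_nonneg_left ?_ (by norm_num))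
    exact hchs E _ _ hSin (bd_mono hS8 (by norm_num))
  have hQin : In R (fun x => pv Φ Ψ (P (sl u t)) x - pv (sl FB t) (sl FB (-t)) (P (sl u t)) x) :=
    in_sub (hA.inv R Φ Ψ _ hd hPu) hv0in
  have bw3 : √(hs univ 6 (fun x => pv Φ Ψ (P (sl u t)) x -
      pv (sl FB t) (sl FB (-t)) (P (sl u t)) x)) ≤ Ch * (CC * |cP| * δ) := by
    refine hchs E _ _ hQin ?_
    exact (hCCb R Φ Ψ (sl FB t) (sl FB (-t)) δ hd hdt hΦd hΨd hFt hFt'
      (bd_mono hΦ8 (by norm_num)) (bd_mono hΨ8 (by norm_num))).2 _ |cP| hPu.smooth hPubd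
  -- the difference of the velocities
  have hw1in : In R (pv Φ Ψ (P D1)) := hA.inv R Φ Ψ _ hd (hP.cop.maps _ hD1in)
  have hw2in : In R (pv Φ Ψ (P (pb Ψ S))) := hA.inv R Φ Ψ _ hd (hP.cop.maps _ hpbS)
  have hdv : (fun x => pv Φ Ψ (P (pb Ψ (fun y => M0 y + S y))) x -
      pv (sl FB t) (sl FB (-t)) (P (sl u t)) x) = fun x =>
      (fun x => pv Φ Ψ (P D1) x + pv Φ Ψ (P (pb Ψ S)) x) x +
        (fun x => pv Φ Ψ (P (sl u t)) x - pv (sl FB t) (sl FB (-t)) (P (sl u t)) x) x := by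
    funext x
    rw [hv]
    simp only
    abel
  have bdv : √(hs univ 6 (fun x => pv Φ Ψ (P (pb Ψ (fun y => M0 y + S y))) x -
      pv (sl FB t) (sl FB (-t)) (P (sl u t)) x)) ≤ 4 * W * δ := by
    rw [hdv]
    have e1 := sqrt_add_le 6 (in_add hw1in hw2in) hQin
    have e2 := sqrt_add_le 6 hw1in hw2in
    have e3 := Real.sqrt_nonneg (hs univ 6 (fun x => pv Φ Ψ (P (sl u t)) x -
      pv (sl FB t) (sl FB (-t)) (P (sl u t)) x))
    have e4 : 4 * W * δ = 4 * (CB * (G * (4 * (Ch * (CC * |cM| * δ)))) +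
      CB * (G * (CB * (4 * (Ch * δ)))) + Ch * (CC * |cP| * δ)) := by
      rw [hW]; ring
    rw [e4]
    linarith
  have hdvin : In R (fun x => pv Φ Ψ (P (pb Ψ (fun y => M0 y + S y))) x -
      pv (sl FB t) (sl FB (-t)) (P (sl u t)) x) := in_sub hvin hv0in
  -- the two terms
  have bA := hcr R (curl S) _ (2 * δ) hSin.smooth.curl
    (fun j => bd_curl hSin.smooth (bd_mono hS8 (by norm_num)) j) hvin
  have bB := hcr R (curl M0) _ (2 * |cM|) hM0in.smooth.curl
    (fun j => bd_curl hM0in.smooth (bd_mono hM0bd (by norm_num)) j) hdvin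
  have hAin := in_cr hSin.smooth.curl hvin
  have hBin' := in_cr hM0in.smooth.curl hdvin
  have hsplit : (fun x => cr (curl (fun y => M0 y + S y) x)
        (pv Φ Ψ (P (pb Ψ (fun y => M0 y + S y))) x) -
      cr (curl M0 x) (pv (sl FB t) (sl FB (-t)) (P (sl u t)) x)) = fun x =>
      cr (curl S x) (pv Φ Ψ (P (pb Ψ (fun y => M0 y + S y))) x) +
      cr (curl M0 x) (pv Φ Ψ (P (pb Ψ (fun y => M0 y + S y))) x -
        pv (sl FB t) (sl FB (-t)) (P (sl u t)) x) := by
    funext x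
    rw [curl_add hM0in.smooth hSin.smooth, cr_split]
  rw [hsplit]
  have f1 := sqrt_nq_le 5 (in_add hAin hBin')
  have f2 := sqrt_add_le 6 hAin hBin'
  have f3 : Cr * (2 * δ) * √(hs univ 6 (pv Φ Ψ (P (pb Ψ (fun y => M0 y + S y))))) ≤
      Cr * (2 * δ) * V := mul_le_mul_of_nonneg_left bV (by positivity)
  have f4 : Cr * (2 * |cM|) * √(hs univ 6 (fun x => pv Φ Ψ (P (pb Ψ (fun y => M0 y + S y))) x -
      pv (sl FB t) (sl FB (-t)) (P (sl u t)) x)) ≤ Cr * (2 * |cM|) * (4 * W * δ) :=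
    mul_le_mul_of_nonneg_left bdv (by positivity)
  have f5 : N * δ = 8 * (Cr * (2 * δ) * V + Cr * (2 * |cM|) * (4 * W * δ)) := by
    rw [hN]; ring
  refine le_trans ?_ hδN
  rw [f5]
  refine f1.trans ?_
  linarith

end MPfab
end
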