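import Pool.Agent.Lib.MP_fabde4_an.SpecM

/-!
MP_fabde4_an, part M: module WFTAN.
-/

set_option autoImplicit false
open MeasureTheory Set Filter Topology

namespace MPfab

/-- module WFTAN -/
theorem specWftan (hN : SpecNormal) (hF : SpecFtan) : SpecWftan := by
  intro ρ R c Θ Θi hρ hW htan s x
  obtain ⟨ρ', hρ', hneg, hzero, U, hU, hsub, heq⟩ := hN ρ hρ
  have hEvo : IsEvo c (fun p : ℝ × ℝ × E => Θ (p.1, Θi (p.2.1, p.2.2))) := by
    refine ⟨?_, ?_, ?_, ?_⟩
    · exact hW.smooth.comp (contDiff_fst.prodMk (hW.smoothi.comp contDiff_snd))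
    · intro s x
      exact hW.right s x
    · intro t s x
      exact hW.deriv t (Θi (s, x))
    · intro t s r x
      show Θ (t, Θi (s, Θ (s, Θi (r, x)))) = Θ (t, Θi (r, x))
      rw [hW.left]
  have htan' : ∀ t, Tan ρ' fun x => c (t, x) := by
    intro t y hy
    have hy' : ρ y = 0 := (hzero y).1 hy
    have hyU : y ∈ U := hsub hy'.le
    have h1 : ρ' =ᶠ[𝓝 y] ρ := by
      filter_upwards [hU.mem_nhds hyU] with z hz
      exact heq z hz
    rw [h1.fderiv_eq]
    exact htan t y hy'
  have h1 := hF ρ' c _ R hρ' hW.field htan' hEvo s 0 x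
  have h2 : Θi (0, x) = x := by
    have h3 := hW.left 0 x
    rwa [hW.zero] at h3
  simp only [h2] at h1
  rw [hneg, hneg, hzero, hzero] at h1
  exact h1

end MPfab
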